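import Pool.Agent.Lib_helper30.GSC.Transfer

set_option autoImplicit false

/-!
# All but finitely many characteristics are alike
-/

namespace Pool.Agent.GSC

open Matrix Module CategoryTheory

universe u

/-- The pair `(x, y)` is the pair of self-injective dimensions of an algebra of dimension `d` over a
field of characteristic `p`, which is finite if `p` is not zero. -/
def Realized (d p : ℕ) (x y : WithBot ℕ∞) : Prop :=
  ∃ (F B : Type) (_ : Field F) (_ : Ring B) (_ : Algebra F B), CharP F p ∧ (p ≠ 0 → Finite F) ∧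
    Module.Finite F B ∧ Module.finrank F B = d ∧ injectiveDimension (ModuleCat.of B B) = x ∧
    injectiveDimension (ModuleCat.of Bᵐᵒᵖ B) = y

lemma finite_values (m : ℕ) : {x : WithBot ℕ∞ | x = ⊤ ∨ x ≤ (m : WithBot ℕ∞)}.Finite := by
  have h : ({⊤, ⊥} ∪ (fun j : ℕ => (j : WithBot ℕ∞)) '' {j | j ≤ m} : Set (WithBot ℕ∞)).Finite :=
    (Set.toFinite _).union ((Set.finite_le_nat m).image _)
  refine h.subset fun x hx => ?_
  rcases hx with h1 | h1
  · left
    left
    exact h1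
  · induction x with
    | bot => left; right; rfl
    | coe x =>
      induction x with
      | top =>
        left
        left
        rfl
      | coe j =>
        right
        refine ⟨j, ?_, rfl⟩
        have h2 : ((j : ℕ) : WithBot ℕ∞) ≤ ((m : ℕ) : WithBot ℕ∞) := h1
        exact_mod_cast h2

/-- Descent to the lowest universe, in the same characteristic. -/
theorem lower (K A : Type u) [Field K] [Ring A] [Algebra K A] [Module.Finite K A] (r : ℕ)
    [CharP K r] : Realized (Module.finrank K A) r (injectiveDimension (ModuleCat.of A A))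
      (injectiveDimension (ModuleCat.of Aᵐᵒᵖ A)) := by
  obtain ⟨N, hN, h⟩ := to_finite K A
  rcases CharP.char_is_prime_or_zero K r with hr | hr
  · obtain ⟨F, B, i1, i2, i3, i4, h1, h2, h3, h4, h5⟩ := h r hr (Or.inl (CharP.cast_eq_zero K r))
    exact ⟨F, B, i1, i3, i4, h1, fun _ => i2, h2, h3, h4, h5⟩
  · subst hr
    have hz : CharZero K := CharP.charP_to_charZero K
    have hS : {p : ℕ | p.Prime ∧ ¬ p ∣ N}.Infinite := by
      have h1 : {p : ℕ | p.Prime}.Infinite := Nat.infinite_setOfPred_prime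
      have h2 : (N.divisors : Set ℕ).Finite := N.divisors.finite_toSet
      refine (h1.diff h2).mono fun p hp => ⟨hp.1, fun hd => hp.2 ?_⟩
      simp only [Finset.mem_coe, Nat.mem_divisors]
      exact ⟨hd, hN⟩
    obtain ⟨F, B, i1, i3, i4, h1, h2, h3, h4, h5⟩ := to_char_zero (Module.finrank K A)
      (injectiveDimension (ModuleCat.of A A)) (injectiveDimension (ModuleCat.of Aᵐᵒᵖ A))
      {p : ℕ | p.Prime ∧ ¬ p ∣ N} hS (fun p hp => ⟨hp.1, by
        obtain ⟨F, B, i1, i2, i3, i4, h1, h2, h3, h4, h5⟩ := h p hp.1 (Or.inr ⟨hz, hp.2⟩)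
        exact ⟨F, B, i1, i3, i4, h1, h2, h3, h4, h5⟩⟩)
    exact ⟨F, B, i1, i3, i4, CharP.ofCharZero F, fun h0 => absurd rfl h0, h2, h3, h4, h5⟩

/-- All but finitely many characteristics are alike, for one pair. -/
lemma transfer_pair (d : ℕ) (x y : WithBot ℕ∞) : ∃ N : ℕ, N ≠ 0 ∧ ∀ p : ℕ, p.Prime → ¬ p ∣ N →
    (Realized d 0 x y ↔ Realized d p x y) := by
  classical
  by_cases h0 : Realized d 0 x y
  · have h0' := h0
    obtain ⟨K, A, i1, i2, i3, h1, h2, h3, h4, h5, h6⟩ := h0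
    have hz : CharZero K := CharP.charP_to_charZero K
    obtain ⟨N, hN, h⟩ := to_finite K A
    refine ⟨N, hN, fun p hp hpN => ⟨fun _ => ?_, fun _ => h0'⟩⟩
    obtain ⟨F, B, j1, j2, j3, j4, g1, g2, g3, g4, g5⟩ := h p hp (Or.inr ⟨hz, hpN⟩)
    exact ⟨F, B, j1, j3, j4, g1, fun _ => j2, g2, by rw [g3, h4], by rw [g4, h5], by rw [g5, h6]⟩
  · have hS : {p : ℕ | p.Prime ∧ Realized d p x y}.Finite := by
      by_contra hinf
      apply h0
      obtain ⟨F, B, i1, i3, i4, h1, h2, h3, h4, h5⟩ := to_char_zero d x y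
        {p : ℕ | p.Prime ∧ Realized d p x y} hinf (fun p hp => ⟨hp.1, by
          obtain ⟨F, B, i1, i2, i3, h1, _, h2, h3, h4, h5⟩ := hp.2
          exact ⟨F, B, i1, i2, i3, h1, h2, h3, h4, h5⟩⟩)
      exact ⟨F, B, i1, i3, i4, CharP.ofCharZero F, fun h0 => absurd rfl h0, h2, h3, h4, h5⟩
    refine ⟨∏ p ∈ hS.toFinset, p, Finset.prod_ne_zero_iff.mpr fun p hp =>
      ((Set.Finite.mem_toFinset hS).mp hp).1.ne_zero, fun p hp hpN =>
        ⟨fun h => absurd h h0, fun h => absurd ?_ hpN⟩⟩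
    exact Finset.dvd_prod_of_mem _ ((Set.Finite.mem_toFinset hS).mpr ⟨hp, h⟩)

/-- All but finitely many characteristics are alike. -/
theorem transfer (d : ℕ) : ∃ N : ℕ, N ≠ 0 ∧ ∀ p : ℕ, p.Prime → ¬ p ∣ N → ∀ x y : WithBot ℕ∞,
    (Realized d 0 x y ↔ Realized d p x y) := by
  classical
  obtain ⟨m, hm⟩ := uniform_id.{0} d
  have hT := finite_values m
  choose N hN hN' using transfer_pair d
  refine ⟨∏ x ∈ hT.toFinset, ∏ y ∈ hT.toFinset, N x y, Finset.prod_ne_zero_iff.mpr fun x _ =>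
    Finset.prod_ne_zero_iff.mpr fun y _ => hN x y, fun p hp hpN x y => ?_⟩
  have hout : ∀ q : ℕ, Realized d q x y → x ∈ hT.toFinset ∧ y ∈ hT.toFinset := by
    rintro q ⟨F, B, _, _, _, _, _, _, hd, rfl, rfl⟩
    rw [Set.Finite.mem_toFinset, Set.Finite.mem_toFinset]
    exact hm F B hd
  by_cases hxy : x ∈ hT.toFinset ∧ y ∈ hT.toFinset
  · refine hN' x y p hp fun hd => hpN ?_
    exact (hd.trans (Finset.dvd_prod_of_mem (fun y => N x y) hxy.2)).trans
      (Finset.dvd_prod_of_mem (fun x => ∏ y ∈ hT.toFinset, N x y) hxy.1)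
  · exact ⟨fun h => absurd (hout 0 h) hxy, fun h => absurd (hout p h) hxy⟩

/-- The final form. -/
theorem alike (d : ℕ) : ∃ m N : ℕ, N ≠ 0 ∧ ∀ (K A : Type u) [Field K] [Ring A] [Algebra K A]
    [Module.Finite K A], Module.finrank K A = d →
      (injectiveDimension (ModuleCat.of A A) = ⊤ ∨ injectiveDimension (ModuleCat.of A A) ≤ m) ∧
      (injectiveDimension (ModuleCat.of Aᵐᵒᵖ A) = ⊤ ∨
        injectiveDimension (ModuleCat.of Aᵐᵒᵖ A) ≤ m) ∧
      ∀ r p : ℕ, CharP K r → (p = r ∨ (r = 0 ∨ ¬ r ∣ N) ∧ (p = 0 ∨ p.Prime ∧ ¬ p ∣ N)) →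
        Realized d p (injectiveDimension (ModuleCat.of A A))
          (injectiveDimension (ModuleCat.of Aᵐᵒᵖ A)) := by
  obtain ⟨m, hm⟩ := uniform_id.{u} d
  obtain ⟨N, hN, h⟩ := transfer d
  refine ⟨m, N, hN, fun K A _ _ _ _ hd => ⟨(hm K A hd).1, (hm K A hd).2, fun r p hr hp => ?_⟩⟩
  have h1 := lower K A r
  rw [hd] at h1
  rcases hp with rfl | ⟨h2, h3⟩
  · exact h1
  · have h4 : Realized d 0 (injectiveDimension (ModuleCat.of A A))
        (injectiveDimension (ModuleCat.of Aᵐᵒᵖ A)) := by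
      rcases CharP.char_is_prime_or_zero K r with hr' | hr'
      · rcases h2 with h2 | h2
        · rw [h2] at h1
          exact h1
        · exact (h r hr' h2 _ _).mpr h1
      · rw [hr'] at h1
        exact h1
    rcases h3 with h3 | ⟨h3, h5⟩
    · rw [h3]
      exact h4
    · exact (h p h3 h5 _ _).mp h4

end Pool.Agent.GSC
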