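import Pool.Agent.Lib_helper30.GSC.Two

set_option autoImplicit false
set_option linter.unusedSectionVars false

/-!
# Cosyzygies that are direct sums of short modules
-/

namespace Pool.Agent.GSC

open CategoryTheory MulOpposite Pool.Agent.Lib_helper54.GSC

universe u

/-- `M` is the internal direct sum of finitely many submodules of length at most `c`. -/
def SumOfShort (A : Type u) [Ring A] (c : ℕ) (M : Type u) [AddCommGroup M] [Module A M] : Prop :=
  ∃ (t : ℕ) (S : Fin t → Submodule A M), DirectSum.IsInternal S ∧ ∀ i, Module.length A (S i) ≤ c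

lemma SumOfShort.of_equiv {A : Type u} [Ring A] {c : ℕ} {M N : Type u} [AddCommGroup M]
    [Module A M] [AddCommGroup N] [Module A N] (e : M ≃ₗ[A] N) (h : SumOfShort A c N) :
    SumOfShort A c M := by
  classical
  obtain ⟨t, S, hS, hc⟩ := h
  rw [DirectSum.isInternal_submodule_iff_iSupIndep_and_iSup_eq_top] at hS
  refine ⟨t, fun i => (S i).map (e.symm : N →ₗ[A] M), ?_, fun i => ?_⟩
  · rw [DirectSum.isInternal_submodule_iff_iSupIndep_and_iSup_eq_top]
    constructor
    · have := hS.1.map_orderIso (Submodule.orderIsoMapComap e.symm)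
      exact this
    · rw [← Submodule.map_iSup, hS.2, Submodule.map_top]
      exact LinearMap.range_eq_top.mpr e.symm.surjective
  · rw [← (e.symm.submoduleMap (S i)).length_eq]
    exact hc i

lemma SumOfShort.sumOfSmall {k A : Type u} [Field k] [Ring A] [Algebra k A] [Module.Finite k A]
    {c : ℕ} {M : Type u} [AddCommGroup M] [Module k M] [Module A M] [IsScalarTower k A M]
    (h : SumOfShort A c M) : SumOfSmall k A (Module.finrank k A * c) M := by
  obtain ⟨t, S, hS, hc⟩ := h
  exact ⟨t, S, hS, fun i => (finrank_le_of_length (k := k) c (S i) (hc i)).2⟩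

/-- Growth, for a module of finite projective dimension. -/
theorem growth_module (n d : ℕ) : ∃ m : ℕ, ∀ (k A B : Type u) [Field k] [Ring A] [Algebra k A]
    [Ring B] [Algebra k B] [Module.Finite k A] [Module.Finite k B] (_θ : A ≃ₐ[k] Bᵐᵒᵖ),
    Module.finrank k B = n →
    (∃ p, HasInjectiveDimensionLT (ModuleCat.of A A) p) →
    ∀ (M : Type u) [AddCommGroup M] [Module k M] [Module B M] [IsScalarTower k B M],
      (∃ p, HasProjectiveDimensionLT (ModuleCat.of B M) p) →
      ∀ (R : InjRes k B M) (i : ℕ), m ≤ i →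
        (SumOfSmall k B d (R.X i) ∨ Module.finrank k (R.J i) ≤ d) →
        ∃ p, HasInjectiveDimensionLT (ModuleCat.of B M) p := by
  obtain ⟨m, hm⟩ := growth.{u} n d
  refine ⟨m, ?_⟩
  intro k A B _ _ _ _ _ _ _ θ hB hA M _ _ _ _ hM R i hi h
  have hp : ∃ p, HasProjectiveDimensionLT (ModuleCat.of B (R.X 0)) p := by
    obtain ⟨p, hp⟩ := hM
    exact ⟨p, pd_of_equiv R.e.symm p hp⟩
  have key : ∀ i, m ≤ i → SumOfSmall k B d (R.X i) →
      ∃ p, HasInjectiveDimensionLT (ModuleCat.of B M) p := by
    intro i hi hs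
    exact ⟨i, id_of_equiv R.e i (hm k A B θ hB hA R.X R.J R.f R.g R.inj R.exact R.surj
      R.injective hp i hi hs)⟩
  rcases h with h | h
  · exact key i hi h
  · have hfin : Module.Finite k (R.X (i + 1)) := finite_X R (i + 1)
    refine key (i + 1) (by omega) (sumOfSmall_of_finrank_le (le_trans ?_ h))
    exact LinearMap.finrank_le_finrank_of_surjective (f := (R.g i).restrictScalars k) (R.surj i)

end Pool.Agent.GSC
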