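import Pool.Agent.Lib_helper30.GSC.Dual

set_option autoImplicit false

/-! From an injective resolution in the sense of Mathlib to `InjRes`. -/

namespace Pool.Agent.GSC

open CategoryTheory

universe u

section

variable {k B : Type u} [Field k] [Ring B] [Algebra k B] {M : Type u} [AddCommGroup M]
  [Module k M] [Module B M] [IsScalarTower k B M]
  {J : ℕ → Type u} [∀ i, AddCommGroup (J i)] [∀ i, Module k (J i)] [∀ i, Module B (J i)]
  [∀ i, IsScalarTower k B (J i)] {D0 : M →ₗ[B] J 0} {D : ∀ i, J i →ₗ[B] J (i + 1)}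

/-- a coresolution from an exact sequence -/
noncomputable def mkInjRes (hfin : ∀ i, Module.Finite k (J i))
    (hinj : ∀ i, Module.Injective B (J i)) (hs : Function.Injective D0)
    (ex0 : Function.Exact D0 (D 0)) (ex : ∀ i, Function.Exact (D i) (D (i + 1))) :
    InjRes k B M where
  X i := LinearMap.ker (D i)
  J := J
  instF := hfin
  f i := (LinearMap.ker (D i)).subtype
  g i := LinearMap.codRestrict (LinearMap.ker (D (i + 1))) (D i)
    (fun x => (ex i (D i x)).mpr ⟨x, rfl⟩)
  inj i := (LinearMap.ker (D i)).injective_subtype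
  exact i x := by
    constructor
    · intro h
      exact ⟨⟨x, congrArg Subtype.val h⟩, rfl⟩
    · rintro ⟨y, rfl⟩
      exact Subtype.ext y.2
  surj i := by
    rintro ⟨x, hx⟩
    obtain ⟨y, hy⟩ := (ex i x).mp hx
    exact ⟨y, Subtype.ext hy⟩
  injective := hinj
  e := ((LinearEquiv.ofInjective D0 hs).trans
    (LinearEquiv.ofEq _ _ (LinearMap.exact_iff.mp ex0).symm)).symm

end

/-- the bridge: an injective resolution by finitely generated modules, in the sense of
Mathlib. -/
theorem exists_injRes_of {k B : Type u} [Field k] [Ring B] [Algebra k B] [Module.Finite k B]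
    {M : Type u} [AddCommGroup M] [Module k M] [Module B M] [IsScalarTower k B M]
    (I : InjectiveResolution (ModuleCat.of B M)) (hI : ∀ i, Module.Finite B (I.cocomplex.X i)) :
    ∃ R : InjRes k B M, ∀ i, Nonempty (R.J i ≃ₗ[B] I.cocomplex.X i) ∧
      Nonempty (R.X i ≃ₗ[B] LinearMap.ker (I.cocomplex.d i (i + 1)).hom) := by
  let _ : ∀ i, Module k (I.cocomplex.X i) := fun i => Module.compHom _ (algebraMap k B)
  have _ : ∀ i, IsScalarTower k B (I.cocomplex.X i) := fun i =>
    IsScalarTower.of_algebraMap_smul fun _ _ => rfl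
  let D0 : M →ₗ[B] I.cocomplex.X 0 := (I.ι.f 0).hom
  let D : ∀ i, I.cocomplex.X i →ₗ[B] I.cocomplex.X (i + 1) :=
    fun i => (I.cocomplex.d i (i + 1)).hom
  have hs : Function.Injective D0 := (ModuleCat.mono_iff_injective (I.ι.f 0)).1 inferInstance
  have ex0 : Function.Exact D0 (D 0) :=
    (ShortComplex.ShortExact.moduleCat_exact_iff_function_exact _).1
      (ShortComplex.exact_of_f_is_kernel
        (ShortComplex.mk (I.ι.f 0) (I.cocomplex.d 0 1) I.ι_f_zero_comp_complex_d)
        I.isLimitKernelFork)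
  have ex : ∀ i, Function.Exact (D i) (D (i + 1)) := fun i =>
    (ShortComplex.ShortExact.moduleCat_exact_iff_function_exact _).1 (I.exact_succ i)
  have hfin : ∀ i, Module.Finite k (I.cocomplex.X i) := fun i =>
    Module.Finite.trans B (I.cocomplex.X i)
  have hinj : ∀ i, Module.Injective B (I.cocomplex.X i) := fun i =>
    (Module.injective_iff_injective_object B (I.cocomplex.X i)).2 (I.injective i)
  exact ⟨mkInjRes (k := k) (J := fun i => (I.cocomplex.X i : Type u)) (D0 := D0) (D := D) hfin
    hinj hs ex0 ex, fun i => ⟨⟨LinearEquiv.refl B _⟩, ⟨LinearEquiv.refl B _⟩⟩⟩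

end Pool.Agent.GSC
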