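import Pool.Agent.Lib_helper30.GSC.Bass
import Pool.Agent.Lib_helper30.GSC.BridgeInj

set_option autoImplicit false
set_option linter.unusedSectionVars false

/-!
# Growth with the injective resolutions of Mathlib
-/

namespace Pool.Agent.GSC

open CategoryTheory MulOpposite Pool.Agent.Lib_helper54.GSC

universe u

lemma projDim_ne_top {C : Type*} [Category C] [Abelian C] (X : C)
    (h : projectiveDimension X ≠ ⊤) : ∃ p, HasProjectiveDimensionLT X p := by
  obtain ⟨n, hn⟩ := (projectiveDimension_ne_top_iff X).mp h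
  exact ⟨n + 1, hn⟩

/-- Growth of the injective resolutions. -/
theorem bass_final (n c : ℕ) : ∃ m : ℕ, ∀ (k A : Type u) [Field k] [Ring A]
    [Algebra k A] [Module.Finite k A], Module.finrank k A = n →
    injectiveDimension (ModuleCat.of Aᵐᵒᵖ A) ≠ ⊤ →
    ∀ (M : Type u) [AddCommGroup M] [Module A M] [Module.Finite A M],
      projectiveDimension (ModuleCat.of A M) ≠ ⊤ →
    ∀ (I : InjectiveResolution (ModuleCat.of A M)),
      (∀ i, Module.Finite A (I.cocomplex.X i)) → ∀ i : ℕ, m ≤ i →
      (Module.length A (I.cocomplex.X i) ≤ c ∨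
        SumOfShort A c (LinearMap.ker (I.cocomplex.d i (i + 1)).hom)) →
      injectiveDimension (ModuleCat.of A M) ≠ ⊤ := by
  obtain ⟨m, hm⟩ := growth_module.{u} n (n * c)
  refine ⟨m, ?_⟩
  intro k A _ _ _ _ hA hR M _ _ _ hM I hI i hi h
  let _ : Module k M := Module.compHom M (algebraMap k A)
  have _ : IsScalarTower k A M := IsScalarTower.of_algebraMap_smul fun _ _ => rfl
  obtain ⟨R, hRI⟩ := exists_injRes_of (k := k) I hI
  obtain ⟨⟨e1⟩, ⟨e2⟩⟩ := hRI i
  have hR' : ∃ p, HasInjectiveDimensionLT (ModuleCat.of Aᵐᵒᵖ Aᵐᵒᵖ) p := by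
    rw [← right_fin_iff]
    by_contra h'
    exact hR ((injDim_eq_top_iff _).mpr h')
  have hop : Module.Finite k Aᵐᵒᵖ := Module.Finite.equiv (MulOpposite.opLinearEquiv k (M := A))
  have h3 := hm k Aᵐᵒᵖ A AlgEquiv.refl hA hR' M (projDim_ne_top _ hM) R i hi (by
    rcases h with h | h
    · right
      have h4 : Module.length A (R.J i) ≤ c := by
        rw [e1.length_eq]
        exact h
      rw [← hA]
      exact (finrank_le_of_length (k := k) c (R.J i) h4).2
    · left
      have h4 := (h.of_equiv e2).sumOfSmall (k := k)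
      rw [hA] at h4
      exact h4)
  intro h5
  exact (injDim_eq_top_iff _).mp h5 h3

end Pool.Agent.GSC
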