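import Pool.Agent.Lib_helper30.GSC.Mod

set_option autoImplicit false
set_option linter.unusedSectionVars false

/-!
# The injective dimension of a module in coordinates
-/

namespace Pool.Agent.GSC

open Matrix Module CategoryTheory

universe u

section

variable {k : Type u} [Field k] {A : Type u} [Ring A] [Algebra k A] {d : ℕ}
  (b : Basis (Option (Fin d)) k A)

/-- The structure constants `c`. -/
noncomputable def cst (i j l : Fin d) : k := b.repr (b (some i) * b (some j)) (some l)

/-- The structure constants `e`. -/
noncomputable def est (i j : Fin d) : k := b.repr (b (some i) * b (some j)) none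

variable {M : Type u} [AddCommGroup M] [Module k M] [Module A M] [IsScalarTower k A M]
  {m : Type} [Fintype m] [DecidableEq m] (v : Basis m k M)

/-- The matrices of the representation. -/
noncomputable def rst (l : Fin d) : Matrix m m k :=
  Matrix.of fun i j => v.repr (b (some l) • v j) i

lemma repr_smul (l : Fin d) (w : M) (a : m) :
    v.repr (b (some l) • w) a = ∑ c, rst b v l a c * v.repr w c := by
  conv_lhs => rw [← v.sum_repr w]
  rw [Finset.smul_sum, map_sum, Finsupp.finsetSum_apply]
  refine Finset.sum_congr rfl fun c _ => ?_
  rw [smul_comm, map_smul, Finsupp.smul_apply, smul_eq_mul, mul_comm]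
  rfl

variable {b} (hb : b none = 1)

include hb

/-- Coordinates on the cosyzygy. -/
noncomputable def cosyzEquiv : Cosyz k A M ≃ₗ[k] (Fin d × m → k) where
  toFun f := fun p => v.repr (f.fn (b (some p.1))) p.2
  map_add' f g := by
    funext p
    simp
  map_smul' t f := by
    funext p
    simp
  invFun φ := Cosyz.mk (b.constr k (fun o => o.elim 0 fun i => ∑ a, φ (i, a) • v a)) (by
    rw [← hb, Basis.constr_basis]
    rfl)
  left_inv f := by
    have : (b.constr k (fun o => o.elim 0 fun i => ∑ a, v.repr (f.fn (b (some i))) a • v a)) =
        f.fn := by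
      refine b.ext fun o => ?_
      rw [Basis.constr_basis]
      rcases o with _ | i
      · rw [hb, Cosyz.fn_one]
        rfl
      · exact v.sum_repr _
    exact Cosyz.ext' fun x => LinearMap.congr_fun this x
  right_inv φ := by
    funext p
    obtain ⟨i, a⟩ := p
    simp only [Cosyz.fn_mk, Basis.constr_basis, Option.elim_some, map_sum, map_smul,
      Basis.repr_self, Finsupp.finsetSum_apply, Finsupp.smul_apply, Finsupp.single_apply,
      smul_eq_mul, mul_ite, mul_one, mul_zero, Finset.sum_ite_eq', Finset.mem_univ, if_true]

/-- The basis of the cosyzygy. -/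
noncomputable def cosyzBasis : Basis (Fin d × m) k (Cosyz k A M) :=
  Basis.ofEquivFun (cosyzEquiv v hb)

lemma cosyzBasis_repr (f : Cosyz k A M) (i : Fin d) (a : m) :
    (cosyzBasis v hb).repr f (i, a) = v.repr (f.fn (b (some i))) a := by
  simp only [cosyzBasis, Basis.ofEquivFun_repr_apply]
  rfl

lemma cosyzBasis_fn (p : Fin d × m) (i : Fin d) :
    (cosyzBasis v hb p).fn (b (some i)) = if i = p.1 then v p.2 else 0 := by
  apply v.repr.injective
  ext a
  rw [← cosyzBasis_repr v hb, Basis.repr_self, Finsupp.single_apply]
  obtain ⟨j, c⟩ := p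
  by_cases h1 : i = j
  · simp [h1, Finsupp.single_apply]
  · have h2 : ¬ j = i := fun h => h1 h.symm
    simp [h1, h2]

lemma cosyzBasis_fn' (p : Fin d × m) (x : A) :
    (cosyzBasis v hb p).fn x = b.repr x (some p.1) • v p.2 := by
  conv_lhs => rw [← b.sum_repr x]
  rw [map_sum, Fintype.sum_option, map_smul, hb, Cosyz.fn_one, smul_zero, zero_add]
  have : ∀ i, (cosyzBasis v hb p).fn (b.repr x (some i) • b (some i)) =
      if i = p.1 then b.repr x (some i) • v p.2 else 0 := by
    intro i
    rw [map_smul, cosyzBasis_fn]
    split_ifs <;> simp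
  simp only [this, Finset.sum_ite_eq', Finset.mem_univ, if_true]

lemma rst_cosyz (l : Fin d) : rst b (cosyzBasis v hb) l = co (cst b) (rst b v) l := by
  ext ⟨i, a⟩ ⟨j, c⟩
  rw [co_apply]
  change (cosyzBasis v hb).repr (b (some l) • cosyzBasis v hb (j, c)) (i, a) = _
  rw [cosyzBasis_repr, Cosyz.fn_smul, map_sub, Finsupp.sub_apply, cosyzBasis_fn', cosyzBasis_fn]
  congr 1
  · rw [map_smul, Finsupp.smul_apply, Basis.repr_self, Finsupp.single_apply, smul_eq_mul]
    simp only [cst, eq_comm]
  · by_cases h : l = j
    · simp [h, rst]
    · have : ¬ j = l := fun h' => h h'.symm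
      simp [h, this]

lemma repr_hom (h : Cosyz k A M →ₗ[k] M) (f : Cosyz k A M) (a : m) :
    v.repr (h f) a = ∑ i, ∑ c, v.repr (h (cosyzBasis v hb (i, c))) a *
      (cosyzBasis v hb).repr f (i, c) := by
  conv_lhs => rw [← (cosyzBasis v hb).sum_repr f]
  rw [map_sum, map_sum, Finsupp.finsetSum_apply, Fintype.sum_prod_type]
  refine Finset.sum_congr rfl fun i _ => Finset.sum_congr rfl fun c _ => ?_
  rw [map_smul, map_smul, Finsupp.smul_apply, smul_eq_mul, mul_comm]

lemma crit_coord (h : Cosyz k A M →ₗ[k] M) (H : Fin d → Matrix m m k)
    (hH : ∀ i a c, v.repr (h (cosyzBasis v hb (i, c))) a = H i a c) :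
    (∀ (a : A) (f : Cosyz k A M), a • h f - h (a • f) = f.fn a) ↔
      ∀ l j, rst b v l * H j - ∑ i, cst b i l j • H i +
        (if j = l then ∑ i, H i * rst b v i else 0) = if j = l then 1 else 0 := by
  have key : ∀ l j a c, v.repr (b (some l) • h (cosyzBasis v hb (j, c)) -
      h (b (some l) • cosyzBasis v hb (j, c))) a =
        (rst b v l * H j - ∑ i, cst b i l j • H i +
        (if j = l then ∑ i, H i * rst b v i else 0) : Matrix m m k) a c := by
    intro l j a c
    rw [map_sub, Finsupp.sub_apply, repr_smul b v, repr_hom v hb, Matrix.add_apply,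
      Matrix.sub_apply, Matrix.mul_apply]
    simp only [hH]
    have h1 : ∀ i x, (cosyzBasis v hb).repr (b (some l) • cosyzBasis v hb (j, c)) (i, x) =
        cst b i l j * (if x = c then 1 else 0) - if j = l then rst b v i x c else 0 := by
      intro i x
      have := congrFun (congrFun (rst_cosyz v hb l) (i, x)) (j, c)
      rw [co_apply] at this
      exact this
    simp only [h1, mul_sub, Finset.sum_sub_distrib, Matrix.sum_apply, Matrix.smul_apply,
      smul_eq_mul, mul_ite, mul_one, mul_zero, Finset.sum_ite_eq', Finset.mem_univ, if_true]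
    have h2 : ∀ i, H i a c * cst b i l j = cst b i l j * H i a c := fun i => mul_comm _ _
    simp only [h2]
    split_ifs
    · simp only [Matrix.sum_apply, Matrix.mul_apply]
      abel
    · simp
  constructor
  · intro hh l j
    ext a c
    rw [← key, hh, cosyzBasis_fn]
    by_cases h1 : j = l
    · simp only [h1, if_true, Basis.repr_self, Finsupp.single_apply, Matrix.one_apply, eq_comm]
    · have h2 : ¬ l = j := fun h' => h1 h'.symm
      simp [h1, h2]
  · intro hh
    have hl : ∀ (l : Fin d) (f : Cosyz k A M), b (some l) • h f - h (b (some l) • f) =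
        f.fn (b (some l)) := by
      intro l
      let L1 : Cosyz k A M →ₗ[k] M :=
        { toFun := fun f => b (some l) • h f - h (b (some l) • f)
          map_add' := fun f g => by
            simp only [map_add, smul_add]
            abel
          map_smul' := fun t f => by
            simp only [map_smul, RingHom.id_apply, smul_sub]
            rw [smul_comm, smul_comm (b (some l)) t f, map_smul] }
      let L2 : Cosyz k A M →ₗ[k] M :=
        { toFun := fun f => f.fn (b (some l))
          map_add' := fun f g => rfl
          map_smul' := fun t f => rfl }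
      have : L1 = L2 := by
        refine (cosyzBasis v hb).ext fun p => ?_
        obtain ⟨j, c⟩ := p
        apply v.repr.injective
        ext a
        change v.repr (b (some l) • h (cosyzBasis v hb (j, c)) -
          h (b (some l) • cosyzBasis v hb (j, c))) a =
            v.repr ((cosyzBasis v hb (j, c)).fn (b (some l))) a
        rw [key, hh, cosyzBasis_fn]
        by_cases h1 : j = l
        · simp only [h1, if_true, Basis.repr_self, Finsupp.single_apply, Matrix.one_apply,
            eq_comm]
        · have h2 : ¬ l = j := fun h' => h1 h'.symm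
          simp [h1, h2]
      exact fun f => LinearMap.congr_fun this f
    intro a f
    let L1 : A →ₗ[k] M :=
      { toFun := fun a => a • h f - h (a • f)
        map_add' := fun a a' => by
          simp only [add_smul, map_add]
          abel
        map_smul' := fun t a => by
          simp only [smul_assoc, map_smul, RingHom.id_apply, smul_sub] }
    have : L1 = f.fn := by
      refine b.ext fun o => ?_
      rcases o with _ | l
      · change b none • h f - h (b none • f) = f.fn (b none)
        rw [hb, one_smul, one_smul, sub_self, Cosyz.fn_one]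
      · exact hl l f
    exact LinearMap.congr_fun this a

lemma inj_coord : HasInjectiveDimensionLT (ModuleCat.of A M) 1 ↔
    InjLE (cst b) 0 m (rst b v) := by
  rw [inj_criterion (k := k)]
  constructor
  · rintro ⟨h, hh⟩
    exact ⟨fun i => Matrix.of fun a c => v.repr (h (cosyzBasis v hb (i, c))) a,
      (crit_coord v hb h _ fun _ _ _ => rfl).mp hh⟩
  · rintro ⟨H, hH⟩
    refine ⟨(cosyzBasis v hb).constr k fun p => ∑ a, H p.1 a p.2 • v a,
      (crit_coord v hb _ H fun i a c => ?_).mpr hH⟩
    rw [Basis.constr_basis]
    simp only [map_sum, map_smul, Basis.repr_self, Finsupp.finsetSum_apply, Finsupp.smul_apply,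
      Finsupp.single_apply, smul_eq_mul, mul_ite, mul_one, mul_zero, Finset.sum_ite_eq',
      Finset.mem_univ, if_true]

end

/-- **Bridge**: the injective dimension in coordinates. -/
theorem injLE_iff {k : Type u} [Field k] {A : Type u} [Ring A] [Algebra k A] {d : ℕ}
    {b : Basis (Option (Fin d)) k A} (hb : b none = 1) : ∀ (n : ℕ) (m : Type) [Fintype m]
    [DecidableEq m] (M : Type u) [AddCommGroup M] [Module k M] [Module A M] [IsScalarTower k A M]
    (v : Basis m k M), HasInjectiveDimensionLT (ModuleCat.of A M) (n + 1) ↔
      InjLE (cst b) n m (rst b v)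
  | 0, m, _, _, M, _, _, _, _, v => inj_coord v hb
  | n + 1, m, _, _, M, _, _, _, _, v => by
      rw [id_step (k := k) n, injLE_iff hb n (Fin d × m) (Cosyz k A M) (cosyzBasis v hb)]
      have : rst b (cosyzBasis v hb) = co (cst b) (rst b v) := funext fun l => rst_cosyz v hb l
      rw [this]
      rfl

section

variable {k : Type u} [Field k] {A : Type u} [Ring A] [Algebra k A] {d : ℕ}
  {b : Basis (Option (Fin d)) k A} (hb : b none = 1)

include hb

lemma mul_eq (i j : Fin d) : b (some i) * b (some j) =
    algebraMap k A (est b i j) + ∑ l, cst b i j l • b (some l) := by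
  conv_lhs => rw [← b.sum_repr (b (some i) * b (some j))]
  rw [Fintype.sum_option, hb, Algebra.algebraMap_eq_smul_one]
  rfl

lemma isRep_rst {M : Type u} [AddCommGroup M] [Module k M] [Module A M] [IsScalarTower k A M]
    {m : Type} [Fintype m] [DecidableEq m] (v : Basis m k M) :
    IsRep (est b) (cst b) (rst b v) := by
  intro i j
  ext a c
  rw [Matrix.mul_apply]
  have h1 : v.repr (b (some i) • (b (some j) • v c)) a = ∑ x, rst b v i a x * rst b v j x c :=
    repr_smul b v i (b (some j) • v c) a
  rw [← h1, ← mul_smul, mul_eq hb, add_smul, Finset.sum_smul, map_add, map_sum,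
    Finsupp.add_apply, Finsupp.finsetSum_apply, Matrix.add_apply, Matrix.sum_apply]
  congr 1
  · rw [algebraMap_smul, map_smul, Finsupp.smul_apply, Basis.repr_self, Finsupp.single_apply,
      Matrix.smul_apply, Matrix.one_apply]
    simp only [eq_comm]
  · refine Finset.sum_congr rfl fun l _ => ?_
    rw [smul_assoc, map_smul, Finsupp.smul_apply, Matrix.smul_apply]
    rfl

lemma isAlg_cst : IsAlg (est b) (cst b) := by
  have h1 : ∀ i j l, b (some i) * b (some j) * b (some l) =
      est b i j • b (some l) + ∑ t, cst b i j t • (b (some t) * b (some l)) := by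
    intro i j l
    rw [mul_eq hb i j, add_mul, Finset.sum_mul, Algebra.algebraMap_eq_smul_one]
    simp only [smul_mul_assoc, one_mul]
  have h2 : ∀ i j l, b (some i) * (b (some j) * b (some l)) =
      est b j l • b (some i) + ∑ t, cst b j l t • (b (some i) * b (some t)) := by
    intro i j l
    rw [mul_eq hb j l, mul_add, Finset.mul_sum, Algebra.algebraMap_eq_smul_one]
    simp only [mul_smul_comm, mul_one]
  have h3 : ∀ i j l, est b i j • b (some l) + ∑ t, cst b i j t • (b (some t) * b (some l)) =
      est b j l • b (some i) + ∑ t, cst b j l t • (b (some i) * b (some t)) := fun i j l => by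
    rw [← h1, ← h2, mul_assoc]
  constructor
  · intro i j l
    have := congrArg (fun x => b.repr x none) (h3 i j l)
    simp only [map_add, map_sum, map_smul, Finsupp.add_apply, Finsupp.finsetSum_apply,
      Finsupp.smul_apply, Basis.repr_self, Finsupp.single_apply, smul_eq_mul, reduceCtorEq,
      if_false, mul_zero, zero_add] at this
    exact this
  · intro i j l t
    have := congrArg (fun x => b.repr x (some t)) (h3 i j l)
    simp only [map_add, map_sum, map_smul, Finsupp.add_apply, Finsupp.finsetSum_apply,
      Finsupp.smul_apply, Basis.repr_self, Finsupp.single_apply, smul_eq_mul,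
      Option.some.injEq] at this
    have e1 : ∀ x y : Fin d, (if x = y then (1 : k) else 0) = if y = x then 1 else 0 := by
      intro x y
      simp only [eq_comm]
    rw [e1 t l, e1 t i]
    exact this

end

end Pool.Agent.GSC
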