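import Pool.Agent.Lib_helper30.GSC.Dual
import Pool.Agent.Lib_helper21.GSC.H1
import Pool.Agent.Lib_helper54.GSC.B7c

set_option autoImplicit false
set_option linter.unusedSectionVars false

/-!
# Q1 for the algebras whose Betti numbers do not tend to infinity
-/

namespace Pool.Agent.GSC

open CategoryTheory MulOpposite Pool.Agent.Lib_helper54.GSC

universe u

/-- The statement H6. -/
def H6Stmt : Prop :=
  ∀ (k B : Type u) [Field k] [Ring B] [Algebra k B] [Module.Finite k B]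
    (M : Type u) [AddCommGroup M] [Module k M] [Module B M] [IsScalarTower k B M]
    [Module.Finite k M] (R : InjRes k B M),
    (∀ i, ∀ S : Submodule B (R.J i), S ≠ ⊥ → S ⊓ LinearMap.range (R.f i) ≠ ⊥) →
    ∀ (Q : ProjRes k B (B ⧸ Ring.jacobson B)) (i : ℕ),
      Module.finrank k (R.J i) ≤
        Module.finrank k B * Module.finrank k (Q.K i) * Module.finrank k M

/-- H2 in the bundled form. -/
theorem exists_injRes (k B : Type u) [Field k] [Ring B] [Algebra k B] [Module.Finite k B]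
    (M : Type u) [AddCommGroup M] [Module k M] [Module B M] [IsScalarTower k B M]
    [Module.Finite k M] : ∃ R : InjRes k B M,
      ∀ i, ∀ S : Submodule B (R.J i), S ≠ ⊥ → S ⊓ LinearMap.range (R.f i) ≠ ⊥ := by
  obtain ⟨X, J, i1, i2, i3, i4, i5, i6, i7, i8, i9, f, g, hf, hex, hg, hJ, hess, ⟨e⟩⟩ :=
    Pool.Agent.Lib_helper21.GSC.exists_coresolution k B M
  exact ⟨{ X := X, J := J, f := f, g := g, inj := hf, exact := hex, surj := hg, injective := hJ,
           e := e }, hess⟩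

/-- The growth theorem in the bundled form. -/
theorem growth_bundled (n d : ℕ) : ∃ m : ℕ, ∀ (k A B : Type u) [Field k] [Ring A] [Algebra k A]
    [Ring B] [Algebra k B] [Module.Finite k A] [Module.Finite k B] (_θ : A ≃ₐ[k] Bᵐᵒᵖ),
    Module.finrank k B = n →
    (∃ p, HasInjectiveDimensionLT (ModuleCat.of A A) p) →
    (¬ ∃ p, HasInjectiveDimensionLT (ModuleCat.of B B) p) →
    ∀ (R : InjRes k B B) (i : ℕ), m ≤ i →
      ¬ SumOfSmall k B d (R.X i) ∧ d < Module.finrank k (R.J i) := by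
  obtain ⟨m, hm⟩ := growth_regular.{u} n d
  refine ⟨m, ?_⟩
  intro k A B _ _ _ _ _ _ _ θ hB hA hBinf R i hi
  exact hm k A B θ hB hA hBinf R.X R.J R.f R.g R.inj R.exact R.surj R.injective ⟨R.e⟩ i hi

/-- One direction. -/
theorem betti_one (H6 : H6Stmt.{u}) (n c : ℕ) : ∃ m : ℕ, ∀ (k A B : Type u) [Field k] [Ring A]
    [Algebra k A] [Ring B] [Algebra k B] [Module.Finite k A] [Module.Finite k B]
    (_θ : A ≃ₐ[k] Bᵐᵒᵖ), Module.finrank k B = n →
    (∃ p, HasInjectiveDimensionLT (ModuleCat.of A A) p) →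
    ∀ (Q : ProjRes k B (B ⧸ Ring.jacobson B)) (i : ℕ), m ≤ i → Module.finrank k (Q.P i) ≤ c →
      ∃ p, HasInjectiveDimensionLT (ModuleCat.of B B) p := by
  obtain ⟨m, hm⟩ := growth_bundled.{u} n (n * c * n)
  refine ⟨m, ?_⟩
  intro k A B _ _ _ _ _ _ _ θ hB hA Q i hi hc
  by_contra hinf
  obtain ⟨R, hR⟩ := exists_injRes k B B
  have h1 := (hm k A B θ hB hA hinf R i hi).2
  have h2 := H6 k B B R hR Q i
  have h3 : Module.finrank k (Q.K i) ≤ c :=
    (LinearMap.finrank_le_finrank_of_surjective (f := (Q.b i).restrictScalars k)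
      (Q.surj i)).trans hc
  rw [hB] at h2
  have h4 : n * Module.finrank k (Q.K i) * n ≤ n * c * n :=
    Nat.mul_le_mul_right n (Nat.mul_le_mul_left n h3)
  omega

/-- `A` as a module over the opposite ring, in two ways. -/
def opSelf (A : Type u) [Ring A] : A ≃ₗ[Aᵐᵒᵖ] Aᵐᵒᵖ where
  toFun := op
  invFun := unop
  left_inv _ := rfl
  right_inv _ := rfl
  map_add' _ _ := rfl
  map_smul' _ _ := rfl

theorem right_fin_iff (A : Type u) [Ring A] :
    (∃ p, HasInjectiveDimensionLT (ModuleCat.of Aᵐᵒᵖ A) p) ↔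
      ∃ p, HasInjectiveDimensionLT (ModuleCat.of Aᵐᵒᵖ Aᵐᵒᵖ) p :=
  ⟨fun ⟨p, hp⟩ => ⟨p, id_of_equiv (opSelf A) p hp⟩,
    fun ⟨p, hp⟩ => ⟨p, id_of_equiv (opSelf A).symm p hp⟩⟩

/-- Both directions. -/
theorem betti_both (H6 : H6Stmt.{u}) (n c : ℕ) : ∃ m : ℕ, ∀ (k A : Type u) [Field k] [Ring A]
    [Algebra k A] [Module.Finite k A], Module.finrank k A = n →
    ∀ (Q : ProjRes k A (A ⧸ Ring.jacobson A)) (i : ℕ), m ≤ i → Module.finrank k (Q.P i) ≤ c →
      ((∃ p, HasInjectiveDimensionLT (ModuleCat.of A A) p) ↔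
        ∃ p, HasInjectiveDimensionLT (ModuleCat.of Aᵐᵒᵖ A) p) := by
  obtain ⟨m1, hm1⟩ := betti_one.{u} H6 n c
  obtain ⟨m2, hm2⟩ := betti_one.{u} H6 n (n * c * n)
  refine ⟨max m1 m2, ?_⟩
  intro k A _ _ _ _ hA Q i hi hc
  have hop : Module.finrank k Aᵐᵒᵖ = n := by
    rw [← hA]
    exact (MulOpposite.opLinearEquiv k (M := A)).symm.finrank_eq
  have hfop : Module.Finite k Aᵐᵒᵖ := Module.Finite.equiv (MulOpposite.opLinearEquiv k (M := A))
  rw [right_fin_iff]
  constructor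
  · intro h
    -- the resolution on the other side
    let M := Aᵐᵒᵖ ⧸ Ring.jacobson Aᵐᵒᵖ
    let θ : Aᵐᵒᵖ ≃ₐ[k] Aᵐᵒᵖ := AlgEquiv.refl
    obtain ⟨R, hR⟩ := exists_injRes k A (D (flat θ) M)
    have h2 := H6 k A (D (flat θ) M) R hR Q i
    have h3 : Module.finrank k (Q.K i) ≤ c :=
      (LinearMap.finrank_le_finrank_of_surjective (f := (Q.b i).restrictScalars k)
        (Q.surj i)).trans hc
    have h4 : Module.finrank k (D (flat θ) M) ≤ n := by
      rw [finrank_D (flat θ) M, ← hop]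
      exact LinearMap.finrank_le_finrank_of_surjective
        (f := ((Ring.jacobson Aᵐᵒᵖ).mkQ).restrictScalars k) (Submodule.mkQ_surjective _)
    rw [hA] at h2
    refine hm2 k A Aᵐᵒᵖ (AlgEquiv.opOp k A) hop h (R.dual θ) i (le_trans (le_max_right _ _) hi) ?_
    rw [InjRes.finrank_dual]
    exact h2.trans (Nat.mul_le_mul (Nat.mul_le_mul_left n h3) h4)
  · intro h
    exact hm1 k Aᵐᵒᵖ A AlgEquiv.refl hA h Q i (le_trans (le_max_left _ _) hi) hc

end Pool.Agent.GSC
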