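import Pool.Agent.Lib_helper54.GSC.B6c

set_option autoImplicit false
set_option linter.unusedSectionVars false

/-!
# Dualising a coresolution by injective modules
-/

namespace Pool.Agent.GSC

open CategoryTheory MulOpposite Pool.Agent.Lib_helper54.GSC

universe u

/-- A resolution of `M` by finite-dimensional projective modules, cut into short exact sequences
`0 → K (i+1) → P i → K i → 0` with `K 0 ≃ M`. -/
structure ProjRes (k B : Type u) [Field k] [Ring B] [Algebra k B] (M : Type u) [AddCommGroup M]
    [Module B M] where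
  /-- the syzygies -/
  K : ℕ → Type u
  /-- the projective modules -/
  P : ℕ → Type u
  [instK : ∀ i, AddCommGroup (K i)]
  [instP : ∀ i, AddCommGroup (P i)]
  [instKk : ∀ i, Module k (K i)]
  [instPk : ∀ i, Module k (P i)]
  [instKB : ∀ i, Module B (K i)]
  [instPB : ∀ i, Module B (P i)]
  [instKT : ∀ i, IsScalarTower k B (K i)]
  [instPT : ∀ i, IsScalarTower k B (P i)]
  [instF : ∀ i, Module.Finite k (P i)]
  /-- the inclusion of a syzygy -/
  a : ∀ i, K (i + 1) →ₗ[B] P i
  /-- the cover of a syzygy -/
  b : ∀ i, P i →ₗ[B] K i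
  inj : ∀ i, Function.Injective (a i)
  exact : ∀ i, Function.Exact (a i) (b i)
  surj : ∀ i, Function.Surjective (b i)
  proj : ∀ i, Module.Projective B (P i)
  /-- the resolved module -/
  e : K 0 ≃ₗ[B] M

attribute [instance] ProjRes.instK ProjRes.instP ProjRes.instKk ProjRes.instPk ProjRes.instKB
  ProjRes.instPB ProjRes.instKT ProjRes.instPT ProjRes.instF

/-- A coresolution of `M` by finite-dimensional injective modules, cut into short exact sequences
`0 → X i → J i → X (i+1) → 0` with `X 0 ≃ M`. -/
structure InjRes (k B : Type u) [Field k] [Ring B] [Algebra k B] (M : Type u) [AddCommGroup M]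
    [Module B M] where
  /-- the cosyzygies -/
  X : ℕ → Type u
  /-- the injective modules -/
  J : ℕ → Type u
  [instX : ∀ i, AddCommGroup (X i)]
  [instJ : ∀ i, AddCommGroup (J i)]
  [instXk : ∀ i, Module k (X i)]
  [instJk : ∀ i, Module k (J i)]
  [instXB : ∀ i, Module B (X i)]
  [instJB : ∀ i, Module B (J i)]
  [instXT : ∀ i, IsScalarTower k B (X i)]
  [instJT : ∀ i, IsScalarTower k B (J i)]
  [instF : ∀ i, Module.Finite k (J i)]
  /-- the embedding of a cosyzygy -/
  f : ∀ i, X i →ₗ[B] J i
  /-- the projection to the next cosyzygy -/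
  g : ∀ i, J i →ₗ[B] X (i + 1)
  inj : ∀ i, Function.Injective (f i)
  exact : ∀ i, Function.Exact (f i) (g i)
  surj : ∀ i, Function.Surjective (g i)
  injective : ∀ i, Module.Injective B (J i)
  /-- the resolved module -/
  e : X 0 ≃ₗ[B] M

attribute [instance] InjRes.instX InjRes.instJ InjRes.instXk InjRes.instJk InjRes.instXB
  InjRes.instJB InjRes.instXT InjRes.instJT InjRes.instF

section

variable {k : Type u} [Field k] {A B : Type u} [Ring A] [Algebra k A] [Ring B] [Algebra k B]
  (θ : A ≃ₐ[k] Bᵐᵒᵖ)

lemma flat_flat : flat (flat θ) = θ := by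
  ext a
  rfl

/-- The dual of a f.d. injective module is projective. -/
lemma projective_D_of_injective [Module.Finite k A] [Module.Finite k B] (J : Type u)
    [AddCommGroup J] [Module k J] [Module B J] [IsScalarTower k B J] [Module.Finite k J]
    (hJ : Module.Injective B J) : Module.Projective A (D θ J) := by
  have e : J ≃ₗ[B] D (flat θ) (D (flat (flat θ)) J) := doubleDual (flat θ) J
  rw [flat_flat] at e
  have h1 : HasInjectiveDimensionLT (ModuleCat.of B (D (flat θ) (D θ J))) (0 + 1) :=
    id_of_equiv e 1 (id_one_iff.mpr hJ)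
  have h2 := (pd_iff_id (flat θ) 0 (D θ J)).mpr h1
  rwa [zero_add, pd_one_iff] at h2

/-- The dual of an isomorphism. -/
noncomputable def Dequiv {N N' : Type u} [AddCommGroup N] [Module k N] [Module B N]
    [IsScalarTower k B N] [AddCommGroup N'] [Module k N'] [Module B N'] [IsScalarTower k B N']
    (e : N ≃ₗ[B] N') : D θ N ≃ₗ[A] D θ N' :=
  LinearEquiv.ofLinear (Dmap θ e.symm.toLinearMap) (Dmap θ e.toLinearMap)
    (LinearMap.ext fun f => D_ext fun n => by
      change f (e.toLinearMap (e.symm.toLinearMap n)) = f n
      simp)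
    (LinearMap.ext fun f => D_ext fun n => by
      change f (e.symm.toLinearMap (e.toLinearMap n)) = f n
      simp)

/-- Dualising a coresolution of the dual of `M` gives a resolution of `M`. -/
noncomputable def InjRes.dual [Module.Finite k A] [Module.Finite k B] {M : Type u}
    [AddCommGroup M] [Module k M] [Module A M] [IsScalarTower k A M] [Module.Finite k M]
    (R : InjRes k B (D (flat θ) M)) : ProjRes k A M where
  K i := D θ (R.X i)
  P i := D θ (R.J i)
  a i := Dmap θ (R.g i)
  b i := Dmap θ (R.f i)
  inj i := Dmap_injective θ (R.surj i)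
  exact i := Dmap_exact θ (R.exact i)
  surj i := Dmap_surjective θ (R.inj i)
  proj i := projective_D_of_injective θ (R.J i) (R.injective i)
  e := (Dequiv θ R.e).trans (doubleDual θ M).symm

lemma InjRes.finrank_dual [Module.Finite k A] [Module.Finite k B] {M : Type u}
    [AddCommGroup M] [Module k M] [Module A M] [IsScalarTower k A M] [Module.Finite k M]
    (R : InjRes k B (D (flat θ) M)) (i : ℕ) :
    Module.finrank k ((R.dual θ).P i) = Module.finrank k (R.J i) :=
  finrank_D θ (R.J i)

end

end Pool.Agent.GSC
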