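import Mathlib

set_option autoImplicit false

/-!
# Primes that are invertible in a finitely generated domain
-/

namespace Pool.Agent.GSC

universe u

open TensorProduct

theorem unit_primes_aux {R : Type*} [CommRing R] [Algebra.FiniteType ℤ R] {L : Type*} [Field L]
    [CharZero L] [Algebra ℚ L] [Module.Finite ℚ L] (φ : R →+* L) :
    ∃ N : ℕ, N ≠ 0 ∧ ∀ p : ℕ, p.Prime → IsUnit (p : R) → p ∣ N := by
  classical
  have h1 : ∀ x : L, ∃ n : ℕ, n ≠ 0 ∧ IsIntegral ℤ ((n : L) * x) := by
    intro x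
    have hx : IsAlgebraic ℚ x := (Algebra.IsAlgebraic.of_finite ℚ L).isAlgebraic x
    have hx' : IsAlgebraic ℤ x := (IsFractionRing.isAlgebraic_iff ℤ ℚ _).mpr hx
    obtain ⟨y, hy, hy'⟩ := hx'.exists_integral_multiple
    refine ⟨y.natAbs, Int.natAbs_ne_zero.mpr hy, ?_⟩
    have h2 : ((y.natAbs : ℕ) : L) * x = y • x ∨ ((y.natAbs : ℕ) : L) * x = - (y • x) := by
      rcases Int.natAbs_eq y with h | h
      · left
        conv_rhs => rw [h]
        simp
      · right
        conv_rhs => rw [h]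
        simp
    rcases h2 with h | h
    · rw [h]
      exact hy'
    · rw [h]
      exact hy'.neg
  obtain ⟨s, hs⟩ := (inferInstance : Algebra.FiniteType ℤ R)
  choose f hf0 hf using h1
  refine ⟨∏ x ∈ s, f (φ x), Finset.prod_ne_zero_iff.mpr fun x _ => hf0 _, fun p hp hu => ?_⟩
  set N := ∏ x ∈ s, f (φ x) with hN
  have hNat : ∀ n : ℕ, IsIntegral ℤ ((n : ℕ) : L) := fun n => by
    have := isIntegral_algebraMap (R := ℤ) (A := L) (x := (n : ℤ))
    simpa using this
  have h2 : ∀ x : R, ∃ k : ℕ, IsIntegral ℤ (((N : ℕ) : L) ^ k * φ x) := by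
    intro x
    have hx : x ∈ Algebra.adjoin ℤ (s : Set R) := by
      rw [hs]
      trivial
    induction hx using Algebra.adjoin_induction with
    | mem x hx =>
      refine ⟨1, ?_⟩
      have : N = (∏ y ∈ s.erase x, f (φ y)) * f (φ x) := by
        rw [hN, Finset.prod_erase_mul _ _ hx]
      rw [pow_one, this, Nat.cast_mul, mul_assoc]
      exact (hNat _).mul (hf _)
    | algebraMap z =>
      refine ⟨0, ?_⟩
      rw [pow_zero, one_mul]
      have : φ (algebraMap ℤ R z) = algebraMap ℤ L z := by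
        rw [← RingHom.comp_apply]
        exact RingHom.congr_fun (RingHom.ext_int _ _) z
      rw [this]
      exact isIntegral_algebraMap
    | add x y _ _ hx hy =>
      obtain ⟨k, hk⟩ := hx
      obtain ⟨l, hl⟩ := hy
      refine ⟨k + l, ?_⟩
      have : ((N : ℕ) : L) ^ (k + l) * φ (x + y) =
          (N : L) ^ l * ((N : L) ^ k * φ x) + (N : L) ^ k * ((N : L) ^ l * φ y) := by
        rw [map_add]
        ring
      rw [this]
      exact (((hNat N).pow l).mul hk).add (((hNat N).pow k).mul hl)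
    | mul x y _ _ hx hy =>
      obtain ⟨k, hk⟩ := hx
      obtain ⟨l, hl⟩ := hy
      refine ⟨k + l, ?_⟩
      have : ((N : ℕ) : L) ^ (k + l) * φ (x * y) =
          ((N : L) ^ k * φ x) * ((N : L) ^ l * φ y) := by
        rw [map_mul]
        ring
      rw [this]
      exact hk.mul hl
  obtain ⟨v, hv⟩ := hu.exists_right_inv
  obtain ⟨k, hk⟩ := h2 v
  have hv' : φ v = ((p : ℕ) : L)⁻¹ := by
    have : φ ((p : R) * v) = 1 := by rw [hv, map_one]
    rw [map_mul, map_natCast] at this
    exact eq_inv_of_mul_eq_one_right this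
  have h3 : ((N : ℕ) : L) ^ k * φ v = algebraMap ℚ L ((N : ℚ) ^ k * (p : ℚ)⁻¹) := by
    rw [hv', map_mul, map_pow, map_inv₀, map_natCast, map_natCast]
  rw [h3] at hk
  have h4 : IsIntegral ℤ ((N : ℚ) ^ k * (p : ℚ)⁻¹) :=
    (isIntegral_algebraMap_iff (algebraMap ℚ L).injective).mp hk
  obtain ⟨z, hz⟩ := IsIntegrallyClosed.isIntegral_iff.mp h4
  have hpQ : (p : ℚ) ≠ 0 := by exact_mod_cast hp.ne_zero
  have h5 : (N : ℚ) ^ k = z * p := by
    rw [eq_intCast] at hz
    rw [hz]
    field_simp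
  have h6 : ((N ^ k : ℕ) : ℤ) = z * p := by exact_mod_cast h5
  have h7 : (p : ℤ) ∣ ((N ^ k : ℕ) : ℤ) := ⟨z, by rw [h6]; ring⟩
  exact hp.dvd_of_dvd_pow (Int.natCast_dvd_natCast.mp h7)

theorem exists_finite_quotient (S : Type u) [CommRing S] [Nontrivial S] [Algebra ℚ S]
    [Algebra.FiniteType ℚ S] : ∃ (L : Type u) (_ : Field L) (_ : Algebra ℚ L),
      Module.Finite ℚ L ∧ Nonempty (S →+* L) := by
  obtain ⟨m, hm⟩ := Ideal.exists_maximal S
  exact ⟨S ⧸ m, Ideal.Quotient.field m, Ideal.Quotient.algebra ℚ,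
    @finite_of_finite_type_of_isJacobsonRing ℚ (S ⧸ m) _ (Ideal.Quotient.field m)
      (Ideal.Quotient.algebra ℚ) _ _, ⟨Ideal.Quotient.mk m⟩⟩

/-- In a domain of characteristic `0` generated by finitely many elements, only finitely many
primes are invertible. -/
theorem unit_primes {R : Type u} [CommRing R] [IsDomain R] [CharZero R]
    (hR : (Int.castRingHom R).FiniteType) :
    ∃ N : ℕ, N ≠ 0 ∧ ∀ p : ℕ, p.Prime → IsUnit (p : R) → p ∣ N := by
  classical
  have hR' : (algebraMap ℤ R).FiniteType := hR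
  have : Algebra.FiniteType ℤ R := RingHom.finiteType_algebraMap.1 hR'
  have hnt : Nontrivial (ℚ ⊗[ℤ] R) := by
    have hch : CharZero (FractionRing R) :=
      charZero_of_injective_algebraMap (IsFractionRing.injective R (FractionRing R))
    let g1 : ℚ →ₐ[ℤ] FractionRing R :=
      { algebraMap ℚ (FractionRing R) with commutes' := fun r => by simp }
    let g2 : R →ₐ[ℤ] FractionRing R :=
      { algebraMap R (FractionRing R) with commutes' := fun r => by simp }
    let g : ℚ ⊗[ℤ] R →ₐ[ℤ] FractionRing R := Algebra.TensorProduct.lift g1 g2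
      (fun _ _ => mul_comm _ _)
    exact g.toRingHom.domain_nontrivial
  obtain ⟨L, _, _, hfin, ⟨ψ⟩⟩ := exists_finite_quotient (ℚ ⊗[ℤ] R)
  have hchL : CharZero L := charZero_of_injective_algebraMap (algebraMap ℚ L).injective
  exact unit_primes_aux (ψ.comp
    (Algebra.TensorProduct.includeRight : R →ₐ[ℤ] ℚ ⊗[ℤ] R).toRingHom)

end Pool.Agent.GSC
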