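import Pool.Agent.Lib_helper30.GSC.Real
import Pool.Agent.Lib_helper30.GSC.Prime
import Pool.Agent.Lib_helper21.GSC.M4

set_option autoImplicit false

/-!
# Reduction to finite algebras
-/

namespace Pool.Agent.GSC

open Matrix Module CategoryTheory

universe u

lemma side {K : Type u} [Field K] {D : Type} [CommRing D] [IsDomain D] (ι : D →+* K)
    (hι : Function.Injective ι) {d : ℕ} {e : Fin d → Fin d → D} {c : Fin d → Fin d → Fin d → D}
    (hA : IsAlg e c) (m : Type) [Fintype m] [DecidableEq m] (ρ : Fin d → Matrix m m D)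
    (hρ : IsRep e c ρ) :
    ∃ f : D, f ≠ 0 ∧ ∀ (F : Type) [Field F] (φ : D →+* F), φ f ≠ 0 →
      (∀ n, InjLE (fun i j l => φ (c i j l)) n m (fun l => (ρ l).map φ) →
        InjLE (fun i j l => ι (c i j l)) n m (fun l => (ρ l).map ι)) ∧
      (∀ n, InjLE (fun i j l => ι (c i j l)) n m (fun l => (ρ l).map ι) →
        ∃ n' ≤ n, InjLE (fun i j l => φ (c i j l)) n' m (fun l => (ρ l).map φ)) := by
  classical
  by_cases hex : ∃ n, InjLE (fun i j l => ι (c i j l)) n m (fun l => (ρ l).map ι)
  · have h0 := Nat.find_spec hex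
    have hFr := injLE_lift ι (algebraMap D (FractionRing D))
      (FaithfulSMul.algebraMap_injective D (FractionRing D)) _ m e c ρ hA hρ h0
    obtain ⟨f, hf0, hf⟩ := open_of_generic.{0} m c ρ _ hFr
    exact ⟨f, hf0, fun F _ φ hφ => ⟨fun n hn => injLE_lift φ ι hι n m e c ρ hA hρ hn,
      fun n hn => ⟨Nat.find hex, Nat.find_min' hex hn, hf F φ hφ⟩⟩⟩
  · exact ⟨1, one_ne_zero, fun F _ φ _ => ⟨fun n hn => injLE_lift φ ι hι n m e c ρ hA hρ hn,
      fun n hn => absurd ⟨n, hn⟩ hex⟩⟩

/-- Finite residue fields of characteristic `p`. -/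
lemma residue {D : Type} [CommRing D] [IsDomain D] [Algebra.FiniteType ℤ D] (f : D)
    (hf : f ≠ 0) : ∃ N : ℕ, N ≠ 0 ∧ ∀ p : ℕ, p.Prime → ((p : D) = 0 ∨ CharZero D ∧ ¬ p ∣ N) →
      ∃ (F : Type) (_ : Field F) (_ : Finite F) (φ : D →+* F), CharP F p ∧ φ f ≠ 0 := by
  classical
  let L := Localization.Away f
  have h1 : Algebra.FiniteType D L :=
    IsLocalization.finiteType_of_monoid_fg (Submonoid.powers f) L
  have hL : Algebra.FiniteType ℤ L := Algebra.FiniteType.trans ‹_› h1
  have hdom : IsDomain L := IsLocalization.isDomain_localization (M := Submonoid.powers f)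
    (powers_le_nonZeroDivisors_of_noZeroDivisors hf)
  have hinj : Function.Injective (algebraMap D L) := IsLocalization.injective L
    (powers_le_nonZeroDivisors_of_noZeroDivisors hf)
  have key : ∀ p : ℕ, p.Prime → ¬ IsUnit (p : L) →
      ∃ (F : Type) (_ : Field F) (_ : Finite F) (φ : D →+* F), CharP F p ∧ φ f ≠ 0 := by
    intro p hp hu
    obtain ⟨M, hM, hpM⟩ := Ideal.exists_le_maximal (Ideal.span {(p : L)})
      (by rwa [Ne, Ideal.span_singleton_eq_top])
    let _ : Field (L ⧸ M) := Ideal.Quotient.field M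
    have hF1 : (algebraMap ℤ L).FiniteType := RingHom.finiteType_algebraMap.2 hL
    have hF2 : ((Ideal.Quotient.mk M).comp (algebraMap ℤ L)).FiniteType :=
      hF1.comp_surjective Ideal.Quotient.mk_surjective
    have hF3 : (Ideal.Quotient.mk M).comp (algebraMap ℤ L) = Int.castRingHom (L ⧸ M) :=
      RingHom.ext_int _ _
    rw [hF3] at hF2
    refine ⟨L ⧸ M, inferInstance, finite_of_fg _ hF2,
      (Ideal.Quotient.mk M).comp (algebraMap D L), ?_, ?_⟩
    · refine (CharP.charP_iff_prime_eq_zero hp).2 ?_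
      have : Ideal.Quotient.mk M (p : L) = 0 :=
        Ideal.Quotient.eq_zero_iff_mem.2 (hpM (Ideal.subset_span rfl))
      rwa [map_natCast] at this
    · have hu : IsUnit (algebraMap D L f) := IsLocalization.Away.algebraMap_isUnit f
      exact (hu.map (Ideal.Quotient.mk M)).ne_zero
  have h0 : ∀ p : ℕ, (p : D) = 0 → ¬ IsUnit (p : L) := by
    intro p hp hu
    have : ((p : ℕ) : L) = 0 := by rw [← map_natCast (algebraMap D L), hp, map_zero]
    rw [this] at hu
    exact not_isUnit_zero hu
  by_cases hch : CharZero D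
  · have hchL : CharZero L := charZero_of_injective_algebraMap hinj
    have hF1 : (algebraMap ℤ L).FiniteType := RingHom.finiteType_algebraMap.2 hL
    have hF3 : algebraMap ℤ L = Int.castRingHom L := RingHom.ext_int _ _
    rw [hF3] at hF1
    obtain ⟨N, hN, hN'⟩ := unit_primes hF1
    refine ⟨N, hN, fun p hp h => key p hp ?_⟩
    rcases h with h | ⟨_, h⟩
    · exact h0 p h
    · exact fun hu => h (hN' p hp hu)
  · refine ⟨1, one_ne_zero, fun p hp h => key p hp ?_⟩
    rcases h with h | ⟨h, _⟩
    · exact h0 p h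
    · exact absurd h hch

lemma injectiveDimension_congr {C : Type*} [Category C] [Abelian C] {C' : Type*} [Category C']
    [Abelian C'] (X : C) (Y : C')
    (h : ∀ n : ℕ, HasInjectiveDimensionLT X n ↔ HasInjectiveDimensionLT Y n) :
    injectiveDimension X = injectiveDimension Y := by
  unfold injectiveDimension
  congr 1
  ext n
  simp only [Set.mem_ofPred_eq, h]

lemma hasInj_congr {C : Type*} [Category C] [Abelian C] {C' : Type*} [Category C']
    [Abelian C'] (X : C) (Y : C') (hX : ¬ Limits.IsZero X) (hY : ¬ Limits.IsZero Y)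
    (h1 : ∀ n : ℕ, HasInjectiveDimensionLT X (n + 1) → HasInjectiveDimensionLT Y (n + 1))
    (h2 : ∀ n : ℕ, HasInjectiveDimensionLT Y (n + 1) →
      ∃ n' ≤ n, HasInjectiveDimensionLT X (n' + 1)) (n : ℕ) :
    HasInjectiveDimensionLT X n ↔ HasInjectiveDimensionLT Y n := by
  rcases n with _ | n
  · rw [hasInjectiveDimensionLT_zero_iff_isZero, hasInjectiveDimensionLT_zero_iff_isZero]
    exact ⟨fun h => absurd h hX, fun h => absurd h hY⟩
  · refine ⟨h1 n, fun h => ?_⟩
    obtain ⟨n', hn', h'⟩ := h2 n h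
    exact hasInjectiveDimensionLT_of_ge X (n' + 1) (n + 1) (by omega)

/-- Reduction for an algebra with a basis. -/
theorem finite_model {K : Type u} [Field K] {A : Type u} [Ring A] [Algebra K A] {d : ℕ}
    {b : Basis (Option (Fin d)) K A} (hb : b none = 1) :
    ∃ N : ℕ, N ≠ 0 ∧ ∀ p : ℕ, p.Prime → ((p : K) = 0 ∨ CharZero K ∧ ¬ p ∣ N) →
      ∃ (F : Type) (_ : Field F) (_ : Finite F) (B : Type) (_ : Ring B) (_ : Algebra F B),
        CharP F p ∧ Module.Finite F B ∧ Module.finrank F B = d + 1 ∧
        injectiveDimension (ModuleCat.of B B) = injectiveDimension (ModuleCat.of A A) ∧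
        injectiveDimension (ModuleCat.of Bᵐᵒᵖ B) = injectiveDimension (ModuleCat.of Aᵐᵒᵖ A) := by
  classical
  let V := (Fin d × Fin d) ⊕ (Fin d × Fin d × Fin d)
  obtain ⟨D, _, hD, hDf, ι, y, hι, hy⟩ := exists_model (K := K) (V := V)
    (Sum.elim (fun p => est b p.1 p.2) (fun p => cst b p.1 p.2.1 p.2.2))
  let e' : Fin d → Fin d → D := fun i j => y (Sum.inl (i, j))
  let c' : Fin d → Fin d → Fin d → D := fun i j l => y (Sum.inr (i, j, l))
  have Ee : (fun i j => ι (e' i j)) = est b := funext fun i => funext fun j => hy _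
  have Ec : (fun i j l => ι (c' i j l)) = cst b :=
    funext fun i => funext fun j => funext fun l => hy _
  have hA : IsAlg e' c' := IsAlg.of_injective ι hι (by rw [Ee, Ec]; exact isAlg_cst hb)
  obtain ⟨f1, hf1, h1⟩ := side ι hι hA (Option (Fin d)) (regL e' c') (regL_isRep hA)
  obtain ⟨f2, hf2, h2⟩ := side ι hι hA.op (Option (Fin d)) (regL (fun i j => e' j i)
    (fun i j l => c' j i l)) (regL_isRep hA.op)
  obtain ⟨N, hN, hN'⟩ := residue (f1 * f2) (mul_ne_zero hf1 hf2)
  refine ⟨N, hN, fun p hp hpK => ?_⟩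
  have hpD : (p : D) = 0 ∨ CharZero D ∧ ¬ p ∣ N := by
    rcases hpK with h | ⟨h, h'⟩
    · left
      apply hι
      rw [map_natCast, map_zero, h]
    · right
      refine ⟨⟨fun a b hab => ?_⟩, h'⟩
      have := congrArg ι hab
      rw [map_natCast, map_natCast] at this
      exact h.cast_injective this
  obtain ⟨F, _, hF, φ, hFp, hφ⟩ := hN' p hp hpD
  rw [map_mul] at hφ
  obtain ⟨hL1, hL2⟩ := h1 F φ (left_ne_zero_of_mul hφ)
  obtain ⟨hR1, hR2⟩ := h2 F φ (right_ne_zero_of_mul hφ)
  have hAF := hA.map φ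
  let b' := realBasis hAF
  have hb' : b' none = 1 := realBasis_one hAF
  have eb' : est b' = fun i j => φ (e' i j) := est_real hAF
  have cb' : cst b' = fun i j l => φ (c' i j l) := cst_real hAF
  have hntB : Nontrivial (realAlg hAF) := ⟨b' none, 0, b'.ne_zero none⟩
  have hntA : Nontrivial A := ⟨b none, 0, b.ne_zero none⟩
  simp only [regL_map] at hL1 hL2 hR1 hR2
  rw [Ee, Ec] at hL1 hL2
  have Ee' : (fun i j => ι (e' j i)) = fun i j => est b j i :=
    funext fun i => funext fun j => hy _
  have Ec' : (fun i j l => ι (c' j i l)) = fun i j l => cst b j i l :=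
    funext fun i => funext fun j => funext fun l => hy _
  rw [Ee', Ec'] at hR1 hR2
  refine ⟨F, inferInstance, hF, realAlg hAF, inferInstance, inferInstance, hFp,
    Module.Finite.of_basis b', ?_, ?_, ?_⟩
  · rw [Module.finrank_eq_card_basis b']
    simp
  · refine injectiveDimension_congr _ _ (hasInj_congr _ _ ?_ ?_ ?_ ?_)
    · rw [ModuleCat.isZero_iff_subsingleton]
      exact not_subsingleton _
    · rw [ModuleCat.isZero_iff_subsingleton]
      exact not_subsingleton _
    · intro n h
      rw [left_iff hb' n, eb', cb'] at h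
      rw [left_iff hb n]
      exact hL1 n h
    · intro n h
      rw [left_iff hb n] at h
      obtain ⟨n', hn', h'⟩ := hL2 n h
      refine ⟨n', hn', ?_⟩
      rw [left_iff hb' n', eb', cb']
      exact h'
  · refine injectiveDimension_congr _ _ (hasInj_congr _ _ ?_ ?_ ?_ ?_)
    · rw [ModuleCat.isZero_iff_subsingleton]
      exact not_subsingleton _
    · rw [ModuleCat.isZero_iff_subsingleton]
      exact not_subsingleton _
    · intro n h
      rw [right_iff hb' n, eb', cb'] at h
      rw [right_iff hb n]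
      exact hR1 n h
    · intro n h
      rw [right_iff hb n] at h
      obtain ⟨n', hn', h'⟩ := hR2 n h
      refine ⟨n', hn', ?_⟩
      rw [right_iff hb' n', eb', cb']
      exact h'

end Pool.Agent.GSC
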