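import Pool.Agent.Lib_helper30.GSC.Mat

set_option autoImplicit false

/-!
# From a residue field to the field of fractions
-/

namespace Pool.Agent.GSC

open Matrix Module

section

variable {S : Type*} [CommRing S] {d : ℕ} {m n : Type} [Fintype m] [Fintype n]

/-- `h ↦ (ρ h - h σ)` -/
def D0 (ρ : Fin d → Matrix m m S) (σ : Fin d → Matrix n n S) :
    (m × n → S) →ₗ[S] (Fin d × m × n → S) where
  toFun v x := ∑ a, ρ x.1 x.2.1 a * v (a, x.2.2) - ∑ b, v (x.2.1, b) * σ x.1 b x.2.2
  map_add' v w := by
    ext x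
    simp only [Pi.add_apply, mul_add, add_mul, Finset.sum_add_distrib]
    ring
  map_smul' r v := by
    ext x
    simp only [Pi.smul_apply, smul_eq_mul, RingHom.id_apply, mul_sub, Finset.mul_sum]
    congr 1
    · exact Finset.sum_congr rfl fun _ _ => by ring
    · exact Finset.sum_congr rfl fun _ _ => by ring

/-- `δ ↦ ρ δ + δ σ - ∑ c δ` -/
def D1 (c : Fin d → Fin d → Fin d → S) (ρ : Fin d → Matrix m m S) (σ : Fin d → Matrix n n S) :
    (Fin d × m × n → S) →ₗ[S] (Fin d × Fin d × m × n → S) where
  toFun v x := ∑ a, ρ x.1 x.2.2.1 a * v (x.2.1, a, x.2.2.2) +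
    ∑ b, v (x.1, x.2.2.1, b) * σ x.2.1 b x.2.2.2 - ∑ k, c x.1 x.2.1 k * v (k, x.2.2)
  map_add' v w := by
    ext x
    simp only [Pi.add_apply, mul_add, add_mul, Finset.sum_add_distrib]
    ring
  map_smul' r v := by
    ext x
    simp only [Pi.smul_apply, smul_eq_mul, RingHom.id_apply, mul_sub, mul_add, Finset.mul_sum]
    congr 1
    · congr 1
      · exact Finset.sum_congr rfl fun _ _ => by ring
      · exact Finset.sum_congr rfl fun _ _ => by ring
    · exact Finset.sum_congr rfl fun _ _ => by ring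

/-- the matrix form of a function -/
def mt (v : m × n → S) : Matrix m n S := Matrix.of fun a b => v (a, b)

/-- the matrix form of a function -/
def mt3 (v : Fin d × m × n → S) (l : Fin d) : Matrix m n S := Matrix.of fun a b => v (l, a, b)

lemma D0_apply (ρ : Fin d → Matrix m m S) (σ : Fin d → Matrix n n S) (v : m × n → S)
    (l : Fin d) (a : m) (b : n) : D0 ρ σ v (l, a, b) = (ρ l * mt v - mt v * σ l) a b := rfl

lemma D1_apply (c : Fin d → Fin d → Fin d → S) (ρ : Fin d → Matrix m m S)
    (σ : Fin d → Matrix n n S) (v : Fin d × m × n → S) (i j : Fin d) (a : m) (b : n) :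
    D1 c ρ σ v (i, j, a, b) =
      (ρ i * mt3 v j + mt3 v i * σ j - ∑ k, c i j k • mt3 v k) a b := by
  rw [Matrix.sub_apply, Matrix.sum_apply]
  rfl

variable [DecidableEq m] [DecidableEq n]

lemma D1_D0 {e : Fin d → Fin d → S} {c : Fin d → Fin d → Fin d → S} {ρ : Fin d → Matrix m m S}
    {σ : Fin d → Matrix n n S} (hρ : IsRep e c ρ) (hσ : IsRep e c σ) (v : m × n → S) :
    D1 c ρ σ (D0 ρ σ v) = 0 := by
  ext ⟨i, j, a, b⟩
  rw [D1_apply]
  have h : ∀ l, mt3 (D0 ρ σ v) l = ρ l * mt v - mt v * σ l := fun l => rfl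
  have h1 : ρ i * mt3 (D0 ρ σ v) j + mt3 (D0 ρ σ v) i * σ j -
      ∑ k, c i j k • mt3 (D0 ρ σ v) k = 0 := by
    simp only [h, Matrix.mul_sub, Matrix.sub_mul, smul_sub, Finset.sum_sub_distrib]
    have e1 : ρ i * (ρ j * mt v) = e i j • mt v + ∑ k, c i j k • (ρ k * mt v) := by
      rw [← Matrix.mul_assoc, hρ i j, Matrix.add_mul, Matrix.smul_mul, Matrix.one_mul,
        Matrix.sum_mul]
      simp only [Matrix.smul_mul]
    have e2 : mt v * σ i * σ j = e i j • mt v + ∑ k, c i j k • (mt v * σ k) := by
      rw [Matrix.mul_assoc, hσ i j, Matrix.mul_add, Matrix.mul_smul, Matrix.mul_one,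
        Matrix.mul_sum]
      simp only [Matrix.mul_smul]
    rw [e1, e2, Matrix.mul_assoc]
    abel
  rw [h1]
  rfl

omit [DecidableEq n] in
/-- If the equations can be solved, every cocycle with values in `ρ` is a coboundary. -/
lemma cocycle {c : Fin d → Fin d → Fin d → S} {ρ : Fin d → Matrix m m S}
    {h : Fin d → Matrix m m S} (hh : ∀ l k, ρ l * h k - ∑ i, c i l k • h i +
      (if k = l then ∑ i, h i * ρ i else 0) = if k = l then 1 else 0)
    (σ : Fin d → Matrix n n S) (δ : Fin d → Matrix m n S)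
    (hδ : ∀ i j, ρ i * δ j + δ i * σ j - ∑ k, c i j k • δ k = 0) (l : Fin d) :
    ρ l * (∑ i, h i * δ i) - (∑ i, h i * δ i) * σ l = δ l := by
  have h1 : ∀ i, δ i * σ l = ∑ k, c i l k • δ k - ρ i * δ l := by
    intro i
    have := hδ i l
    rw [sub_eq_zero] at this
    rw [← this]
    abel
  have h2 : (∑ i, h i * δ i) * σ l = ∑ k, (∑ i, c i l k • h i) * δ k -
      (∑ i, h i * ρ i) * δ l := by
    rw [Matrix.sum_mul]
    simp only [Matrix.mul_assoc, h1, Matrix.mul_sub, Finset.sum_sub_distrib, Matrix.mul_sum,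
      Matrix.mul_smul, Matrix.sum_mul, Matrix.smul_mul]
    congr 1
    exact Finset.sum_comm
  have h3 : ρ l * (∑ i, h i * δ i) = ∑ k, (ρ l * h k) * δ k := by
    rw [Matrix.mul_sum]
    exact Finset.sum_congr rfl fun i _ => (Matrix.mul_assoc _ _ _).symm
  have h4 : ∑ k, (if k = l then ∑ i, h i * ρ i else 0) * δ k = (∑ i, h i * ρ i) * δ l := by
    rw [Finset.sum_eq_single l]
    · simp
    · intro k _ hk
      simp [hk]
    · simp
  have h5 : ∑ k, (if k = l then (1 : Matrix m m S) else 0) * δ k = δ l := by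
    rw [Finset.sum_eq_single l]
    · simp
    · intro k _ hk
      simp [hk]
    · simp
  rw [h2, h3, ← h4, sub_sub_eq_add_sub, ← Finset.sum_add_distrib, ← Finset.sum_sub_distrib,
    ← h5]
  refine Finset.sum_congr rfl fun k _ => ?_
  rw [← hh l k, Matrix.add_mul, Matrix.sub_mul]
  abel

/-- the universal cocycle -/
lemma univ_cocycle (c : Fin d → Fin d → Fin d → S) (ρ : Fin d → Matrix m m S) (i j : Fin d) :
    ρ i * (Matrix.of fun (a : m) (x : Fin d × m) => if x.1 = j ∧ x.2 = a then (1 : S) else 0) +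
      (Matrix.of fun (a : m) (x : Fin d × m) => if x.1 = i ∧ x.2 = a then (1 : S) else 0) *
        co c ρ j - ∑ k, c i j k •
      (Matrix.of fun (a : m) (x : Fin d × m) => if x.1 = k ∧ x.2 = a then (1 : S) else 0) = 0 := by
  ext a ⟨k, b⟩
  simp only [Matrix.sub_apply, Matrix.add_apply, Matrix.mul_apply, Matrix.sum_apply,
    Matrix.smul_apply, Matrix.of_apply, Fintype.sum_prod_type, co_apply, smul_eq_mul,
    Matrix.zero_apply]
  have e1 : ∑ x, ρ i a x * (if k = j ∧ b = x then (1 : S) else 0) = if k = j then ρ i a b else 0 := by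
    by_cases hk : k = j <;> simp [hk]
  have e2 : ∑ x, ∑ y, (if x = i ∧ y = a then (1 : S) else 0) *
      (c x j k * (if y = b then 1 else 0) - if k = j then ρ x y b else 0) =
        c i j k * (if a = b then 1 else 0) - if k = j then ρ i a b else 0 := by
    rw [Finset.sum_eq_single i, Finset.sum_eq_single a]
    · simp
    · intro y _ hy
      simp [hy]
    · simp
    · intro x _ hx
      simp [hx]
    · simp
  have e3 : ∑ x, c i j x * (if k = x ∧ b = a then (1 : S) else 0) =
      c i j k * (if a = b then 1 else 0) := by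
    rw [Finset.sum_eq_single k]
    · simp [eq_comm]
    · intro x _ hx
      simp [Ne.symm hx]
    · simp
  rw [e1, e2, e3]
  ring

end

/-- the equations in terms of the universal cocycle -/
lemma inj_iff {S : Type*} [CommRing S] {d : ℕ} {m : Type} [Fintype m] [DecidableEq m]
    (c : Fin d → Fin d → Fin d → S) (ρ : Fin d → Matrix m m S) :
    InjLE c 0 m ρ ↔ ∃ g : Matrix m (Fin d × m) S, ∀ l, ρ l * g - g * co c ρ l =
      Matrix.of fun (a : m) (x : Fin d × m) => if x.1 = l ∧ x.2 = a then (1 : S) else 0 := by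
  have key : ∀ (h : Fin d → Matrix m m S) (l k : Fin d) (a b : m),
      (ρ l * (Matrix.of fun (a : m) (x : Fin d × m) => h x.1 a x.2) -
        (Matrix.of fun (a : m) (x : Fin d × m) => h x.1 a x.2) * co c ρ l) a (k, b) =
      (ρ l * h k - ∑ i, c i l k • h i + (if k = l then ∑ i, h i * ρ i else 0)) a b := by
    intro h l k a b
    simp only [Matrix.sub_apply, Matrix.add_apply, Matrix.mul_apply, Matrix.sum_apply,
      Matrix.smul_apply, Matrix.of_apply, Fintype.sum_prod_type, co_apply, smul_eq_mul]
    have e1 : (if k = l then ∑ i, h i * ρ i else 0 : Matrix m m S) a b =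
        ∑ i, ∑ x, h i a x * (if k = l then ρ i x b else 0) := by
      split_ifs
      · simp [Matrix.sum_apply, Matrix.mul_apply]
      · simp
    have e2 : ∀ i, ∑ x, h i a x * (c i l k * (if x = b then 1 else 0) -
        if k = l then ρ i x b else 0) = c i l k * h i a b -
          ∑ x, h i a x * (if k = l then ρ i x b else 0) := by
      intro i
      simp only [mul_sub, Finset.sum_sub_distrib]
      congr 1
      rw [Finset.sum_eq_single b]
      · simp [mul_comm]
      · intro x _ hx
        simp [hx]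
      · simp
    rw [e1, Finset.sum_congr rfl fun i _ => e2 i, Finset.sum_sub_distrib]
    ring
  constructor
  · rintro ⟨h, hh⟩
    refine ⟨Matrix.of fun a x => h x.1 a x.2, fun l => ?_⟩
    ext a ⟨k, b⟩
    rw [key, hh l k]
    simp only [Matrix.of_apply]
    have hab : (b = a) = (a = b) := propext eq_comm
    simp only [hab]
    by_cases hk : k = l <;> by_cases hb : a = b <;> simp [hk, hb, Matrix.one_apply]
  · rintro ⟨g, hg⟩
    refine ⟨fun i => Matrix.of fun a b => g a (i, b), fun l k => ?_⟩
    ext a b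
    refine (key (fun i => Matrix.of fun a b => g a (i, b)) l k a b).symm.trans ?_
    have h1 := congrFun (congrFun (hg l) a) (k, b)
    refine Eq.trans h1 ?_
    simp only [Matrix.of_apply]
    have hab : (b = a) = (a = b) := propext eq_comm
    simp only [hab]
    by_cases hk : k = l <;> by_cases hb : a = b <;> simp [hk, hb, Matrix.one_apply]

section

variable {R k K : Type*} [CommRing R] [Field k] [Field K] {d : ℕ}

lemma D0_nat {S T : Type*} [CommRing S] [CommRing T] {m n : Type} [Fintype m] [Fintype n]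
    (φ : S →+* T) (ρ : Fin d → Matrix m m S) (σ : Fin d → Matrix n n S) (v : m × n → S) :
    D0 (fun l => (ρ l).map φ) (fun l => (σ l).map φ) (fun x => φ (v x)) =
      fun x => φ (D0 ρ σ v x) := by
  ext x
  simp [D0, map_sum]

lemma D1_nat {S T : Type*} [CommRing S] [CommRing T] {m n : Type} [Fintype m] [Fintype n]
    (φ : S →+* T) (c : Fin d → Fin d → Fin d → S) (ρ : Fin d → Matrix m m S)
    (σ : Fin d → Matrix n n S) (v : Fin d × m × n → S) :
    D1 (fun i j k => φ (c i j k)) (fun l => (ρ l).map φ) (fun l => (σ l).map φ)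
      (fun x => φ (v x)) = fun x => φ (D1 c ρ σ v x) := by
  ext x
  simp [D1, map_sum]

lemma toMatrix_nat {S T : Type*} [CommRing S] [CommRing T] {x y : Type} [Fintype x]
    [DecidableEq x] (φ : S →+* T) (f : (x → S) →ₗ[S] (y → S)) (g : (x → T) →ₗ[T] (y → T))
    (h : ∀ v : x → S, g (fun i => φ (v i)) = fun i => φ (f v i)) :
    LinearMap.toMatrix' g = (LinearMap.toMatrix' f).map φ := by
  ext i j
  rw [Matrix.map_apply, LinearMap.toMatrix'_apply, LinearMap.toMatrix'_apply]
  have h1 := congrFun (h (Pi.single j 1)) i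
  have h2 : (fun i => φ ((Pi.single j 1 : x → S) i)) = (Pi.single j 1 : x → T) := by
    funext l
    by_cases hl : l = j
    · subst hl
      simp
    · simp [hl]
  rw [h2] at h1
  exact h1

/-- If the `n`-th cosyzygy is injective over a residue field, then also over the fraction field. -/
lemma injLE_lift (φ : R →+* k) (ι : R →+* K) (hι : Function.Injective ι) :
    ∀ (n : ℕ) (m : Type) [Fintype m] [DecidableEq m] (e : Fin d → Fin d → R)
      (c : Fin d → Fin d → Fin d → R) (ρ : Fin d → Matrix m m R), IsAlg e c → IsRep e c ρ →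
      InjLE (fun i j l => φ (c i j l)) n m (fun l => (ρ l).map φ) →
        InjLE (fun i j l => ι (c i j l)) n m (fun l => (ρ l).map ι)
  | 0, m, _, _, e, c, ρ, hA, hρ, h => by
      have hσ := co_isRep hA hρ
      obtain ⟨hh, hhh⟩ := h
      rw [inj_iff]
      have hBA : LinearMap.toMatrix' (D1 c ρ (co c ρ)) * LinearMap.toMatrix' (D0 ρ (co c ρ)) =
          0 := by
        rw [← LinearMap.toMatrix'_comp]
        have : (D1 c ρ (co c ρ)).comp (D0 ρ (co c ρ)) = 0 :=
          LinearMap.ext fun v => D1_D0 hρ hσ v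
        rw [this, map_zero]
      have hex : ∀ v, ((LinearMap.toMatrix' (D1 c ρ (co c ρ))).map φ).mulVec v = 0 →
          ∃ w, ((LinearMap.toMatrix' (D0 ρ (co c ρ))).map φ).mulVec w = v := by
        intro v hv
        rw [← toMatrix_nat φ _ _ (D1_nat φ c ρ (co c ρ)), LinearMap.toMatrix'_mulVec] at hv
        have h1 : ∀ i j, (ρ i).map φ * mt3 v j + mt3 v i * (co c ρ j).map φ -
            ∑ k, φ (c i j k) • mt3 v k = 0 := by
          intro i j
          ext a b
          exact (D1_apply _ _ _ _ i j a b).symm.trans (congrFun hv (i, j, a, b))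
        have h2 := cocycle hhh (fun l => (co c ρ l).map φ) (mt3 v) h1
        refine ⟨fun x => (∑ i, hh i * mt3 v i) x.1 x.2, ?_⟩
        rw [← toMatrix_nat φ _ _ (D0_nat φ ρ (co c ρ)), LinearMap.toMatrix'_mulVec]
        ext ⟨l, a, b⟩
        exact congrFun (congrFun (h2 l) a) b
      have hK := exact_lift φ ι hι _ _ hBA hex
      obtain ⟨w, hw⟩ := hK
        (fun x => if x.2.2.1 = x.1 ∧ x.2.2.2 = x.2.1 then 1 else 0) (by
          rw [← toMatrix_nat ι _ _ (D1_nat ι c ρ (co c ρ)), LinearMap.toMatrix'_mulVec]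
          have h3 : (fun l => (co c ρ l).map ι) = co (fun i j k => ι (c i j k))
            (fun i => (ρ i).map ι) := funext fun l => (co_map ι c ρ l).symm
          rw [h3]
          ext ⟨i, j, a, b⟩
          exact (D1_apply _ _ _ _ i j a b).trans
            (congrFun (congrFun (univ_cocycle (fun i j k => ι (c i j k))
              (fun i => (ρ i).map ι) i j) a) b))
      rw [← toMatrix_nat ι _ _ (D0_nat ι ρ (co c ρ)), LinearMap.toMatrix'_mulVec] at hw
      refine ⟨mt w, fun l => ?_⟩
      rw [co_map]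
      ext a b
      exact congrFun hw (l, a, b)
  | n + 1, m, _, _, e, c, ρ, hA, hρ, h => by
      have h1 : InjLE (fun i j l => φ (c i j l)) n (Fin d × m) (fun l => (co c ρ l).map φ) := by
        have : (fun l => (co c ρ l).map φ) = co (fun i j k => φ (c i j k))
            (fun i => (ρ i).map φ) := funext fun l => (co_map φ c ρ l).symm
        rw [this]
        exact h
      have h2 := injLE_lift φ ι hι n (Fin d × m) e c (co c ρ) hA (co_isRep hA hρ) h1
      have : (fun l => (co c ρ l).map ι) = co (fun i j k => ι (c i j k))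
          (fun i => (ρ i).map ι) := funext fun l => (co_map ι c ρ l).symm
      rw [this] at h2
      exact h2

end

end Pool.Agent.GSC
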