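import Pool.Agent.Lib_helper30.GSC.Rank

set_option autoImplicit false

/-!
# Representations by matrices, cosyzygies, and the injective dimension as a system of equations
-/

namespace Pool.Agent.GSC

open Matrix Module

section

variable {S : Type*} [CommRing S] {d : ℕ}

/-- `e`, `c` are the structure constants `bᵢ bⱼ = e i j + ∑ c i j k bₖ` of an associative algebra with
basis `1, b₁, …`. -/
structure IsAlg (e : Fin d → Fin d → S) (c : Fin d → Fin d → Fin d → S) : Prop where
  unit : ∀ i j l, ∑ k, c i j k * e k l = ∑ k, c j l k * e i k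
  assoc : ∀ i j l t, e i j * (if t = l then 1 else 0) + ∑ k, c i j k * c k l t =
    e j l * (if t = i then 1 else 0) + ∑ k, c j l k * c i k t

variable {m : Type*} [Fintype m] [DecidableEq m]

/-- `ρ` is a representation. -/
def IsRep (e : Fin d → Fin d → S) (c : Fin d → Fin d → Fin d → S) (ρ : Fin d → Matrix m m S) :
    Prop :=
  ∀ i j, ρ i * ρ j = e i j • (1 : Matrix m m S) + ∑ k, c i j k • ρ k

/-- The blocks of the action on the cosyzygy. -/
def blk (c : Fin d → Fin d → Fin d → S) (ρ : Fin d → Matrix m m S) (l : Fin d) :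
    Matrix (Fin d) (Fin d) (Matrix m m S) :=
  Matrix.of fun i k => c i l k • (1 : Matrix m m S) - if k = l then ρ i else 0

/-- The action on the cosyzygy. -/
def co (c : Fin d → Fin d → Fin d → S) (ρ : Fin d → Matrix m m S) (l : Fin d) :
    Matrix (Fin d × m) (Fin d × m) S :=
  Matrix.compRingEquiv (Fin d) m S (blk c ρ l)

lemma co_apply (c : Fin d → Fin d → Fin d → S) (ρ : Fin d → Matrix m m S) (l i k : Fin d)
    (a b : m) : co c ρ l (i, a) (k, b) =
      c i l k * (if a = b then 1 else 0) - if k = l then ρ i a b else 0 := by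
  simp only [co, Matrix.compRingEquiv_apply, Matrix.comp_apply, blk, Matrix.of_apply,
    Matrix.sub_apply, Matrix.smul_apply, Matrix.one_apply, smul_eq_mul]
  split_ifs <;> simp

lemma blk_mul {e : Fin d → Fin d → S} {c : Fin d → Fin d → Fin d → S}
    {ρ : Fin d → Matrix m m S} (hA : IsAlg e c) (hρ : IsRep e c ρ) (l l' : Fin d) :
    blk c ρ l * blk c ρ l' = Matrix.of (fun i k => (e l l' * (if k = i then 1 else 0)) •
      (1 : Matrix m m S)) + ∑ t, c l l' t • blk c ρ t := by
  ext1 i k
  have h1 : (blk c ρ l * blk c ρ l') i k =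
      (∑ j, c i l j * c j l' k) • (1 : Matrix m m S) -
        (if k = l' then ∑ j, c i l j • ρ j else 0) - c l l' k • ρ i +
        if k = l' then ρ i * ρ l else 0 := by
    have e1 : ∀ j, blk c ρ l i j * blk c ρ l' j k =
        (c i l j * c j l' k) • (1 : Matrix m m S) - (if k = l' then c i l j • ρ j else 0) -
          (if j = l then c j l' k • ρ i else 0) + (if j = l then if k = l' then ρ i * ρ j else 0
            else 0) := by
      intro j
      simp only [blk, Matrix.of_apply]
      split_ifs <;> simp only [sub_mul, mul_sub, smul_mul_assoc, one_mul, mul_smul_comm, mul_one,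
        sub_zero] <;> module
    rw [Matrix.mul_apply, Finset.sum_congr rfl (fun j _ => e1 j)]
    simp only [Finset.sum_add_distrib, Finset.sum_sub_distrib, Finset.sum_smul,
      Finset.sum_ite_eq', Finset.mem_univ, if_true]
    split_ifs <;> simp
  have h2 := hA.assoc i l l' k
  have h3 : (Matrix.of (fun i k => (e l l' * (if k = i then 1 else 0)) •
      (1 : Matrix m m S)) + ∑ t, c l l' t • blk c ρ t : Matrix (Fin d) (Fin d) (Matrix m m S)) i k =
      (e l l' * (if k = i then 1 else 0) + ∑ j, c l l' j * c i j k) • (1 : Matrix m m S) -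
        c l l' k • ρ i := by
    rw [Matrix.add_apply, Matrix.sum_apply]
    simp only [blk, Matrix.of_apply, Matrix.smul_apply, smul_sub, smul_smul,
      Finset.sum_sub_distrib, add_smul, Finset.sum_smul, smul_ite, smul_zero, Finset.sum_ite_eq,
      Finset.mem_univ, if_true]
    abel
  rw [h1, h3, ← h2]
  by_cases hk : k = l'
  · simp only [hk, if_true, hρ i l, add_smul, mul_one]
    abel
  · simp only [hk, if_false, mul_zero, zero_add]
    abel

lemma co_isRep {e : Fin d → Fin d → S} {c : Fin d → Fin d → Fin d → S}
    {ρ : Fin d → Matrix m m S} (hA : IsAlg e c) (hρ : IsRep e c ρ) : IsRep e c (co c ρ) := by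
  intro i j
  unfold co
  rw [← map_mul, blk_mul hA hρ, map_add, map_sum]
  congr 1
  · ext ⟨a, x⟩ ⟨b, y⟩
    simp only [Matrix.compRingEquiv_apply, Matrix.comp_apply, Matrix.of_apply, Matrix.smul_apply,
      Matrix.one_apply, smul_eq_mul, Prod.mk.injEq]
    by_cases h1 : a = b <;> by_cases h2 : x = y <;> simp [h1, h2, eq_comm]

end

/-- `InjLE c n m ρ`: the `n`-th cosyzygy of the representation `ρ` is (relatively) injective. -/
def InjLE {S : Type*} [CommRing S] {d : ℕ} (c : Fin d → Fin d → Fin d → S) :
    ℕ → (m : Type) → [Fintype m] → [DecidableEq m] → (Fin d → Matrix m m S) → Prop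
  | 0, m, _, _, ρ => ∃ h : Fin d → Matrix m m S, ∀ l k,
      ρ l * h k - ∑ i, c i l k • h i + (if k = l then ∑ i, h i * ρ i else 0) =
        if k = l then 1 else 0
  | n + 1, m, _, _, ρ => InjLE c n (Fin d × m) (co c ρ)

section

variable {S T : Type*} [CommRing S] [CommRing T] {d : ℕ}

lemma co_map {m : Type*} [Fintype m] [DecidableEq m] (φ : S →+* T)
    (c : Fin d → Fin d → Fin d → S) (ρ : Fin d → Matrix m m S) (l : Fin d) :
    co (fun i j k => φ (c i j k)) (fun i => (ρ i).map φ) l = (co c ρ l).map φ := by
  ext ⟨i, a⟩ ⟨k, b⟩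
  rw [Matrix.map_apply, co_apply, co_apply]
  split_ifs <;> simp

lemma IsAlg.map {e : Fin d → Fin d → S} {c : Fin d → Fin d → Fin d → S} (h : IsAlg e c)
    (φ : S →+* T) : IsAlg (fun i j => φ (e i j)) (fun i j k => φ (c i j k)) := by
  constructor
  · intro i j l
    have := congrArg φ (h.unit i j l)
    simpa [map_sum] using this
  · intro i j l t
    have := congrArg φ (h.assoc i j l t)
    simpa [map_sum, apply_ite φ] using this

lemma IsRep.map {m : Type*} [Fintype m] [DecidableEq m] {e : Fin d → Fin d → S}
    {c : Fin d → Fin d → Fin d → S} {ρ : Fin d → Matrix m m S} (h : IsRep e c ρ) (φ : S →+* T) :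
    IsRep (fun i j => φ (e i j)) (fun i j k => φ (c i j k)) (fun l => (ρ l).map φ) := by
  intro i j
  have := congrArg φ.mapMatrix (h i j)
  rw [map_mul, map_add, map_sum] at this
  change (ρ i).map φ * (ρ j).map φ = _ at this
  rw [this]
  congr 1
  · ext a b
    simp [Matrix.one_apply, apply_ite φ]
  · refine Finset.sum_congr rfl fun k _ => ?_
    ext a b
    simp

lemma injLE_map (φ : S →+* T) : ∀ (n : ℕ) (m : Type) [Fintype m] [DecidableEq m]
    (c : Fin d → Fin d → Fin d → S) (ρ : Fin d → Matrix m m S), InjLE c n m ρ →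
      InjLE (fun i j k => φ (c i j k)) n m (fun l => (ρ l).map φ)
  | 0, m, _, _, c, ρ, ⟨h, hh⟩ => by
      refine ⟨fun i => (h i).map φ, fun l k => ?_⟩
      have h1 := congrArg φ.mapMatrix (hh l k)
      rw [map_add, map_sub, map_mul, map_sum] at h1
      have h2 : φ.mapMatrix (if k = l then ∑ i, h i * ρ i else 0) =
          if k = l then ∑ i, (h i).map φ * (ρ i).map φ else 0 := by
        split_ifs
        · rw [map_sum]
          exact Finset.sum_congr rfl fun i _ => map_mul _ _ _
        · exact map_zero _
      have h3 : φ.mapMatrix (if k = l then (1 : Matrix m m S) else 0) =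
          if k = l then (1 : Matrix m m T) else 0 := by
        split_ifs
        · exact map_one _
        · exact map_zero _
      rw [h2, h3] at h1
      rw [← h1]
      congr 2
      refine Finset.sum_congr rfl fun i _ => ?_
      ext a b
      simp
  | n + 1, m, _, _, c, ρ, h => by
      have h1 := injLE_map φ n (Fin d × m) c (co c ρ) h
      have h2 : (fun l => (co c ρ l).map φ) = co (fun i j k => φ (c i j k))
          (fun i => (ρ i).map φ) := by
        funext l
        exact (co_map φ c ρ l).symm
      rw [h2] at h1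
      exact h1

/-- A solution uses finitely many numbers. -/
lemma injLE_descend {K : Type*} [Field K] : ∀ (n : ℕ) (m : Type) [Fintype m] [DecidableEq m]
    (c : Fin d → Fin d → Fin d → K) (ρ : Fin d → Matrix m m K), InjLE c n m ρ →
      ∃ s : Finset K, ∀ R : Subring K, ↑s ⊆ (R : Set K) → ∀ (c' : Fin d → Fin d → Fin d → R)
        (ρ' : Fin d → Matrix m m R), (∀ i j k, (c' i j k : K) = c i j k) →
          (∀ i a b, (ρ' i a b : K) = ρ i a b) → InjLE c' n m ρ'
  | 0, m, _, _, c, ρ, ⟨h, hh⟩ => by
      classical
      refine ⟨Finset.univ.image fun x : Fin d × m × m => h x.1 x.2.1 x.2.2, ?_⟩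
      intro R hR c' ρ' hc hρ
      have hmem : ∀ i a b, h i a b ∈ R := by
        intro i a b
        apply hR
        simp only [Finset.coe_image, Finset.coe_univ, Set.image_univ, Set.mem_range]
        exact ⟨(i, a, b), rfl⟩
      refine ⟨fun i => Matrix.of fun a b => ⟨h i a b, hmem i a b⟩, fun l k => ?_⟩
      ext a b
      have h1 := congrFun (congrFun (hh l k) a) b
      have e1 : (((if k = l then (1 : Matrix m m R) else 0) a b : R) : K) =
          (if k = l then (1 : Matrix m m K) else 0) a b := by
        split_ifs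
        · simp only [Matrix.one_apply]
          split_ifs <;> simp
        · simp
      rw [e1, ← h1]
      simp only [Matrix.add_apply, Matrix.sub_apply, Matrix.mul_apply, Matrix.sum_apply,
        Matrix.smul_apply, Matrix.of_apply, Subring.coe_add, AddSubgroupClass.coe_sub]
      congr 1
      · congr 1
        · push_cast
          simp [hρ]
        · push_cast
          simp [hc]
      · split_ifs
        · simp only [Matrix.sum_apply, Matrix.mul_apply, Matrix.of_apply]
          push_cast
          simp [hρ]
        · simp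
  | n + 1, m, _, _, c, ρ, h => by
      obtain ⟨s, hs⟩ := injLE_descend n (Fin d × m) c (co c ρ) h
      refine ⟨s, fun R hR c' ρ' hc hρ => hs R hR c' (co c' ρ') hc ?_⟩
      rintro l ⟨i, a⟩ ⟨k, b⟩
      rw [co_apply, co_apply]
      split_ifs <;> simp [hc, hρ]

end

end Pool.Agent.GSC
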