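import Pool.Agent.Lib_helper30.GSC.Mat

set_option autoImplicit false
set_option linter.unusedSectionVars false

/-!
# The injective dimension of a module and the system of equations
-/

namespace Pool.Agent.GSC

open Matrix Module CategoryTheory

universe u

section

variable (k : Type u) [Field k] (A : Type u) [Ring A] [Algebra k A]
  (M : Type u) [AddCommGroup M] [Module k M] [Module A M] [IsScalarTower k A M]

/-- The coinduced module `Hom_k(A, M)`. -/
def CoInd : Type u := A →ₗ[k] M

instance : AddCommGroup (CoInd k A M) := inferInstanceAs (AddCommGroup (A →ₗ[k] M))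

instance : Module k (CoInd k A M) := inferInstanceAs (Module k (A →ₗ[k] M))

variable {k A M}

/-- the underlying linear map -/
def CoInd.fn (f : CoInd k A M) : A →ₗ[k] M := f

@[simp] lemma CoInd.fn_add (f g : CoInd k A M) (x : A) : (f + g).fn x = f.fn x + g.fn x := rfl

@[simp] lemma CoInd.fn_zero (x : A) : (0 : CoInd k A M).fn x = 0 := rfl

@[simp] lemma CoInd.fn_smulk (t : k) (f : CoInd k A M) (x : A) : (t • f).fn x = t • f.fn x := rfl

lemma CoInd.ext' {f g : CoInd k A M} (h : ∀ x, f.fn x = g.fn x) : f = g := LinearMap.ext h

instance : SMul A (CoInd k A M) where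
  smul a f := (f.fn.comp (LinearMap.mulRight k a) : A →ₗ[k] M)

@[simp] lemma CoInd.fn_smul (a : A) (f : CoInd k A M) (x : A) : (a • f).fn x = f.fn (x * a) := rfl

instance : Module A (CoInd k A M) where
  one_smul f := CoInd.ext' fun x => by simp
  mul_smul a b f := CoInd.ext' fun x => by simp [mul_assoc]
  smul_zero a := CoInd.ext' fun x => by simp
  smul_add a f g := CoInd.ext' fun x => by simp
  add_smul a b f := CoInd.ext' fun x => by simp [mul_add]
  zero_smul f := CoInd.ext' fun x => by simp

lemma CoInd.injective : Module.Injective A (CoInd k A M) where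
  out X Y _ _ _ _ f hf g := by
    let _ : Module k X := Module.compHom X (algebraMap k A)
    let _ : Module k Y := Module.compHom Y (algebraMap k A)
    have : IsScalarTower k A X := IsScalarTower.of_algebraMap_smul fun _ _ => rfl
    have : IsScalarTower k A Y := IsScalarTower.of_algebraMap_smul fun _ _ => rfl
    let fk : X →ₗ[k] Y := f.restrictScalars k
    obtain ⟨s, hs⟩ := fk.exists_leftInverse_of_injective (LinearMap.ker_eq_bot.mpr hf)
    let g' : X →ₗ[k] M :=
      { toFun := fun x => (g x).fn 1
        map_add' := fun x y => by simp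
        map_smul' := fun t x => by
          have : t • x = (algebraMap k A t) • x := rfl
          rw [this, map_smul]
          simp only [CoInd.fn_smul, one_mul, RingHom.id_apply]
          rw [Algebra.algebraMap_eq_smul_one, map_smul] }
    refine ⟨{ toFun := fun y => ({ toFun := fun x => g' (s (x • y))
                                   map_add' := fun x x' => by simp [add_smul]
                                   map_smul' := fun t x => by
                                    rw [smul_assoc, map_smul, map_smul]; rfl } : A →ₗ[k] M)
              map_add' := fun y y' => CoInd.ext' fun x => by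
                change g' (s (x • (y + y'))) = g' (s (x • y)) + g' (s (x • y'))
                simp
              map_smul' := fun a y => CoInd.ext' fun x => by
                change g' (s (x • (a • y))) = g' (s ((x * a) • y))
                rw [mul_smul] }, fun x => CoInd.ext' fun z => ?_⟩
    change g' (s (z • f x)) = (g x).fn z
    rw [← map_smul]
    have : s (f (z • x)) = z • x := LinearMap.congr_fun hs (z • x)
    rw [this]
    change (g (z • x)).fn 1 = _
    simp

variable (k A M) in
/-- The embedding of `M`. -/
def emb : M →ₗ[A] CoInd k A M where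
  toFun m := ({ toFun := fun x => x • m
                map_add' := fun x y => add_smul x y m
                map_smul' := fun t x => smul_assoc t x m } : A →ₗ[k] M)
  map_add' m m' := CoInd.ext' fun x => smul_add x m m'
  map_smul' a m := CoInd.ext' fun x => by
    change x • a • m = (x * a) • m
    rw [mul_smul]

@[simp] lemma emb_fn (m : M) (x : A) : (emb k A M m).fn x = x • m := rfl

variable (k A M) in
/-- The cosyzygy: linear maps with `f 1 = 0`. -/
def Cosyz : Type u := (LinearMap.ker ((LinearMap.applyₗ (1 : A) : (A →ₗ[k] M) →ₗ[k] M)))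

instance : AddCommGroup (Cosyz k A M) :=
  inferInstanceAs (AddCommGroup (LinearMap.ker ((LinearMap.applyₗ (1 : A) : (A →ₗ[k] M) →ₗ[k] M))))

instance : Module k (Cosyz k A M) :=
  inferInstanceAs (Module k (LinearMap.ker ((LinearMap.applyₗ (1 : A) : (A →ₗ[k] M) →ₗ[k] M))))

/-- the underlying linear map -/
def Cosyz.fn (f : Cosyz k A M) : A →ₗ[k] M := f.1

/-- the constructor -/
def Cosyz.mk (f : A →ₗ[k] M) (h : f 1 = 0) : Cosyz k A M := ⟨f, h⟩

@[simp] lemma Cosyz.fn_mk (f : A →ₗ[k] M) (h : f 1 = 0) : (Cosyz.mk f h).fn = f := rfl

@[simp] lemma Cosyz.fn_one (f : Cosyz k A M) : f.fn 1 = 0 := f.2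

@[simp] lemma Cosyz.fn_add (f g : Cosyz k A M) (x : A) : (f + g).fn x = f.fn x + g.fn x := rfl

@[simp] lemma Cosyz.fn_zero (x : A) : (0 : Cosyz k A M).fn x = 0 := rfl

@[simp] lemma Cosyz.fn_smulk (t : k) (f : Cosyz k A M) (x : A) : (t • f).fn x = t • f.fn x := rfl

lemma Cosyz.ext' {f g : Cosyz k A M} (h : ∀ x, f.fn x = g.fn x) : f = g :=
  Subtype.ext (LinearMap.ext h)

/-- an element of the cosyzygy as an element of the coinduced module -/
def Cosyz.co (f : Cosyz k A M) : CoInd k A M := f.fn

@[simp] lemma Cosyz.co_fn (f : Cosyz k A M) (x : A) : f.co.fn x = f.fn x := rfl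

instance : SMul A (Cosyz k A M) where
  smul a f := Cosyz.mk
    ({ toFun := fun x => f.fn (x * a) - x • f.fn a
       map_add' := fun x y => by simp only [add_mul, map_add, add_smul]; abel
       map_smul' := fun t x => by
        simp only [smul_mul_assoc, map_smul, smul_assoc, RingHom.id_apply, smul_sub] })
    (by simp)

@[simp] lemma Cosyz.fn_smul (a : A) (f : Cosyz k A M) (x : A) :
    (a • f).fn x = f.fn (x * a) - x • f.fn a := rfl

instance : Module A (Cosyz k A M) where
  one_smul f := Cosyz.ext' fun x => by simp
  mul_smul a b f := Cosyz.ext' fun x => by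
    simp only [Cosyz.fn_smul, mul_assoc, smul_sub, mul_smul]
    abel
  smul_zero a := Cosyz.ext' fun x => by simp
  smul_add a f g := Cosyz.ext' fun x => by
    simp only [Cosyz.fn_smul, Cosyz.fn_add, smul_add]
    abel
  add_smul a b f := Cosyz.ext' fun x => by
    simp only [Cosyz.fn_smul, Cosyz.fn_add, mul_add, map_add, smul_add]
    abel
  zero_smul f := Cosyz.ext' fun x => by simp

instance : IsScalarTower k A (Cosyz k A M) where
  smul_assoc t a f := Cosyz.ext' fun x => by
    simp only [Cosyz.fn_smul, Cosyz.fn_smulk, mul_smul_comm, map_smul, smul_sub]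
    rw [smul_comm]

variable (k A M) in
/-- The projection. -/
def proj : CoInd k A M →ₗ[A] Cosyz k A M where
  toFun f := Cosyz.mk
    ({ toFun := fun x => f.fn x - x • f.fn 1
       map_add' := fun x y => by simp only [map_add, add_smul]; abel
       map_smul' := fun t x => by simp only [map_smul, smul_assoc, RingHom.id_apply, smul_sub] })
    (by simp)
  map_add' f g := Cosyz.ext' fun x => by
    simp only [Cosyz.fn_mk, LinearMap.coe_mk, AddHom.coe_mk, CoInd.fn_add, smul_add,
      Cosyz.fn_add]
    abel
  map_smul' a f := Cosyz.ext' fun x => by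
    simp only [Cosyz.fn_mk, LinearMap.coe_mk, AddHom.coe_mk, CoInd.fn_smul, one_mul,
      Cosyz.fn_smul, RingHom.id_apply, smul_sub, mul_smul]
    abel

@[simp] lemma proj_fn (f : CoInd k A M) (x : A) : (proj k A M f).fn x = f.fn x - x • f.fn 1 := rfl

lemma emb_injective : Function.Injective (emb k A M) := by
  intro m m' h
  have := congrArg (fun f : CoInd k A M => f.fn 1) h
  simpa using this

lemma proj_surjective : Function.Surjective (proj k A M) := by
  intro f
  refine ⟨(f.fn : A →ₗ[k] M), Cosyz.ext' fun x => ?_⟩
  change f.fn x - x • f.fn 1 = f.fn x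
  simp

lemma emb_proj_exact : Function.Exact (emb k A M) (proj k A M) := by
  intro f
  constructor
  · intro h
    refine ⟨f.fn 1, CoInd.ext' fun x => ?_⟩
    have := congrArg (fun g : Cosyz k A M => g.fn x) h
    simp only [proj_fn, Cosyz.fn_zero] at this
    rw [emb_fn]
    exact (sub_eq_zero.mp this).symm
  · rintro ⟨m, rfl⟩
    refine Cosyz.ext' fun x => ?_
    simp

variable (k A M) in
/-- The short exact sequence. -/
def ses : ShortComplex (ModuleCat.{u} A) :=
  ShortComplex.mk (ModuleCat.ofHom (emb k A M)) (ModuleCat.ofHom (proj k A M)) (by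
    ext m
    exact (emb_proj_exact (k := k) (A := A) (M := M) _).mpr ⟨m, rfl⟩)

lemma ses_shortExact : (ses k A M).ShortExact where
  exact := by
    rw [ShortComplex.moduleCat_exact_iff]
    intro (f : CoInd k A M) hf
    exact (emb_proj_exact (k := k) (A := A) (M := M) f).mp hf
  mono_f := (ModuleCat.mono_iff_injective (ModuleCat.ofHom (emb k A M))).mpr
    (emb_injective (k := k) (A := A) (M := M))
  epi_g := (ModuleCat.epi_iff_surjective (ModuleCat.ofHom (proj k A M))).mpr
    (proj_surjective (k := k) (A := A) (M := M))

lemma coInd_injective_obj : CategoryTheory.Injective (ModuleCat.of A (CoInd k A M)) :=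
  Module.injective_object_of_injective_module A (CoInd k A M)
    (inj := CoInd.injective (k := k) (A := A) (M := M))

lemma id_step (n : ℕ) : HasInjectiveDimensionLT (ModuleCat.of A M) (n + 2) ↔
    HasInjectiveDimensionLT (ModuleCat.of A (Cosyz k A M)) (n + 1) :=
  ((ses_shortExact (k := k) (A := A) (M := M)).hasInjectiveDimensionLT_X₃_iff n
    (coInd_injective_obj (k := k) (A := A) (M := M))).symm

lemma inj_criterion : HasInjectiveDimensionLT (ModuleCat.of A M) 1 ↔
    ∃ h : Cosyz k A M →ₗ[k] M, ∀ (a : A) (f : Cosyz k A M), a • h f - h (a • f) = f.fn a := by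
  rw [← injective_iff_hasInjectiveDimensionLT_one]
  constructor
  · intro hinj
    have : Mono (ModuleCat.ofHom (emb k A M)) := (ModuleCat.mono_iff_injective _).mpr emb_injective
    let r := (Injective.factorThru (𝟙 (ModuleCat.of A M)) (ModuleCat.ofHom (emb k A M))).hom
    have hr : ∀ m, r (emb k A M m) = m := fun m => by
      have := Injective.comp_factorThru (𝟙 (ModuleCat.of A M)) (ModuleCat.ofHom (emb k A M))
      exact LinearMap.congr_fun (congrArg ModuleCat.Hom.hom this) m
    have hrk : ∀ (t : k) (f : CoInd k A M), r (t • f) = t • r f := by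
      intro t f
      have h1 : t • f = (algebraMap k A t) • f := CoInd.ext' fun x => by
        rw [CoInd.fn_smulk, CoInd.fn_smul, Algebra.algebraMap_eq_smul_one, mul_smul_comm, mul_one,
          map_smul]
      rw [h1, map_smul, Algebra.algebraMap_eq_smul_one, smul_assoc, one_smul]
    refine ⟨{ toFun := fun f => r f.co
              map_add' := fun f g => map_add r f.co g.co
              map_smul' := fun t f => hrk t f.co }, fun a f => ?_⟩
    change a • r f.co - r (a • f).co = f.fn a
    have h2 : (a • f).co = a • f.co - emb k A M (f.fn a) := CoInd.ext' fun x => rfl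
    rw [h2, map_sub, map_smul, hr]
    abel
  · rintro ⟨h, hh⟩
    let r : CoInd k A M →ₗ[A] M :=
      { toFun := fun f => f.fn 1 + h (proj k A M f)
        map_add' := fun f g => by
          rw [map_add, map_add, CoInd.fn_add]
          abel
        map_smul' := fun a f => by
          have h1 := hh a (proj k A M f)
          rw [proj_fn] at h1
          rw [map_smul, CoInd.fn_smul, one_mul, RingHom.id_apply, smul_add]
          have h2 : h (a • proj k A M f) = a • h (proj k A M f) - (f.fn a - a • f.fn 1) := by
            rw [← h1]; abel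
          rw [h2]
          abel }
    have hr : ∀ m, r (emb k A M m) = m := fun m => by
      change (emb k A M m).fn 1 + h (proj k A M (emb k A M m)) = m
      have : proj k A M (emb k A M m) = 0 :=
        (emb_proj_exact (k := k) (A := A) (M := M) _).mpr ⟨m, rfl⟩
      rw [this, map_zero, emb_fn, one_smul, add_zero]
    have := CoInd.injective (k := k) (A := A) (M := M)
    have : Module.Injective A M :=
      { out := fun X Y _ _ _ _ f hf g => by
          obtain ⟨g', hg'⟩ := Module.Injective.out f hf ((emb k A M).comp g)
          exact ⟨r.comp g', fun x => by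
            rw [LinearMap.comp_apply, hg' x, LinearMap.comp_apply, hr]⟩ }
    exact Module.injective_object_of_injective_module A M

end

end Pool.Agent.GSC
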