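import Mathlib

set_option autoImplicit false

/-!
# Exactness lifts from a residue field to the fraction field
-/

namespace Pool.Agent.GSC

open Matrix Module

variable {m n l : Type*} [Fintype m] [Fintype n] [Fintype l]

/-- Over a field a matrix of rank `r` has a nonzero minor of size `r`. -/
lemma exists_minor {k : Type*} [Field k] (A : Matrix m n k) :
    ∃ (r : ℕ) (a : Fin r → m) (c : Fin r → n), r = A.rank ∧ (A.submatrix a c).det ≠ 0 := by
  classical
  obtain ⟨κ, a, ha, hs, hl⟩ := exists_linearIndependent' k A.row
  have hfin : Finite κ := Finite.of_injective a ha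
  have : Fintype κ := Fintype.ofFinite κ
  have h1 : (A.submatrix a id).rank = Fintype.card κ := LinearIndependent.rank_matrix (by exact hl)
  have h2 : A.rank = Fintype.card κ := by
    rw [rank_eq_finrank_span_row, ← hs]
    exact finrank_span_eq_card hl
  obtain ⟨κ', c, hc, hs', hl'⟩ := exists_linearIndependent' k (A.submatrix a id)ᵀ.row
  have hfin' : Finite κ' := Finite.of_injective c hc
  have : Fintype κ' := Fintype.ofFinite κ'
  have h3 : Fintype.card κ' = Fintype.card κ := by
    rw [← h1, ← rank_transpose, rank_eq_finrank_span_row, ← hs']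
    exact (finrank_span_eq_card hl').symm
  let e : Fin (Fintype.card κ) ≃ κ := (Fintype.equivFin κ).symm
  let e' : Fin (Fintype.card κ) ≃ κ' := (finCongr h3.symm).trans (Fintype.equivFin κ').symm
  refine ⟨Fintype.card κ, a ∘ e, c ∘ e', h2.symm, ?_⟩
  have h4 : LinearIndependent k (A.submatrix (a ∘ e) (c ∘ e'))ᵀ.row := by
    have h5 := hl'.comp e' e'.injective
    have h6 : LinearIndependent k
        ((LinearEquiv.funCongrLeft k k e) ∘ ((A.submatrix a id)ᵀ.row ∘ c) ∘ e') := by
      exact h5.map' (LinearEquiv.funCongrLeft k k e).toLinearMap (LinearEquiv.ker _)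
    exact h6
  rw [linearIndependent_rows_iff_isUnit, Matrix.isUnit_iff_isUnit_det, det_transpose,
    isUnit_iff_ne_zero] at h4
  exact h4

/-- The rank does not increase under specialisation. -/
lemma rank_map_le {R k K : Type*} [CommRing R] [Field k] [Field K] (φ : R →+* k) (ι : R →+* K)
    (hι : Function.Injective ι) (A : Matrix m n R) : (A.map φ).rank ≤ (A.map ι).rank := by
  classical
  obtain ⟨r, a, c, hr, hd⟩ := exists_minor (A.map φ)
  rw [← hr]
  have h1 : (A.submatrix a c).det ≠ 0 := by
    intro h
    apply hd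
    have : ((A.map φ).submatrix a c) = φ.mapMatrix (A.submatrix a c) := rfl
    rw [this, ← RingHom.map_det, h, map_zero]
  have h2 : ((A.map ι).submatrix a c).det ≠ 0 := by
    have : ((A.map ι).submatrix a c) = ι.mapMatrix (A.submatrix a c) := rfl
    rw [this, ← RingHom.map_det]
    intro h
    exact h1 (hι (by rw [h, map_zero]))
  calc r = Fintype.card (Fin r) := (Fintype.card_fin r).symm
    _ = ((A.map ι).submatrix a c).rank := (rank_of_det_ne_zero h2).symm
    _ ≤ _ := rank_submatrix_le _ _ _

/-- If a complex `C₀ → C₁ → C₂` of free modules is exact in the middle over a residue field, it is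
so over the field of fractions. -/
lemma exact_lift {R k K : Type*} [CommRing R] [Field k] [Field K] (φ : R →+* k) (ι : R →+* K)
    (hι : Function.Injective ι) (A : Matrix m n R) (B : Matrix l m R) (hBA : B * A = 0)
    (hex : ∀ v : m → k, (B.map φ).mulVec v = 0 → ∃ w, (A.map φ).mulVec w = v) :
    ∀ v : m → K, (B.map ι).mulVec v = 0 → ∃ w, (A.map ι).mulVec w = v := by
  classical
  have hle : LinearMap.ker (B.map φ).mulVecLin ≤ LinearMap.range (A.map φ).mulVecLin := by
    intro v hv
    obtain ⟨w, hw⟩ := hex v hv
    exact ⟨w, hw⟩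
  have h1 : finrank k (LinearMap.ker (B.map φ).mulVecLin) ≤ (A.map φ).rank :=
    Submodule.finrank_mono hle
  have h2 := LinearMap.finrank_range_add_finrank_ker (B.map φ).mulVecLin
  have h2' := LinearMap.finrank_range_add_finrank_ker (B.map ι).mulVecLin
  rw [Module.finrank_fintype_fun_eq_card] at h2 h2'
  have h3 := rank_map_le φ ι hι A
  have h4 := rank_map_le φ ι hι B
  have hle' : LinearMap.range (A.map ι).mulVecLin ≤ LinearMap.ker (B.map ι).mulVecLin := by
    rintro _ ⟨w, rfl⟩
    rw [LinearMap.mem_ker]
    change (B.map ι).mulVec ((A.map ι).mulVec w) = 0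
    rw [Matrix.mulVec_mulVec]
    have : B.map ι * A.map ι = (B * A).map ι := (Matrix.map_mul).symm
    rw [this, hBA]
    simp
  have h5 : finrank K (LinearMap.ker (B.map ι).mulVecLin) ≤
      finrank K (LinearMap.range (A.map ι).mulVecLin) := by
    have e1 : finrank K (LinearMap.range (B.map ι).mulVecLin) = (B.map ι).rank := rfl
    have e2 : finrank K (LinearMap.range (A.map ι).mulVecLin) = (A.map ι).rank := rfl
    have e3 : finrank k (LinearMap.range (B.map φ).mulVecLin) = (B.map φ).rank := rfl
    omega
  have h6 := Submodule.eq_of_le_of_finrank_le hle' h5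
  intro v hv
  have : v ∈ LinearMap.range (A.map ι).mulVecLin := by rw [h6]; exact hv
  obtain ⟨w, hw⟩ := this
  exact ⟨w, hw⟩

end Pool.Agent.GSC
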