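import Pool.Agent.Lib_helper30.GSC.Bridge

set_option autoImplicit false

/-!
# The regular representations, and the algebra with given structure constants
-/

namespace Pool.Agent.GSC

open Matrix Module CategoryTheory

universe u

section

variable {S : Type*} [CommRing S] {d : ℕ}

/-- The matrices of the left regular representation. -/
def regL (e : Fin d → Fin d → S) (c : Fin d → Fin d → Fin d → S) (l : Fin d) :
    Matrix (Option (Fin d)) (Option (Fin d)) S :=
  Matrix.of fun o p => match o, p with
    | none, none => 0
    | some t, none => if t = l then 1 else 0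
    | none, some j => e l j
    | some t, some j => c l j t

@[simp] lemma regL_nn (e : Fin d → Fin d → S) (c : Fin d → Fin d → Fin d → S) (l : Fin d) :
    regL e c l none none = 0 := rfl

@[simp] lemma regL_sn (e : Fin d → Fin d → S) (c : Fin d → Fin d → Fin d → S) (l t : Fin d) :
    regL e c l (some t) none = if t = l then 1 else 0 := rfl

@[simp] lemma regL_ns (e : Fin d → Fin d → S) (c : Fin d → Fin d → Fin d → S) (l j : Fin d) :
    regL e c l none (some j) = e l j := rfl

@[simp] lemma regL_ss (e : Fin d → Fin d → S) (c : Fin d → Fin d → Fin d → S) (l t j : Fin d) :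
    regL e c l (some t) (some j) = c l j t := rfl

lemma regL_map {T : Type*} [CommRing T] (φ : S →+* T) (e : Fin d → Fin d → S)
    (c : Fin d → Fin d → Fin d → S) (l : Fin d) :
    (regL e c l).map φ = regL (fun i j => φ (e i j)) (fun i j k => φ (c i j k)) l := by
  ext o p
  rcases o with _ | t <;> rcases p with _ | j
  · simp
  · simp
  · simp [apply_ite φ]
  · simp

lemma regL_isRep {e : Fin d → Fin d → S} {c : Fin d → Fin d → Fin d → S} (hA : IsAlg e c) :
    IsRep e c (regL e c) := by
  intro i j
  ext o p
  rw [Matrix.mul_apply, Fintype.sum_option, Matrix.add_apply, Matrix.sum_apply, Matrix.smul_apply]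
  simp only [Matrix.smul_apply, smul_eq_mul]
  rcases o with _ | t <;> rcases p with _ | l
  · simp
  · simp only [regL_nn, zero_mul, zero_add, regL_ns, regL_ss]
    rw [Matrix.one_apply_ne (by simp), mul_zero, zero_add]
    rw [hA.unit i j l]
    exact Finset.sum_congr rfl fun k _ => mul_comm _ _
  · simp only [regL_nn, mul_zero, zero_add, regL_sn, regL_ss]
    rw [Matrix.one_apply_ne (by simp), mul_zero, zero_add]
    simp
  · simp only [regL_sn, regL_ns, regL_ss]
    have h1 : (1 : Matrix (Option (Fin d)) (Option (Fin d)) S) (some t) (some l) =
        if t = l then 1 else 0 := by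
      simp [Matrix.one_apply]
    rw [h1, hA.assoc i j l t, mul_comm]
    congr 1
    exact Finset.sum_congr rfl fun k _ => mul_comm _ _

/-- opposite algebra -/
lemma IsAlg.op {e : Fin d → Fin d → S} {c : Fin d → Fin d → Fin d → S} (h : IsAlg e c) :
    IsAlg (fun i j => e j i) (fun i j k => c j i k) := by
  constructor
  · intro i j l
    exact (h.unit l j i).symm
  · intro i j l t
    exact (h.assoc l j i t).symm

end

section

variable {F : Type u} [Field F] {d : ℕ} (e : Fin d → Fin d → F) (c : Fin d → Fin d → Fin d → F)

/-- The matrices spanning the algebra. -/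
def realW : Option (Fin d) → Matrix (Option (Fin d)) (Option (Fin d)) F
  | none => 1
  | some l => regL e c l

lemma realW_col (o p : Option (Fin d)) : realW e c o p none = if o = p then 1 else 0 := by
  rcases o with _ | i
  · simp [realW, Matrix.one_apply, eq_comm]
  · rcases p with _ | t
    · simp [realW]
    · simp [realW, eq_comm]

lemma realW_li : LinearIndependent F (realW e c) := by
  rw [Fintype.linearIndependent_iff]
  intro g hg o
  have := congrFun (congrFun hg o) none
  rw [Matrix.sum_apply] at this
  simp only [Matrix.smul_apply, realW_col, smul_eq_mul, mul_ite, mul_one, mul_zero,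
    Finset.sum_ite_eq', Finset.mem_univ, if_true, Matrix.zero_apply] at this
  exact this

variable {e c}

lemma realW_mul (hA : IsAlg e c) (i j : Fin d) : realW e c (some i) * realW e c (some j) =
    e i j • realW e c none + ∑ k, c i j k • realW e c (some k) :=
  regL_isRep hA i j

/-- The algebra with the structure constants `e`, `c`. -/
def realAlg (hA : IsAlg e c) : Subalgebra F (Matrix (Option (Fin d)) (Option (Fin d)) F) :=
  (Submodule.span F (Set.range (realW e c))).toSubalgebra
    (Submodule.subset_span ⟨none, rfl⟩)
    (by
      intro x y hx hy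
      have h1 := Submodule.mul_mem_mul hx hy
      refine (?_ : Submodule.span F (Set.range (realW e c)) *
        Submodule.span F (Set.range (realW e c)) ≤ Submodule.span F (Set.range (realW e c))) h1
      rw [Submodule.span_mul_span, Submodule.span_le]
      rintro _ ⟨_, ⟨o, rfl⟩, _, ⟨p, rfl⟩, rfl⟩
      change realW e c o * realW e c p ∈ Submodule.span F (Set.range (realW e c))
      rcases o with _ | i
      · have : realW e c none * realW e c p = realW e c p := one_mul _
        rw [this]
        exact Submodule.subset_span ⟨p, rfl⟩
      · rcases p with _ | j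
        · have : realW e c (some i) * realW e c none = realW e c (some i) := mul_one _
          rw [this]
          exact Submodule.subset_span ⟨some i, rfl⟩
        · rw [realW_mul hA]
          refine Submodule.add_mem _ (Submodule.smul_mem _ _ (Submodule.subset_span ⟨none, rfl⟩))
            (Submodule.sum_mem _ fun k _ => Submodule.smul_mem _ _
              (Submodule.subset_span ⟨some k, rfl⟩)))

/-- The elements of the basis. -/
def realV (hA : IsAlg e c) (o : Option (Fin d)) : realAlg hA :=
  ⟨realW e c o, Submodule.subset_span ⟨o, rfl⟩⟩

/-- The basis. -/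
noncomputable def realBasis (hA : IsAlg e c) : Basis (Option (Fin d)) F (realAlg hA) :=
  Basis.mk (v := realV hA)
    (LinearIndependent.of_comp (realAlg hA).val.toLinearMap (realW_li e c))
    (by
      rintro ⟨x, hx⟩ -
      have hx' : x ∈ Submodule.span F (Set.range (realW e c)) := hx
      obtain ⟨a, ha⟩ := (Submodule.mem_span_range_iff_exists_fun F).mp hx'
      have : (⟨x, hx⟩ : realAlg hA) = ∑ o, a o • realV hA o := by
        apply Subtype.ext
        rw [AddSubmonoidClass.coe_finsetSum]
        exact ha.symm
      rw [this]
      exact Submodule.sum_mem _ fun o _ => Submodule.smul_mem _ _ (Submodule.subset_span ⟨o, rfl⟩))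

lemma realBasis_apply (hA : IsAlg e c) (o : Option (Fin d)) : realBasis hA o = realV hA o := by
  simp [realBasis]

lemma realBasis_one (hA : IsAlg e c) : realBasis hA none = 1 := by
  rw [realBasis_apply]
  rfl

lemma realBasis_mul (hA : IsAlg e c) (i j : Fin d) : realBasis hA (some i) * realBasis hA (some j) =
    e i j • realBasis hA none + ∑ k, c i j k • realBasis hA (some k) := by
  simp only [realBasis_apply]
  apply Subtype.ext
  rw [Subalgebra.coe_mul, Subalgebra.coe_add, Subalgebra.coe_smul, AddSubmonoidClass.coe_finsetSum]
  exact realW_mul hA i j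

lemma est_real (hA : IsAlg e c) : est (realBasis hA) = e := by
  funext i j
  rw [est, realBasis_mul, map_add, map_sum, Finsupp.add_apply, Finsupp.finsetSum_apply, map_smul,
    Finsupp.smul_apply, Basis.repr_self, Finsupp.single_apply]
  simp

lemma cst_real (hA : IsAlg e c) : cst (realBasis hA) = c := by
  funext i j l
  rw [cst, realBasis_mul, map_add, map_sum, Finsupp.add_apply, Finsupp.finsetSum_apply, map_smul,
    Finsupp.smul_apply, Basis.repr_self, Finsupp.single_apply]
  simp [Finsupp.single_apply]

end

section

variable {k : Type u} [Field k] {A : Type u} [Ring A] [Algebra k A] {d : ℕ}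
  {b : Basis (Option (Fin d)) k A} (hb : b none = 1)

include hb

lemma rst_left : rst b b = regL (est b) (cst b) := by
  funext l
  ext o p
  change b.repr (b (some l) * b p) o = _
  rcases p with _ | j
  · rw [hb, mul_one, Basis.repr_self, Finsupp.single_apply]
    rcases o with _ | t
    · simp
    · simp [eq_comm]
  · rcases o with _ | t
    · rfl
    · rfl

end

/-- The basis of the opposite algebra. -/
noncomputable def opBasis {k : Type u} [Field k] {A : Type u} [Ring A] [Algebra k A] {d : ℕ}
    (b : Basis (Option (Fin d)) k A) : Basis (Option (Fin d)) k Aᵐᵒᵖ :=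
  b.map (MulOpposite.opLinearEquiv k)

section

variable {k : Type u} [Field k] {A : Type u} [Ring A] [Algebra k A] {d : ℕ}
  {b : Basis (Option (Fin d)) k A}

lemma opBasis_one (hb : b none = 1) : opBasis b none = 1 := by
  simp [opBasis, hb]

lemma cst_op : cst (opBasis b) = fun i j l => cst b j i l := by
  funext i j l
  simp [cst, opBasis]

lemma est_op : est (opBasis b) = fun i j => est b j i := by
  funext i j
  simp [est, opBasis]

lemma rst_right (hb : b none = 1) : rst (opBasis b) b = regL (fun i j => est b j i)
    (fun i j l => cst b j i l) := by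
  funext l
  ext o p
  have h1 : opBasis b (some l) • b p = b p * b (some l) := by
    simp [opBasis]
  change b.repr (opBasis b (some l) • b p) o = _
  rw [h1]
  rcases p with _ | j
  · rw [hb, one_mul, Basis.repr_self, Finsupp.single_apply]
    rcases o with _ | t
    · simp
    · simp [eq_comm]
  · rcases o with _ | t
    · rfl
    · rfl

/-- The left self-injective dimension. -/
theorem left_iff (hb : b none = 1) (n : ℕ) : HasInjectiveDimensionLT (ModuleCat.of A A) (n + 1) ↔
    InjLE (cst b) n (Option (Fin d)) (regL (est b) (cst b)) := by
  rw [injLE_iff hb n (Option (Fin d)) A b, rst_left hb]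

/-- The right self-injective dimension. -/
theorem right_iff (hb : b none = 1) (n : ℕ) :
    HasInjectiveDimensionLT (ModuleCat.of Aᵐᵒᵖ A) (n + 1) ↔
      InjLE (fun i j l => cst b j i l) n (Option (Fin d))
        (regL (fun i j => est b j i) (fun i j l => cst b j i l)) := by
  rw [injLE_iff (opBasis_one hb) n (Option (Fin d)) A b, rst_right hb, cst_op]

end

end Pool.Agent.GSC
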