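import Pool.Agent.Lib_helper30.GSC.Stab

set_option autoImplicit false
set_option linter.unusedSectionVars false

/-!
# Splicing projective resolutions
-/

namespace Pool.Agent.GSC

open CategoryTheory MulOpposite Pool.Agent.Lib_helper54.GSC

universe u

section cons

variable {k : Type u} [Field k] {A : Type u} [Ring A] [Algebra k A]

/-- A sequence of modules with one term in front. -/
def consT (X : Type u) (Y : ℕ → Type u) : ℕ → Type u
  | 0 => X
  | i + 1 => Y i

variable {X : Type u} {Y : ℕ → Type u}

instance [AddCommGroup X] [∀ i, AddCommGroup (Y i)] (i : ℕ) : AddCommGroup (consT X Y i) :=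
  match i with
  | 0 => inferInstanceAs (AddCommGroup X)
  | i + 1 => inferInstanceAs (AddCommGroup (Y i))

instance [AddCommGroup X] [∀ i, AddCommGroup (Y i)] [Module A X] [∀ i, Module A (Y i)] (i : ℕ) :
    Module A (consT X Y i) :=
  match i with
  | 0 => inferInstanceAs (Module A X)
  | i + 1 => inferInstanceAs (Module A (Y i))

instance consT.kmod [AddCommGroup X] [∀ i, AddCommGroup (Y i)] [Module k X]
    [∀ i, Module k (Y i)] (i : ℕ) : Module k (consT X Y i) :=
  match i with
  | 0 => inferInstanceAs (Module k X)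
  | i + 1 => inferInstanceAs (Module k (Y i))

variable {M K P : Type u} [AddCommGroup M] [Module k M] [Module A M] [IsScalarTower k A M]
  [AddCommGroup K] [Module k K] [Module A K] [IsScalarTower k A K]
  [AddCommGroup P] [Module k P] [Module A P] [IsScalarTower k A P] [Module.Finite k P]

/-- A resolution of the kernel gives a resolution of the quotient. -/
def ProjRes.cons (a : K →ₗ[A] P) (b : P →ₗ[A] M) (ha : Function.Injective a)
    (hex : Function.Exact a b) (hb : Function.Surjective b) (hP : Module.Projective A P)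
    (Q : ProjRes k A K) : ProjRes k A M where
  K := consT M Q.K
  P := consT P Q.P
  instKk i := match i with
    | 0 => inferInstanceAs (Module k M)
    | i + 1 => Q.instKk i
  instPk i := match i with
    | 0 => inferInstanceAs (Module k P)
    | i + 1 => Q.instPk i
  instKT i := match i with
    | 0 => inferInstanceAs (IsScalarTower k A M)
    | i + 1 => Q.instKT i
  instPT i := match i with
    | 0 => inferInstanceAs (IsScalarTower k A P)
    | i + 1 => Q.instPT i
  instF i := match i with
    | 0 => inferInstanceAs (Module.Finite k P)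
    | i + 1 => Q.instF i
  a i := match i with
    | 0 => (a ∘ₗ Q.e.toLinearMap : Q.K 0 →ₗ[A] P)
    | i + 1 => Q.a i
  b i := match i with
    | 0 => b
    | i + 1 => Q.b i
  inj i := match i with
    | 0 => ha.comp Q.e.injective
    | i + 1 => Q.inj i
  exact i := match i with
    | 0 => fun y => by
      constructor
      · intro hy
        obtain ⟨z, hz⟩ := (hex y).mp hy
        exact ⟨Q.e.symm z, by
          change a (Q.e (Q.e.symm z)) = y
          rw [LinearEquiv.apply_symm_apply, hz]⟩
      · rintro ⟨z, rfl⟩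
        exact (hex _).mpr ⟨Q.e z, rfl⟩
    | i + 1 => Q.exact i
  surj i := match i with
    | 0 => hb
    | i + 1 => Q.surj i
  proj i := match i with
    | 0 => hP
    | i + 1 => Q.proj i
  e := LinearEquiv.refl A M

lemma ProjRes.finrank_cons (a : K →ₗ[A] P) (b : P →ₗ[A] M) (ha : Function.Injective a)
    (hex : Function.Exact a b) (hb : Function.Surjective b) (hP : Module.Projective A P)
    (Q : ProjRes k A K) (j : ℕ) :
    Module.finrank k ((ProjRes.cons a b ha hex hb hP Q).P (j + 1)) = Module.finrank k (Q.P j) :=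
  rfl

/-- The resolution of a syzygy. -/
def ProjRes.tail {M : Type u} [AddCommGroup M] [Module A M] (Q : ProjRes k A M) :
    ProjRes k A (Q.K 1) where
  K i := Q.K (i + 1)
  P i := Q.P (i + 1)
  a i := Q.a (i + 1)
  b i := Q.b (i + 1)
  inj i := Q.inj (i + 1)
  exact i := Q.exact (i + 1)
  surj i := Q.surj (i + 1)
  proj i := Q.proj (i + 1)
  e := LinearEquiv.refl A (Q.K 1)

/-- Transport along an isomorphism. -/
def ProjRes.trans {M M' : Type u} [AddCommGroup M] [Module A M] [AddCommGroup M'] [Module A M']
    (Q : ProjRes k A M) (e : M ≃ₗ[A] M') : ProjRes k A M' :=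
  { Q with e := Q.e.trans e }

/-- A resolution of a syzygy extends to a resolution of the module. -/
theorem exists_splice {M : Type u} [AddCommGroup M] [Module A M] (Q : ProjRes k A M) (i : ℕ) :
    ∀ F : ProjRes k A (Q.K i), ∃ F' : ProjRes k A M, ∀ j,
      Module.finrank k (F'.P (i + j)) = Module.finrank k (F.P j) := by
  induction i with
  | zero =>
    intro F
    refine ⟨F.trans Q.e, fun j => ?_⟩
    rw [Nat.zero_add]
    rfl
  | succ i ih =>
    intro F
    obtain ⟨F', hF'⟩ := ih (ProjRes.cons (Q.a i) (Q.b i) (Q.inj i) (Q.exact i) (Q.surj i)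
      (Q.proj i) F)
    refine ⟨F', fun j => ?_⟩
    have h := hF' (j + 1)
    rw [ProjRes.finrank_cons] at h
    have e : i + 1 + j = i + (j + 1) := by ring
    rw [e, h]

/-- A resolution of `Y` gives one of `Y × P`. -/
theorem exists_addProj (Q : ProjRes k A M) (hP : Module.Projective A P) {X : Type u}
    [AddCommGroup X] [Module k X] [Module A X] [IsScalarTower k A X] (e : X ≃ₗ[A] M × P) :
    ∃ F : ProjRes k A X, ∀ j, Module.finrank k (F.P (j + 1)) = Module.finrank k (Q.P (j + 1)) := by
  have hP0 := Q.proj 0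
  let a : Q.K 1 →ₗ[A] Q.P 0 × P := LinearMap.inl A (Q.P 0) P ∘ₗ Q.a 0
  let b : Q.P 0 × P →ₗ[A] X := e.symm.toLinearMap ∘ₗ
    LinearMap.prodMap (Q.e.toLinearMap ∘ₗ Q.b 0) LinearMap.id
  have ha : Function.Injective a := LinearMap.inl_injective.comp (Q.inj 0)
  have hb : Function.Surjective b := by
    refine e.symm.surjective.comp ?_
    rintro ⟨m, p⟩
    obtain ⟨x, hx⟩ := Q.surj 0 (Q.e.symm m)
    refine ⟨(x, p), ?_⟩
    change (Q.e (Q.b 0 x), p) = (m, p)
    rw [hx, LinearEquiv.apply_symm_apply]
  have hex : Function.Exact a b := by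
    rintro ⟨x, p⟩
    constructor
    · intro h
      have h1 : (Q.e (Q.b 0 x), p) = ((0, 0) : M × P) := by
        have h2 : e.symm (Q.e (Q.b 0 x), p) = 0 := h
        have h3 := (LinearEquiv.map_eq_zero_iff e.symm).mp h2
        exact h3
      have h2 : Q.b 0 x = 0 := by
        have := (Prod.ext_iff.mp h1).1
        exact (LinearEquiv.map_eq_zero_iff Q.e).mp this
      have h3 : p = 0 := (Prod.ext_iff.mp h1).2
      obtain ⟨z, hz⟩ := (Q.exact 0 x).mp h2
      refine ⟨z, ?_⟩
      change (Q.a 0 z, (0 : P)) = (x, p)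
      rw [hz, h3]
    · rintro ⟨z, hz⟩
      have h1 : (Q.a 0 z, (0 : P)) = (x, p) := hz
      have h2 : x = Q.a 0 z := (Prod.ext_iff.mp h1).1.symm
      have h3 : p = 0 := (Prod.ext_iff.mp h1).2.symm
      change e.symm (Q.e (Q.b 0 x), p) = 0
      rw [h2, h3, (Q.exact 0 _).mpr ⟨z, rfl⟩, map_zero]
      exact map_zero e.symm
  have hPP : Module.Projective A (Q.P 0 × P) := inferInstance
  exact ⟨ProjRes.cons a b ha hex hb hPP Q.tail, fun j => rfl⟩

end cons

end Pool.Agent.GSC
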