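import Pool.Agent.Lib_helper30.GSC.Fin
import Pool.Agent.Lib_helper54.GSC.B5

set_option autoImplicit false

/-!
# Finite algebras: the final form
-/

namespace Pool.Agent.GSC

open Matrix Module CategoryTheory

universe u

lemma injDim_top_or {C : Type*} [Category C] [Abelian C] (X : C) (m : ℕ)
    (h : ∀ n : ℕ, HasInjectiveDimensionLT X (n + 1) →
      ∃ n' ≤ m, HasInjectiveDimensionLT X (n' + 1)) :
    injectiveDimension X = ⊤ ∨ injectiveDimension X ≤ m := by
  by_cases ht : injectiveDimension X = ⊤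
  · exact Or.inl ht
  · right
    obtain ⟨n, hn⟩ := (injectiveDimension_ne_top_iff X).mp ht
    obtain ⟨n', hn', h'⟩ := h n hn
    refine (injectiveDimension_le_iff X m).mpr ?_
    exact hasInjectiveDimensionLT_of_ge X (n' + 1) (m + 1) (by omega)

lemma injDim_of_subsingleton (A : Type u) [Ring A] [Subsingleton A] :
    injectiveDimension (ModuleCat.of A A) = ⊥ ∧ injectiveDimension (ModuleCat.of Aᵐᵒᵖ A) = ⊥ :=
  ⟨(injectiveDimension_eq_bot_iff _).mpr (ModuleCat.isZero_of_subsingleton _),
    (injectiveDimension_eq_bot_iff _).mpr (ModuleCat.isZero_of_subsingleton _)⟩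

/-- The finite self-injective dimensions of the algebras of dimension `d` are bounded. -/
theorem uniform_id (d : ℕ) : ∃ m : ℕ, ∀ (K A : Type u) [Field K] [Ring A] [Algebra K A]
    [Module.Finite K A], Module.finrank K A = d →
      (injectiveDimension (ModuleCat.of A A) = ⊤ ∨ injectiveDimension (ModuleCat.of A A) ≤ m) ∧
      (injectiveDimension (ModuleCat.of Aᵐᵒᵖ A) = ⊤ ∨
        injectiveDimension (ModuleCat.of Aᵐᵒᵖ A) ≤ m) := by
  rcases d with _ | d
  · refine ⟨0, fun K A _ _ _ _ hd => ?_⟩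
    have : Subsingleton A := Module.finrank_zero_iff.mp hd
    obtain ⟨h1, h2⟩ := injDim_of_subsingleton A
    rw [h1, h2]
    exact ⟨Or.inr bot_le, Or.inr bot_le⟩
  · obtain ⟨m, hm⟩ := uniform_InjLE.{u} d (Option (Fin d))
    refine ⟨m, fun K A _ _ _ _ hd => ?_⟩
    have hnt : Nontrivial A := Module.nontrivial_of_finrank_pos (R := K) (by omega)
    obtain ⟨b, hb⟩ := Pool.Agent.Lib_helper54.GSC.exists_basis_one hd
    have hA := isAlg_cst hb
    constructor
    · refine injDim_top_or _ m fun n hn => ?_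
      rw [left_iff hb] at hn
      obtain ⟨n', hn', h'⟩ := hm K _ _ _ hA (regL_isRep hA) ⟨n, hn⟩
      exact ⟨n', hn', (left_iff hb n').mpr h'⟩
    · refine injDim_top_or _ m fun n hn => ?_
      rw [right_iff hb] at hn
      obtain ⟨n', hn', h'⟩ := hm K _ _ _ hA.op (regL_isRep hA.op) ⟨n, hn⟩
      exact ⟨n', hn', (right_iff hb n').mpr h'⟩

/-- The self-injective dimensions of a finite-dimensional algebra are those of a finite one. -/
theorem to_finite (K A : Type u) [Field K] [Ring A] [Algebra K A] [Module.Finite K A] :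
    ∃ N : ℕ, N ≠ 0 ∧ ∀ p : ℕ, p.Prime → ((p : K) = 0 ∨ CharZero K ∧ ¬ p ∣ N) →
      ∃ (F B : Type) (_ : Field F) (_ : Finite F) (_ : Ring B) (_ : Algebra F B),
        CharP F p ∧ Module.Finite F B ∧ Module.finrank F B = Module.finrank K A ∧
        injectiveDimension (ModuleCat.of B B) = injectiveDimension (ModuleCat.of A A) ∧
        injectiveDimension (ModuleCat.of Bᵐᵒᵖ B) = injectiveDimension (ModuleCat.of Aᵐᵒᵖ A) := by
  rcases hd : Module.finrank K A with _ | d
  · have hA : Subsingleton A := Module.finrank_zero_iff.mp hd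
    obtain ⟨h1, h2⟩ := injDim_of_subsingleton A
    refine ⟨1, one_ne_zero, fun p hp _ => ?_⟩
    have : Fact p.Prime := ⟨hp⟩
    obtain ⟨h3, h4⟩ := injDim_of_subsingleton PUnit.{1}
    refine ⟨ZMod p, PUnit.{1}, inferInstance, inferInstance, inferInstance, inferInstance,
      inferInstance, inferInstance, ?_, by rw [h1, h3], by rw [h2, h4]⟩
    exact Module.finrank_zero_of_subsingleton
  · have hnt : Nontrivial A := Module.nontrivial_of_finrank_pos (R := K) (by omega)
    obtain ⟨b, hb⟩ := Pool.Agent.Lib_helper54.GSC.exists_basis_one hd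
    obtain ⟨N, hN, h⟩ := finite_model hb
    refine ⟨N, hN, fun p hp hpK => ?_⟩
    obtain ⟨F, i1, i2, B, i3, i4, h1, h2, h3, h4, h5⟩ := h p hp hpK
    exact ⟨F, B, i1, i2, i3, i4, h1, h2, h3, h4, h5⟩

end Pool.Agent.GSC
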