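import Pool.Agent.Lib_helper30.GSC.Two
import Pool.Agent.Lib_helper30.GSC.Total

set_option autoImplicit false
set_option linter.unusedSectionVars false

/-!
# Stable endomorphisms of syzygies
-/

namespace Pool.Agent.GSC

open CategoryTheory MulOpposite Pool.Agent.Lib_helper54.GSC

universe u

section lift

variable {A : Type u} [Ring A]
variable {K K' P L L' Q : Type u}
  [AddCommGroup K] [Module A K] [AddCommGroup K'] [Module A K'] [AddCommGroup P] [Module A P]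
  [AddCommGroup L] [Module A L] [AddCommGroup L'] [Module A L'] [AddCommGroup Q] [Module A Q]

/-- A linear map which vanishes on the kernel of a surjection descends. -/
lemma exists_desc {π : P →ₗ[A] K} (hπ : Function.Surjective π) (ψ : P →ₗ[A] L)
    (h : LinearMap.ker π ≤ LinearMap.ker ψ) : ∃ θ : K →ₗ[A] L, θ ∘ₗ π = ψ := by
  let q := π.quotKerEquivOfSurjective hπ
  refine ⟨(Submodule.liftQ (LinearMap.ker π) ψ h) ∘ₗ q.symm.toLinearMap, ?_⟩
  ext z
  have : q.symm (π z) = Submodule.Quotient.mk z := by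
    rw [LinearEquiv.symm_apply_eq]
    rfl
  simp only [LinearMap.comp_apply, LinearEquiv.coe_coe, this, Submodule.liftQ_apply]

/-- A linear map with values in the range of an injection lifts. -/
lemma exists_fac {ι : L' →ₗ[A] Q} (hι : Function.Injective ι) (ψ : K →ₗ[A] Q)
    (h : ∀ x, ψ x ∈ LinearMap.range ι) : ∃ θ : K →ₗ[A] L', ι ∘ₗ θ = ψ := by
  let e := LinearEquiv.ofInjective ι hι
  refine ⟨e.symm.toLinearMap ∘ₗ LinearMap.codRestrict (LinearMap.range ι) ψ h, ?_⟩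
  ext x
  have : ∀ y, (e y : Q) = ι y := fun y => rfl
  simp only [LinearMap.comp_apply]
  rw [← this]
  simp [LinearMap.comp_apply]

/-- `f' : K' → L'` is a map of syzygies over `f : K → L`. -/
def Lifts (ι : K' →ₗ[A] P) (π : P →ₗ[A] K) (ι' : L' →ₗ[A] Q) (π' : Q →ₗ[A] L)
    (f : K →ₗ[A] L) (f' : K' →ₗ[A] L') : Prop :=
  ∃ ψ : P →ₗ[A] Q, π' ∘ₗ ψ = f ∘ₗ π ∧ ι' ∘ₗ f' = ψ ∘ₗ ι

variable {ι : K' →ₗ[A] P} {π : P →ₗ[A] K} {ι' : L' →ₗ[A] Q} {π' : Q →ₗ[A] L}

/-- Every map lifts to the syzygies. -/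
lemma exists_lifts (hex : Function.Exact ι π) (hP : Module.Projective A P)
    (hι' : Function.Injective ι') (hex' : Function.Exact ι' π') (hπ' : Function.Surjective π')
    (f : K →ₗ[A] L) : ∃ f' : K' →ₗ[A] L', Lifts ι π ι' π' f f' := by
  obtain ⟨ψ, hψ⟩ := Module.projective_lifting_property π' (f ∘ₗ π) hπ'
  have hker : ∀ x, (ψ ∘ₗ ι) x ∈ LinearMap.range ι' := by
    intro x
    have h1 : π' (ψ (ι x)) = 0 := by
      have := LinearMap.congr_fun hψ (ι x)
      simp only [LinearMap.comp_apply] at this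
      rw [this, (hex (ι x)).mpr ⟨x, rfl⟩, map_zero]
    exact (hex' _).mp h1
  obtain ⟨θ, hθ⟩ := exists_fac hι' (ψ ∘ₗ ι) hker
  exact ⟨θ, ψ, hψ, hθ⟩

/-- If the maps into `Q` extend, every map of syzygies lies over a map. -/
lemma exists_lifts_of_extend (hex : Function.Exact ι π) (hπ : Function.Surjective π)
    (hex' : Function.Exact ι' π') (hext : ∀ φ : K' →ₗ[A] Q, ∃ χ : P →ₗ[A] Q, χ ∘ₗ ι = φ)
    (f' : K' →ₗ[A] L') : ∃ f : K →ₗ[A] L, Lifts ι π ι' π' f f' := by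
  obtain ⟨ψ, hψ⟩ := hext (ι' ∘ₗ f')
  obtain ⟨f, hf⟩ := exists_desc hπ (π' ∘ₗ ψ) (by
    intro z hz
    obtain ⟨x, rfl⟩ := (hex z).mp hz
    have h1 : ψ (ι x) = ι' (f' x) := LinearMap.congr_fun hψ x
    change π' (ψ (ι x)) = 0
    rw [h1]
    exact (hex' _).mpr ⟨_, rfl⟩)
  exact ⟨f, ψ, hf.symm, hψ.symm⟩


/-- A map of syzygies over a map which factors through the cover factors through `ι`. -/
lemma Lifts.factor {f : K →ₗ[A] L} {f' : K' →ₗ[A] L'} (h : Lifts ι π ι' π' f f')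
    (hex : Function.Exact ι π) (hι' : Function.Injective ι') (hex' : Function.Exact ι' π')
    (s : K →ₗ[A] Q) (hs : π' ∘ₗ s = f) : ∃ g : P →ₗ[A] L', g ∘ₗ ι = f' := by
  obtain ⟨ψ, h1, h2⟩ := h
  obtain ⟨g, hg⟩ := exists_fac hι' (ψ - s ∘ₗ π) (by
    intro z
    refine (hex' _).mp ?_
    have e1 : π' (ψ z) = f (π z) := LinearMap.congr_fun h1 z
    have e2 : π' (s (π z)) = f (π z) := LinearMap.congr_fun hs (π z)
    change π' (ψ z - s (π z)) = 0
    rw [map_sub, e1, e2, sub_self])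
  refine ⟨g, ?_⟩
  ext x
  apply hι'
  have e3 : ι' (g (ι x)) = ψ (ι x) - s (π (ι x)) := LinearMap.congr_fun hg (ι x)
  have e4 : ι' (f' x) = ψ (ι x) := LinearMap.congr_fun h2 x
  rw [LinearMap.comp_apply, e3, e4, (hex (ι x)).mpr ⟨x, rfl⟩, map_zero, sub_zero]

lemma Lifts.sub {f g : K →ₗ[A] L} {f' g' : K' →ₗ[A] L'} (hf : Lifts ι π ι' π' f f')
    (hg : Lifts ι π ι' π' g g') : Lifts ι π ι' π' (f - g) (f' - g') := by
  obtain ⟨x, hx1, hx2⟩ := hf
  obtain ⟨y, hy1, hy2⟩ := hg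
  refine ⟨x - y, ?_, ?_⟩
  · rw [LinearMap.comp_sub, hx1, hy1, LinearMap.sub_comp]
  · rw [LinearMap.sub_comp, ← hx2, ← hy2, LinearMap.comp_sub]

lemma Lifts.id : Lifts ι π ι π (LinearMap.id : K →ₗ[A] K) (LinearMap.id : K' →ₗ[A] K') :=
  ⟨LinearMap.id, rfl, rfl⟩

lemma Lifts.comp {M M' R : Type u} [AddCommGroup M] [Module A M] [AddCommGroup M'] [Module A M']
    [AddCommGroup R] [Module A R] {ι'' : M' →ₗ[A] R} {π'' : R →ₗ[A] M}
    {f : K →ₗ[A] L} {f' : K' →ₗ[A] L'} {g : L →ₗ[A] M} {g' : L' →ₗ[A] M'}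
    (hg : Lifts ι' π' ι'' π'' g g') (hf : Lifts ι π ι' π' f f') :
    Lifts ι π ι'' π'' (g ∘ₗ f) (g' ∘ₗ f') := by
  obtain ⟨x, hx1, hx2⟩ := hf
  obtain ⟨y, hy1, hy2⟩ := hg
  refine ⟨y ∘ₗ x, ?_, ?_⟩
  · rw [← LinearMap.comp_assoc, hy1, LinearMap.comp_assoc, hx1, LinearMap.comp_assoc]
  · rw [← LinearMap.comp_assoc, hy2, LinearMap.comp_assoc, hx2, LinearMap.comp_assoc]

end lift

section res

variable {k : Type u} [Field k] {A : Type u} [Ring A] [Algebra k A] {M : Type u}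
  [AddCommGroup M] [Module A M]

/-- Maps from late syzygies to modules of finite injective dimension extend. -/
lemma extend_of_id (N : ℕ) : ∀ (C : Type u) [AddCommGroup C] [Module k C] [Module A C]
    [IsScalarTower k A C], HasInjectiveDimensionLT (ModuleCat.of A C) (N + 1) →
    ∀ (Q : ProjRes k A M) (j : ℕ), N ≤ j → ∀ φ : Q.K (j + 1) →ₗ[A] C,
      ∃ χ : Q.P j →ₗ[A] C, χ ∘ₗ Q.a j = φ := by
  induction N with
  | zero =>
    intro C _ _ _ _ hC Q j _ φ
    have hinj : Module.Injective A C := id_one_iff.mp hC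
    obtain ⟨h, hh⟩ := hinj.out (Q.a j) (Q.inj j) φ
    exact ⟨h, LinearMap.ext hh⟩
  | succ N ih =>
    intro C _ _ _ _ hC Q j hj φ
    obtain ⟨j', rfl⟩ : ∃ j', j = j' + 1 := ⟨j - 1, by omega⟩
    have hC' : HasInjectiveDimensionLT (ModuleCat.of A (Cosyz k A C)) (N + 1) :=
      (id_step (k := k) N).mp hC
    have hinj : Module.Injective A (CoInd k A C) := CoInd.injective
    obtain ⟨α, hα⟩ := hinj.out (Q.a (j' + 1)) (Q.inj (j' + 1)) (emb k A C ∘ₗ φ)
    obtain ⟨ψ, hψ⟩ := exists_desc (Q.surj (j' + 1)) (proj k A C ∘ₗ α) (by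
      intro z hz
      obtain ⟨x, rfl⟩ := (Q.exact (j' + 1) z).mp hz
      change proj k A C (α (Q.a (j' + 1) x)) = 0
      rw [hα x]
      exact (emb_proj_exact (k := k) (A := A) (M := C) _).mpr ⟨φ x, rfl⟩)
    obtain ⟨χ', hχ'⟩ := ih (Cosyz k A C) hC' Q j' (by omega) ψ
    have hPj := Q.proj j'
    obtain ⟨β, hβ⟩ := Module.projective_lifting_property (proj k A C) χ'
      (proj_surjective (k := k) (A := A) (M := C))
    obtain ⟨χ, hχ⟩ := exists_fac (emb_injective (k := k) (A := A) (M := C))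
      (α - (β ∘ₗ Q.a j') ∘ₗ Q.b (j' + 1)) (by
        intro z
        refine (emb_proj_exact (k := k) (A := A) (M := C) _).mp ?_
        have e1 : proj k A C (α z) = ψ (Q.b (j' + 1) z) := (LinearMap.congr_fun hψ z).symm
        have e2 : ∀ y, proj k A C (β y) = χ' y := LinearMap.congr_fun hβ
        have e3 : χ' (Q.a j' (Q.b (j' + 1) z)) = ψ (Q.b (j' + 1) z) :=
          LinearMap.congr_fun hχ' _
        change proj k A C (α z - β (Q.a j' (Q.b (j' + 1) z))) = 0
        rw [map_sub, e1, e2, e3, sub_self])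
    refine ⟨χ, ?_⟩
    ext x
    apply emb_injective (k := k) (A := A) (M := C)
    have e4 : emb k A C (χ (Q.a (j' + 1) x)) =
        α (Q.a (j' + 1) x) - β (Q.a j' (Q.b (j' + 1) (Q.a (j' + 1) x))) :=
      LinearMap.congr_fun hχ _
    have e5 : Q.b (j' + 1) (Q.a (j' + 1) x) = 0 := (Q.exact (j' + 1) _).mpr ⟨x, rfl⟩
    change emb k A C (χ (Q.a (j' + 1) x)) = emb k A C (φ x)
    rw [e4, e5, map_zero, map_zero, sub_zero]
    exact hα x

/-- The dimension of the stable endomorphism ring of the `i`-th syzygy. -/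
noncomputable def stab (Q : ProjRes k A M) (i : ℕ) : ℕ :=
  Module.finrank k ((Q.K i →ₗ[A] Q.K i) ⧸ NJ (k := k) (Q.K i) (Q.b i))

/-- Stable endomorphisms of late syzygies come from earlier ones. -/
lemma stab_succ_le [Module.Finite k A] {N : ℕ}
    (hA : HasInjectiveDimensionLT (ModuleCat.of A A) (N + 1)) (Q : ProjRes k A M) (j : ℕ)
    (hj : N ≤ j) : stab Q (j + 1) ≤ stab Q j := by
  have hK := finite_K Q
  have hC : HasInjectiveDimensionLT (ModuleCat.of A (Q.P j)) (N + 1) :=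
    id_of_projective (k := k) hA (Q.P j) (Q.proj j)
  let R : Submodule k ((Q.K (j + 1) →ₗ[A] Q.K (j + 1)) × (Q.K j →ₗ[A] Q.K j)) :=
    { carrier := {z | Lifts (Q.a j) (Q.b j) (Q.a j) (Q.b j) z.2 z.1}
      add_mem' := by
        rintro a b ⟨x, hx1, hx2⟩ ⟨y, hy1, hy2⟩
        refine ⟨x + y, ?_, ?_⟩
        · rw [LinearMap.comp_add, hx1, hy1]; rfl
        · change Q.a j ∘ₗ (a.1 + b.1) = _
          rw [LinearMap.comp_add, hx2, hy2, LinearMap.add_comp]
      zero_mem' := ⟨0, by simp, by simp⟩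
      smul_mem' := by
        rintro t a ⟨x, hx1, hx2⟩
        refine ⟨t • x, ?_, ?_⟩
        · ext z
          have e1 : Q.b j (x z) = a.2 (Q.b j z) := LinearMap.congr_fun hx1 z
          change Q.b j (t • x z) = t • a.2 (Q.b j z)
          rw [← e1]
          exact ((Q.b j).restrictScalars k).map_smul t (x z)
        · ext z
          have e1 : Q.a j (a.1 z) = x (Q.a j z) := LinearMap.congr_fun hx2 z
          change Q.a j (t • a.1 z) = t • x (Q.a j z)
          rw [← e1]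
          exact ((Q.a j).restrictScalars k).map_smul t (a.1 z) }
  refine finrank_quot_le_of_rel _ _ R ?_ ?_
  · intro f'
    obtain ⟨f, hf⟩ := exists_lifts_of_extend (ι := Q.a j) (π := Q.b j) (ι' := Q.a j)
      (π' := Q.b j) (Q.exact j) (Q.surj j) (Q.exact j) (extend_of_id (k := k) N (Q.P j) hC Q j hj)
      f'
    exact ⟨f, hf⟩
  · rintro f' f hff ⟨s, hs⟩
    obtain ⟨g, hg⟩ := Lifts.factor (f := f) (f' := f') hff (Q.exact j) (Q.inj j) (Q.exact j) s hs
    have hPj := Q.proj j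
    obtain ⟨h, hh⟩ := Module.projective_lifting_property (Q.b (j + 1)) g (Q.surj (j + 1))
    refine ⟨h ∘ₗ Q.a j, ?_⟩
    change Q.b (j + 1) ∘ₗ (h ∘ₗ Q.a j) = f'
    rw [← LinearMap.comp_assoc, hh, hg]

lemma stab_le [Module.Finite k A] {N : ℕ}
    (hA : HasInjectiveDimensionLT (ModuleCat.of A A) (N + 1)) (Q : ProjRes k A M) (i : ℕ)
    (hi : N ≤ i) : stab Q i ≤ Module.finrank k (Q.K N) * Module.finrank k (Q.K N) := by
  have hK := finite_K Q
  induction i, hi using Nat.le_induction with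
  | base =>
    refine le_trans (Submodule.finrank_quotient_le _) ?_
    exact finrank_hom_le
  | succ i hi ih => exact (stab_succ_le hA Q i hi).trans ih

/-- Two resolutions have stably equivalent syzygies. -/
lemma compare (Q Q' : ProjRes k A M) (i : ℕ) :
    ∃ (x : Q.K i →ₗ[A] Q'.K i) (y : Q'.K i →ₗ[A] Q.K i) (s : Q.K i →ₗ[A] Q.P i),
      Q.b i ∘ₗ s = y ∘ₗ x - LinearMap.id := by
  induction i with
  | zero =>
    refine ⟨(Q.e.trans Q'.e.symm).toLinearMap, (Q'.e.trans Q.e.symm).toLinearMap, 0, ?_⟩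
    ext z
    simp
  | succ i ih =>
    obtain ⟨x, y, s, hs⟩ := ih
    obtain ⟨x', hx'⟩ := exists_lifts (Q.exact i) (Q.proj i) (Q'.inj i) (Q'.exact i) (Q'.surj i) x
    obtain ⟨y', hy'⟩ := exists_lifts (Q'.exact i) (Q'.proj i) (Q.inj i) (Q.exact i) (Q.surj i) y
    have h := (hy'.comp hx').sub (Lifts.id (ι := Q.a i) (π := Q.b i))
    obtain ⟨g, hg⟩ := h.factor (Q.exact i) (Q.inj i) (Q.exact i) s hs
    have hPj := Q.proj i
    obtain ⟨t, ht⟩ := Module.projective_lifting_property (Q.b (i + 1)) g (Q.surj (i + 1))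
    refine ⟨x', y', t ∘ₗ Q.a i, ?_⟩
    rw [← LinearMap.comp_assoc, ht, hg]

/-- The dimension of the stable endomorphism ring does not depend on the resolution. -/
lemma stab_compare (Q Q' : ProjRes k A M) (i : ℕ) : stab Q i ≤ stab Q' i := by
  have hK := finite_K Q
  have hK' := finite_K Q'
  obtain ⟨x, y, s, hs⟩ := compare Q Q' i
  let F : (Q.K i →ₗ[A] Q.K i) →ₗ[k] (Q'.K i →ₗ[A] Q'.K i) :=
    { toFun := fun f => x ∘ₗ f ∘ₗ y
      map_add' := fun f g => by rw [LinearMap.add_comp, LinearMap.comp_add]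
      map_smul' := fun t f => by
        ext z
        exact (x.restrictScalars k).map_smul t (f (y z)) }
  refine finrank_quot_le_of_rel _ _ (LinearMap.graph F) (fun f => ⟨F f, rfl⟩) ?_
  rintro f f' hff ⟨w, hw⟩
  have hff' : f' = x ∘ₗ f ∘ₗ y := hff
  -- `y f' x` factors
  have hPj := Q'.proj i
  obtain ⟨v, hv⟩ := Module.projective_lifting_property (Q.b i) (y ∘ₗ Q'.b i) (Q.surj i)
  have hPi := Q.proj i
  obtain ⟨t, ht⟩ := Module.projective_lifting_property (Q.b i) (f ∘ₗ Q.b i) (Q.surj i)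
  have hw' : ∀ z, Q'.b i (w z) = x (f (y z)) := fun z => by
    have := LinearMap.congr_fun hw z
    rw [hff'] at this
    exact this
  have hs' : ∀ z, Q.b i (s z) = y (x z) - z := LinearMap.congr_fun hs
  have hv' : ∀ z, Q.b i (v z) = y (Q'.b i z) := LinearMap.congr_fun hv
  have ht' : ∀ z, Q.b i (t z) = f (Q.b i z) := LinearMap.congr_fun ht
  refine ⟨v ∘ₗ w ∘ₗ x - s ∘ₗ f ∘ₗ y ∘ₗ x - t ∘ₗ s, ?_⟩
  ext z
  change Q.b i (v (w (x z)) - s (f (y (x z))) - t (s z)) = f z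
  rw [map_sub, map_sub, hv', hw', hs', ht', hs', map_sub]
  abel

end res

end Pool.Agent.GSC
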