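import Pool.Agent.Lib_helper30.GSC.Splice
import Pool.Agent.Lib_helper30.GSC.Bass

set_option autoImplicit false
set_option linter.unusedSectionVars false

/-!
# The number of nonprojective summands of a late syzygy
-/

namespace Pool.Agent.GSC

open CategoryTheory MulOpposite Pool.Agent.Lib_helper54.GSC

universe u

section card

variable {k : Type u} [Field k] {A : Type u} [Ring A] [Algebra k A]
variable {X P : Type u} [AddCommGroup X] [Module k X] [Module A X] [IsScalarTower k A X]
  [Module.Finite k X] [AddCommGroup P] [Module k P] [Module A P] [IsScalarTower k A P]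
  [Module.Finite k P]

/-- The number of nonprojective summands is at most the dimension of the stable endomorphism
ring. -/
theorem card_nonproj_le {t : ℕ} (S : Fin t → Type u) [∀ l, AddCommGroup (S l)]
    [∀ l, Module A (S l)] (e : X ≃ₗ[A] (∀ l, S l)) (π : P →ₗ[A] X)
    (hP : Module.Projective A P) :
    Nat.card {l // ¬ Module.Projective A (S l)} ≤
      Module.finrank k ((X →ₗ[A] X) ⧸ NJ (k := k) X π) := by
  classical
  let E : Fin t → (X →ₗ[A] X) := fun l =>
    e.symm.toLinearMap ∘ₗ LinearMap.single A S l ∘ₗ LinearMap.proj l ∘ₗ e.toLinearMap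
  let v : {l // ¬ Module.Projective A (S l)} → (X →ₗ[A] X) ⧸ NJ (k := k) X π :=
    fun l => (NJ (k := k) X π).mkQ (E l.1)
  have hv : LinearIndependent k v := by
    rw [Fintype.linearIndependent_iff]
    intro g hg l0
    by_contra h0
    apply l0.2
    have h1 : (∑ l, g l • E l.1) ∈ NJ (k := k) X π := by
      rw [← Submodule.Quotient.mk_eq_zero, ← Submodule.mkQ_apply, map_sum, ← hg]
      exact Finset.sum_congr rfl fun l _ => map_smul _ _ _
    obtain ⟨s, hs⟩ := h1
    have hs' : ∀ x, π (s x) = (∑ l, g l • E l.1) x := fun x => by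
      have := LinearMap.congr_fun hs x
      exact this
    -- the retraction
    let i : S l0.1 →ₗ[A] P := s ∘ₗ e.symm.toLinearMap ∘ₗ LinearMap.single A S l0.1
    let r : P →ₗ[A] S l0.1 := LinearMap.proj l0.1 ∘ₗ e.toLinearMap ∘ₗ π
    have hE : ∀ (l : {l // ¬ Module.Projective A (S l)}) (y : S l0.1),
        LinearMap.proj (R := A) (φ := S) l0.1 (e (E l.1 (e.symm (LinearMap.single A S l0.1 y)))) =
          if l = l0 then y else 0 := by
      intro l y
      have e1 : e (E l.1 (e.symm (LinearMap.single A S l0.1 y))) =
          LinearMap.single A S l.1 (LinearMap.single A S l0.1 y l.1) := by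
        change e (e.symm (LinearMap.single A S l.1
          (e (e.symm (LinearMap.single A S l0.1 y)) l.1))) = _
        rw [LinearEquiv.apply_symm_apply, LinearEquiv.apply_symm_apply]
      rw [e1]
      split_ifs with h
      · subst h
        simp
      · have h' : l.1 ≠ l0.1 := fun h' => h (Subtype.ext h')
        simp [Pi.single_apply, h', h'.symm]
    have hir : ∀ y, r (i y) = algebraMap k A (g l0) • y := by
      intro y
      change LinearMap.proj (R := A) (φ := S) l0.1
        (e (π (s (e.symm (LinearMap.single A S l0.1 y))))) = _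
      rw [hs', LinearMap.sum_apply, map_sum, map_sum]
      rw [Finset.sum_eq_single l0]
      · have e2 : (g l0 • E l0.1) (e.symm (LinearMap.single A S l0.1 y)) =
            algebraMap k A (g l0) • E l0.1 (e.symm (LinearMap.single A S l0.1 y)) := by
          rw [LinearMap.smul_apply, algebraMap_smul]
        rw [e2, map_smul, map_smul, hE, if_pos rfl]
      · intro l _ hl
        have e2 : (g l • E l.1) (e.symm (LinearMap.single A S l0.1 y)) =
            algebraMap k A (g l) • E l.1 (e.symm (LinearMap.single A S l0.1 y)) := by
          rw [LinearMap.smul_apply, algebraMap_smul]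
        rw [e2, map_smul, map_smul, hE, if_neg hl, smul_zero]
      · intro h
        exact absurd (Finset.mem_univ l0) h
    have hc : ∀ (a : A) (y : S l0.1), algebraMap k A (g l0)⁻¹ • (a • y) =
        a • (algebraMap k A (g l0)⁻¹ • y) := by
      intro a y
      rw [← mul_smul, ← mul_smul, Algebra.commutes]
    let u : S l0.1 →ₗ[A] S l0.1 :=
      { toFun := fun y => algebraMap k A (g l0)⁻¹ • y
        map_add' := fun y z => smul_add _ _ _
        map_smul' := fun a y => hc a y }
    refine Module.Projective.of_split i (u ∘ₗ r) ?_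
    ext y
    change algebraMap k A (g l0)⁻¹ • (r (i y)) = y
    rw [hir, ← mul_smul, ← map_mul, inv_mul_cancel₀ h0, map_one, one_smul]
  have h2 := hv.fintype_card_le_finrank
  rwa [← Nat.card_eq_fintype_card] at h2

/-- Sorting the summands. -/
theorem exists_split {t : ℕ} (S : Fin t → Type u) [∀ l, AddCommGroup (S l)]
    [∀ l, Module k (S l)] [∀ l, Module A (S l)] [∀ l, IsScalarTower k A (S l)]
    [∀ l, Module.Finite k (S l)] (c : ℕ) (hc : ∀ l, Module.finrank k (S l) ≤ c)
    (e : X ≃ₗ[A] (∀ l, S l)) :
    ∃ (Y P' : Type u) (_ : AddCommGroup Y) (_ : Module k Y) (_ : Module A Y)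
      (_ : IsScalarTower k A Y) (_ : Module.Finite k Y) (_ : AddCommGroup P') (_ : Module k P')
      (_ : Module A P') (_ : IsScalarTower k A P') (_ : Module.Finite k P'),
      Module.Projective A P' ∧ Nonempty (X ≃ₗ[A] Y × P') ∧
      Module.finrank k Y ≤ Nat.card {l // ¬ Module.Projective A (S l)} * c := by
  classical
  refine ⟨∀ l : {l // ¬ Module.Projective A (S l)}, S l.1,
    ∀ l : {l // ¬ ¬ Module.Projective A (S l)}, S l.1, inferInstance, inferInstance,
    inferInstance, inferInstance, inferInstance, inferInstance, inferInstance, inferInstance,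
    inferInstance, inferInstance, ?_, ?_, ?_⟩
  · have h : ∀ l : {l // ¬ ¬ Module.Projective A (S l)}, Module.Projective A (S l.1) :=
      fun l => not_not.mp l.2
    have e2 : (DirectSum {l // ¬ ¬ Module.Projective A (S l)} fun l => S l.1) ≃ₗ[A]
        (∀ l : {l // ¬ ¬ Module.Projective A (S l)}, S l.1) :=
      DirectSum.linearEquivFunOnFintype A {l // ¬ ¬ Module.Projective A (S l)} (fun l => S l.1)
    have h2 : Module.Projective A
        (DirectSum {l // ¬ ¬ Module.Projective A (S l)} fun l => S l.1) :=
      inferInstanceAs (Module.Projective A (Π₀ l : {l // ¬ ¬ Module.Projective A (S l)}, S l.1))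
    exact Module.Projective.of_equiv e2
  · let w : (∀ l, S l) ≃ₗ[A] (∀ l : {l // ¬ Module.Projective A (S l)}, S l.1) ×
        (∀ l : {l // ¬ ¬ Module.Projective A (S l)}, S l.1) :=
      { toFun := fun f => (fun l => f l.1, fun l => f l.1)
        map_add' := fun f g => rfl
        map_smul' := fun a f => rfl
        invFun := fun z l => if h : ¬ Module.Projective A (S l) then z.1 ⟨l, h⟩ else z.2 ⟨l, h⟩
        left_inv := fun f => by
          funext l
          by_cases h : ¬ Module.Projective A (S l)
          · simp only [dif_pos h]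
          · simp only [dif_neg h]
        right_inv := fun z => by
          refine Prod.ext ?_ ?_
          · funext l
            exact dif_pos l.2
          · funext l
            exact dif_neg l.2 }
    exact ⟨e.trans w⟩
  · rw [Module.finrank_pi_fintype, Nat.card_eq_fintype_card, ← Finset.card_univ,
      ← smul_eq_mul]
    exact Finset.sum_le_card_nsmul _ _ _ fun l _ => hc l.1

end card

section small

variable {k : Type u} [Field k] {A : Type u} [Ring A] [Algebra k A] [Module.Finite k A]

/-- The terms of the essential coresolution are small. -/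
theorem InjRes.finrank_J_le {M : Type u} [AddCommGroup M] [Module k M] [Module A M]
    [IsScalarTower k A M] [Module.Finite k M] (R : InjRes k A M)
    (hess : ∀ i, ∀ S : Submodule A (R.J i), S ≠ ⊥ → S ⊓ LinearMap.range (R.f i) ≠ ⊥) (i : ℕ) :
    Module.finrank k (R.J i) ≤ Module.finrank k A * Module.finrank k (R.X i) := by
  have hart : IsArtinianRing A := IsArtinianRing.of_finite k A
  have hX := finite_X R i
  have h1 : Module.finrank k (R.J i) ≤ Module.finrank k A * Module.finrank k (soc A (R.J i)) :=
    finrank_le_soc
  have hfs : Module.Finite k (soc A (R.X i)) :=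
    Module.Finite.of_injective ((soc A (R.X i)).subtype.restrictScalars k)
      (soc A (R.X i)).injective_subtype
  have h2 : Module.finrank k (soc A (R.J i)) ≤ Module.finrank k (R.X i) := by
    have h3 : ∀ m : soc A (R.J i), (m : R.J i) ∈ LinearMap.range ((R.f i).restrictScalars k) := by
      intro m
      obtain ⟨a, ha⟩ := soc_le_of_essential (R.f i) (hess i) m.2
      exact ⟨a, ha⟩
    have h4 : Module.finrank k (soc A (R.J i)) ≤
        Module.finrank k (LinearMap.range ((R.f i).restrictScalars k)) :=
      LinearMap.finrank_le_finrank_of_injective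
        (f := LinearMap.codRestrict _ ((soc A (R.J i)).subtype.restrictScalars k) h3)
        (fun a b h => Subtype.ext (congrArg
          (fun z : LinearMap.range ((R.f i).restrictScalars k) => (z : R.J i)) h))
    exact h4.trans (LinearMap.finrank_range_le _)
  exact h1.trans (Nat.mul_le_mul_left _ h2)

lemma InjRes.finrank_X_succ_le {M : Type u} [AddCommGroup M] [Module A M] (R : InjRes k A M)
    (i : ℕ) : Module.finrank k (R.X (i + 1)) ≤ Module.finrank k (R.J i) :=
  LinearMap.finrank_le_finrank_of_surjective (f := (R.g i).restrictScalars k) (R.surj i)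

/-- A resolution with small terms. -/
theorem exists_smallRes (k A : Type u) [Field k] [Ring A] [Algebra k A] [Module.Finite k A]
    (M : Type u) [AddCommGroup M] [Module k M] [Module A M] [IsScalarTower k A M]
    [Module.Finite k M] : ∃ Q : ProjRes k A M, ∀ i,
      Module.finrank k (Q.P i) ≤ Module.finrank k A ^ (i + 1) * Module.finrank k M := by
  have hop : Module.finrank k Aᵐᵒᵖ = Module.finrank k A :=
    (MulOpposite.opLinearEquiv k (M := A)).symm.finrank_eq
  have hfop : Module.Finite k Aᵐᵒᵖ := Module.Finite.equiv (MulOpposite.opLinearEquiv k (M := A))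
  let θ : A ≃ₐ[k] Aᵐᵒᵖᵐᵒᵖ := AlgEquiv.opOp k A
  obtain ⟨R, hR⟩ := exists_injRes k Aᵐᵒᵖ (D (flat θ) M)
  refine ⟨R.dual θ, fun i => ?_⟩
  rw [InjRes.finrank_dual]
  induction i with
  | zero =>
    have h1 := R.finrank_J_le hR 0
    have h2 : Module.finrank k (R.X 0) = Module.finrank k M := by
      rw [(R.e.restrictScalars k).finrank_eq, finrank_D]
    rw [h2, hop] at h1
    rwa [zero_add, pow_one]
  | succ i ih =>
    have h1 := R.finrank_J_le hR (i + 1)
    rw [hop] at h1
    refine h1.trans ?_
    rw [pow_succ' _ (i + 1), mul_assoc]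
    exact Nat.mul_le_mul_left _ ((R.finrank_X_succ_le i).trans ih)

end small

end Pool.Agent.GSC
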