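import Pool.Agent.Lib_helper30.GSC.Summ

set_option autoImplicit false
set_option linter.unusedSectionVars false

/-!
# Late syzygies which are direct sums of short modules
-/

namespace Pool.Agent.GSC

open CategoryTheory MulOpposite Pool.Agent.Lib_helper54.GSC

universe u

/-- The main step. -/
theorem exists_small_of_sum {k : Type u} [Field k] {A : Type u} [Ring A] [Algebra k A]
    [Module.Finite k A] {M : Type u} [AddCommGroup M] [Module A M] (Q : ProjRes k A M) (i c T : ℕ)
    (hT : stab Q i ≤ T) (hs : SumOfSmall k A c (Q.K i)) :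
    ∃ F : ProjRes k A M, Module.finrank k (F.P (i + 1)) ≤ Module.finrank k A ^ 2 * (T * c) := by
  classical
  have hK := finite_K Q
  obtain ⟨t, S, hS, hd⟩ := hs
  let e1 : (DirectSum (Fin t) fun i => S i) ≃ₗ[A] Q.K i :=
    LinearEquiv.ofBijective (DirectSum.coeLinearMap S) hS
  let e2 : (DirectSum (Fin t) fun i => S i) ≃ₗ[A] (∀ i, S i) :=
    DirectSum.linearEquivFunOnFintype A (Fin t) (fun i => S i)
  let e : Q.K i ≃ₗ[A] (∀ i, S i) := e1.symm.trans e2
  have hf : ∀ l, Module.Finite k (S l) := fun l =>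
    Module.Finite.of_injective ((S l).subtype.restrictScalars k) (S l).injective_subtype
  have hcard := card_nonproj_le (k := k) (fun l => S l) e (Q.b i) (Q.proj i)
  obtain ⟨Y, P', _, _, _, _, _, _, _, _, _, _, hP', ⟨e'⟩, hY⟩ :=
    exists_split (k := k) (fun l => S l) c hd e
  obtain ⟨G, hG⟩ := exists_smallRes k A Y
  obtain ⟨F, hF⟩ := exists_addProj G hP' e'
  obtain ⟨F', hF'⟩ := exists_splice Q i F
  refine ⟨F', ?_⟩
  rw [hF' 1, hF 0]
  refine (hG 1).trans (Nat.mul_le_mul_left _ (hY.trans (Nat.mul_le_mul_right c ?_)))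
  exact hcard.trans hT

/-- The theorem, in the bundled form. -/
theorem syz_bundled (n c : ℕ) : ∃ m : ℕ, ∀ (k A : Type u) [Field k] [Ring A] [Algebra k A]
    [Module.Finite k A], Module.finrank k A = n →
    (∃ p, HasInjectiveDimensionLT (ModuleCat.of A A) p) →
    ∀ (Q : ProjRes k A (A ⧸ Ring.jacobson A)) (i : ℕ), m ≤ i → SumOfSmall k A c (Q.K i) →
      ∃ p, HasInjectiveDimensionLT (ModuleCat.of Aᵐᵒᵖ A) p := by
  obtain ⟨N, hN⟩ := uniform_id.{u} n
  let b : ℕ := n ^ (N + 1) * n
  obtain ⟨m, hm⟩ := betti_both.{u} h6Stmt n (n ^ 2 * ((b * b) * c))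
  refine ⟨max N m, ?_⟩
  intro k A _ _ _ _ hA hL Q i hi hs
  have hL' : HasInjectiveDimensionLT (ModuleCat.of A A) (N + 1) := by
    rcases (hN k A hA).1 with h | h
    · exact absurd hL ((injDim_eq_top_iff _).mp h)
    · exact (injectiveDimension_le_iff _ _).mp h
  obtain ⟨G, hG⟩ := exists_smallRes k A (A ⧸ Ring.jacobson A)
  have hGN : Module.finrank k (G.K N) ≤ b := by
    have h1 : Module.finrank k (G.K N) ≤ Module.finrank k (G.P N) :=
      LinearMap.finrank_le_finrank_of_surjective (f := (G.b N).restrictScalars k) (G.surj N)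
    have h2 : Module.finrank k (A ⧸ Ring.jacobson A) ≤ n := by
      rw [← hA]
      exact LinearMap.finrank_le_finrank_of_surjective
        (f := ((Ring.jacobson A).mkQ).restrictScalars k) (Submodule.mkQ_surjective _)
    refine h1.trans ((hG N).trans ?_)
    rw [hA]
    exact Nat.mul_le_mul_left _ h2
  have hT : stab Q i ≤ b * b :=
    (stab_compare Q G i).trans ((stab_le hL' G i (le_trans (le_max_left _ _) hi)).trans
      (Nat.mul_le_mul hGN hGN))
  obtain ⟨F, hF⟩ := exists_small_of_sum Q i c (b * b) hT hs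
  rw [hA] at hF
  exact (hm k A hA F (i + 1) (by have := le_trans (le_max_right N m) hi; omega) hF).mp hL

/-- The bridge, with the syzygies. -/
theorem exists_projRes_ker {k B : Type u} [Field k] [Ring B] [Algebra k B] [Module.Finite k B]
    {M : Type u} [AddCommGroup M] [Module k M] [Module B M]
    [IsScalarTower k B M] (P : ProjectiveResolution (ModuleCat.of B M))
    (hP : ∀ i, Module.Finite B (P.complex.X i)) :
    ∃ Q : ProjRes k B M, ∀ i, Nonempty (Q.P i ≃ₗ[B] P.complex.X i) ∧
      Nonempty (Q.K (i + 2) ≃ₗ[B] LinearMap.ker (P.complex.d (i + 1) i).hom) := by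
  let _ : ∀ i, Module k (P.complex.X i) := fun i => Module.compHom _ (algebraMap k B)
  have _ : ∀ i, IsScalarTower k B (P.complex.X i) := fun i =>
    IsScalarTower.of_algebraMap_smul fun _ _ => rfl
  let D0 : P.complex.X 0 →ₗ[B] M := (P.π.f 0).hom
  let D : ∀ i, P.complex.X (i + 1) →ₗ[B] P.complex.X i := fun i => (P.complex.d (i + 1) i).hom
  have hs : Function.Surjective D0 := (ModuleCat.epi_iff_surjective (P.π.f 0)).1 inferInstance
  have ex0 : Function.Exact (D 0) D0 :=
    (ShortComplex.ShortExact.moduleCat_exact_iff_function_exact _).1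
      (ShortComplex.exact_of_g_is_cokernel
        (ShortComplex.mk (P.complex.d 1 0) (P.π.f 0) P.complex_d_comp_π_f_zero)
        P.isColimitCokernelCofork)
  have ex : ∀ i, Function.Exact (D (i + 1)) (D i) := fun i =>
    (ShortComplex.ShortExact.moduleCat_exact_iff_function_exact _).1 (P.exact_succ i)
  have hfin : ∀ i, Module.Finite k (P.complex.X i) := fun i =>
    Module.Finite.trans B (P.complex.X i)
  have hproj : ∀ i, Module.Projective B (P.complex.X i) := fun i =>
    (IsProjective.iff_projective (P.complex.X i)).2 (P.projective i)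
  exact ⟨mkProjRes (k := k) (P := fun i => (P.complex.X i : Type u)) (D0 := D0) (D := D) hfin
    hproj hs ex0 ex, fun i => ⟨⟨LinearEquiv.refl B _⟩, ⟨LinearEquiv.refl B _⟩⟩⟩

/-- The theorem, with the resolutions of Mathlib. -/
theorem syz_final (n c : ℕ) : ∃ m : ℕ, ∀ (k A : Type u) [Field k] [Ring A]
    [Algebra k A] [Module.Finite k A], Module.finrank k A = n →
    injectiveDimension (ModuleCat.of A A) ≠ ⊤ →
    ∀ (P : ProjectiveResolution (ModuleCat.of A (A ⧸ Ring.jacobson A))),
      (∀ i, Module.Finite A (P.complex.X i)) → ∀ i : ℕ, m ≤ i →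
      SumOfShort A c (LinearMap.ker (P.complex.d (i + 1) i).hom) →
      injectiveDimension (ModuleCat.of Aᵐᵒᵖ A) ≠ ⊤ := by
  obtain ⟨m, hm⟩ := syz_bundled.{u} n (n * c)
  refine ⟨m, ?_⟩
  intro k A _ _ _ _ hA hL P hP i hi hs
  obtain ⟨Q, hQ⟩ := exists_projRes_ker (k := k) P hP
  obtain ⟨-, ⟨e⟩⟩ := hQ i
  have h1 := (hs.of_equiv e).sumOfSmall (k := k)
  rw [hA] at h1
  have hL' : ∃ p, HasInjectiveDimensionLT (ModuleCat.of A A) p := by
    by_contra h'
    exact hL ((injDim_eq_top_iff _).mpr h')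
  intro h5
  exact (injDim_eq_top_iff _).mp h5 (hm k A hA hL' Q (i + 2) (by omega) h1)

end Pool.Agent.GSC
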