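import Pool.Agent.Lib_helper30.GSC.Ultra

set_option autoImplicit false

/-!
# Transfer between characteristics: algebras
-/

namespace Pool.Agent.GSC

open Matrix Module CategoryTheory

universe u

lemma eq_of_nat {a x : WithBot ℕ∞} (h : ∀ n : ℕ, a < n ↔ x < n) : a = x := by
  have key : ∀ {a x : WithBot ℕ∞}, (∀ n : ℕ, a < n ↔ x < n) → a ≤ x := by
    intro a x h
    by_contra hlt
    rw [not_le] at hlt
    induction x with
    | bot =>
      have h1 : (⊥ : WithBot ℕ∞) < ((0 : ℕ) : WithBot ℕ∞) := by simp
      have h2 := (h 0).mpr h1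
      have h3 : a < ((⊥ : ℕ∞) : WithBot ℕ∞) := h2
      rw [WithBot.lt_coe_bot] at h3
      rw [h3] at hlt
      exact lt_irrefl _ hlt
    | coe x =>
      induction x with
      | top => exact not_top_lt hlt
      | coe j =>
        have h1 : ((j : ℕ∞) : WithBot ℕ∞) < ((j + 1 : ℕ) : WithBot ℕ∞) := by
          have : (((j : ℕ∞) : WithBot ℕ∞)) = ((j : ℕ) : WithBot ℕ∞) := rfl
          rw [this]
          exact_mod_cast Nat.lt_succ_self j
        have h2 := (h (j + 1)).mpr h1
        have h3 : a ≤ ((j : ℕ) : WithBot ℕ∞) := by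
          rw [← ENat.WithBot.lt_add_one_iff]
          exact_mod_cast h2
        exact absurd hlt (not_lt.mpr h3)
  exact le_antisymm (key h) (key fun n => (h n).symm)

/-- From an algebra to structure constants. -/
lemma pack {K A : Type u} [Field K] [Ring A] [Algebra K A] [Module.Finite K A] {d : ℕ}
    (hd : Module.finrank K A = d + 1) : ∃ (e : Fin d → Fin d → K) (c : Fin d → Fin d → Fin d → K),
      IsAlg e c ∧
      (∀ n : ℕ, InjLE c n (Option (Fin d)) (regL e c) ↔
        injectiveDimension (ModuleCat.of A A) < ((n + 1 : ℕ) : WithBot ℕ∞)) ∧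
      (∀ n : ℕ, InjLE (fun i j l => c j i l) n (Option (Fin d))
        (regL (fun i j => e j i) (fun i j l => c j i l)) ↔
        injectiveDimension (ModuleCat.of Aᵐᵒᵖ A) < ((n + 1 : ℕ) : WithBot ℕ∞)) := by
  have hnt : Nontrivial A := Module.nontrivial_of_finrank_pos (R := K) (by omega)
  obtain ⟨b, hb⟩ := Pool.Agent.Lib_helper54.GSC.exists_basis_one hd
  refine ⟨est b, cst b, isAlg_cst hb, fun n => ?_, fun n => ?_⟩
  · rw [← left_iff hb, injectiveDimension_lt_iff]
  · rw [← right_iff hb, injectiveDimension_lt_iff]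

/-- From structure constants to an algebra. -/
lemma unpack {K : Type u} [Field K] {d : ℕ} {e : Fin d → Fin d → K}
    {c : Fin d → Fin d → Fin d → K} (hA : IsAlg e c) {x y : WithBot ℕ∞}
    (hx : ¬ x < ((0 : ℕ) : WithBot ℕ∞)) (hy : ¬ y < ((0 : ℕ) : WithBot ℕ∞))
    (h1 : ∀ n : ℕ, InjLE c n (Option (Fin d)) (regL e c) ↔ x < ((n + 1 : ℕ) : WithBot ℕ∞))
    (h2 : ∀ n : ℕ, InjLE (fun i j l => c j i l) n (Option (Fin d))
        (regL (fun i j => e j i) (fun i j l => c j i l)) ↔ y < ((n + 1 : ℕ) : WithBot ℕ∞)) :
    ∃ (A : Type u) (_ : Ring A) (_ : Algebra K A), Module.Finite K A ∧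
      Module.finrank K A = d + 1 ∧ injectiveDimension (ModuleCat.of A A) = x ∧
      injectiveDimension (ModuleCat.of Aᵐᵒᵖ A) = y := by
  let b := realBasis hA
  have hb : b none = 1 := realBasis_one hA
  have hnt : Nontrivial (realAlg hA) := ⟨b none, 0, b.ne_zero none⟩
  have eb : est b = e := est_real hA
  have cb : cst b = c := cst_real hA
  have hz1 : ¬ Limits.IsZero (ModuleCat.of (realAlg hA) (realAlg hA)) := by
    rw [ModuleCat.isZero_iff_subsingleton]
    exact not_subsingleton _
  have hz2 : ¬ Limits.IsZero (ModuleCat.of (realAlg hA)ᵐᵒᵖ (realAlg hA)) := by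
    rw [ModuleCat.isZero_iff_subsingleton]
    exact not_subsingleton _
  refine ⟨realAlg hA, inferInstance, inferInstance, Module.Finite.of_basis b, ?_, ?_, ?_⟩
  · rw [Module.finrank_eq_card_basis b]
    simp
  · refine eq_of_nat fun n => ?_
    rw [injectiveDimension_lt_iff]
    rcases n with _ | n
    · rw [hasInjectiveDimensionLT_zero_iff_isZero]
      exact ⟨fun h => absurd h hz1, fun h => absurd h hx⟩
    · rw [left_iff hb n, eb, cb, h1]
  · refine eq_of_nat fun n => ?_
    rw [injectiveDimension_lt_iff]
    rcases n with _ | n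
    · rw [hasInjectiveDimensionLT_zero_iff_isZero]
      exact ⟨fun h => absurd h hz2, fun h => absurd h hy⟩
    · rw [right_iff hb n, eb, cb, h2]

/-- The functions that vanish at all but finitely many points. -/
def finSupp {ι : Type u} (F : ι → Type u) [∀ i, Field (F i)] : Ideal (∀ i, F i) where
  carrier := {x | {t | x t ≠ 0}.Finite}
  zero_mem' := by simp
  add_mem' := by
    intro x y hx hy
    refine (hx.union hy).subset fun t ht => ?_
    by_contra hcon
    simp only [Set.mem_union, Set.mem_ofPred_eq, not_or, not_not] at hcon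
    exact ht (by rw [Pi.add_apply, hcon.1, hcon.2, add_zero])
  smul_mem' := by
    intro a x hx
    refine hx.subset fun t ht => ?_
    intro h0
    exact ht (by rw [smul_eq_mul, Pi.mul_apply, h0, mul_zero])

/-- Algebras with the same self-injective dimensions in infinitely many characteristics. -/
theorem to_char_zero (d : ℕ) (x y : WithBot ℕ∞) (S : Set ℕ) (hS : S.Infinite)
    (h : ∀ p ∈ S, p.Prime ∧ ∃ (F B : Type) (_ : Field F) (_ : Ring B) (_ : Algebra F B),
      CharP F p ∧ Module.Finite F B ∧ Module.finrank F B = d ∧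
      injectiveDimension (ModuleCat.of B B) = x ∧
      injectiveDimension (ModuleCat.of Bᵐᵒᵖ B) = y) :
    ∃ (K A : Type) (_ : Field K) (_ : Ring A) (_ : Algebra K A),
      CharZero K ∧ Module.Finite K A ∧ Module.finrank K A = d ∧
      injectiveDimension (ModuleCat.of A A) = x ∧
      injectiveDimension (ModuleCat.of Aᵐᵒᵖ A) = y := by
  classical
  rcases d with _ | d
  · obtain ⟨p, hp⟩ := hS.nonempty
    obtain ⟨_, F, B, _, _, _, _, _, hd, h1, h2⟩ := h p hp
    have hB : Subsingleton B := Module.finrank_zero_iff.mp hd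
    obtain ⟨h3, h4⟩ := injDim_of_subsingleton B
    obtain ⟨h5, h6⟩ := injDim_of_subsingleton PUnit.{1}
    refine ⟨ℚ, PUnit.{1}, inferInstance, inferInstance, inferInstance, inferInstance,
      inferInstance, Module.finrank_zero_of_subsingleton, ?_, ?_⟩
    · rw [h5, ← h1, h3]
    · rw [h6, ← h2, h4]
  · have hx0 : ¬ x < ((0 : ℕ) : WithBot ℕ∞) ∧ ¬ y < ((0 : ℕ) : WithBot ℕ∞) := by
      obtain ⟨p, hp⟩ := hS.nonempty
      obtain ⟨_, F, B, _, _, _, _, _, hd, h1, h2⟩ := h p hp
      have hnt : Nontrivial B := Module.nontrivial_of_finrank_pos (R := F) (by omega)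
      rw [← h1, ← h2, injectiveDimension_lt_iff, injectiveDimension_lt_iff,
        hasInjectiveDimensionLT_zero_iff_isZero, hasInjectiveDimensionLT_zero_iff_isZero,
        ModuleCat.isZero_iff_subsingleton, ModuleCat.isZero_iff_subsingleton]
      exact ⟨not_subsingleton _, not_subsingleton _⟩
    have h' : ∀ t : S, ∃ (F : Type) (_ : Field F) (e : Fin d → Fin d → F)
        (c : Fin d → Fin d → Fin d → F), CharP F t ∧ IsAlg e c ∧
        (∀ n : ℕ, InjLE c n (Option (Fin d)) (regL e c) ↔ x < ((n + 1 : ℕ) : WithBot ℕ∞)) ∧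
        (∀ n : ℕ, InjLE (fun i j l => c j i l) n (Option (Fin d))
          (regL (fun i j => e j i) (fun i j l => c j i l)) ↔
            y < ((n + 1 : ℕ) : WithBot ℕ∞)) := by
      intro t
      obtain ⟨_, F, B, i1, _, _, hF, _, hd, h1, h2⟩ := h t t.2
      obtain ⟨e, c, hA, h3, h4⟩ := pack hd
      rw [h1] at h3
      rw [h2] at h4
      exact ⟨F, i1, e, c, hF, hA, h3, h4⟩
    choose F iF e c hch hA h1 h2 using h'
    have hI : finSupp F ≠ ⊤ := by
      rw [Ne, Ideal.eq_top_iff_one]
      intro h1
      have h2 : {t : S | (1 : ∀ t, F t) t ≠ 0}.Finite := h1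
      have h3 : {t : S | (1 : ∀ t, F t) t ≠ 0} = Set.univ := by
        ext t
        simp
      rw [h3, Set.finite_univ_iff] at h2
      exact hS (Set.toFinite S)
    obtain ⟨M, hM, hIM⟩ := Ideal.exists_le_maximal _ hI
    let _ : Field ((∀ t, F t) ⧸ M) := Ideal.Quotient.field M
    -- characteristic zero
    have hcz : CharZero ((∀ t, F t) ⧸ M) := by
      refine charZero_of_inj_zero fun n hn => ?_
      by_contra hn0
      have hnM : ((n : ℕ) : ∀ t, F t) ∈ M := by
        rw [← Ideal.Quotient.eq_zero_iff_mem, map_natCast]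
        exact hn
      let z : ∀ t, F t := fun t => if ((n : ℕ) : F t) = 0 then 1 else 0
      have hz : z ∈ M := by
        apply hIM
        have hfin : {t : S | ((t : ℕ)) ∣ n}.Finite := by
          have h3 : (n.divisors : Set ℕ).Finite := n.divisors.finite_toSet
          have h4 := h3.preimage (f := fun t : S => (t : ℕ)) Subtype.val_injective.injOn
          refine h4.subset fun t ht => ?_
          simp only [Set.mem_preimage, Finset.mem_coe, Nat.mem_divisors]
          exact ⟨ht, hn0⟩
        refine hfin.subset fun t ht => ?_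
        have h5 : ((n : ℕ) : F t) = 0 := by
          by_contra h6
          apply ht
          simp only [z, h6, if_false]
        exact (CharP.cast_eq_zero_iff (F t) (t : ℕ) n).mp h5
      apply hM.ne_top
      rw [Ideal.eq_top_iff_one]
      have h6 : (1 : ∀ t, F t) = (fun t => ((((n : ℕ) : ∀ t, F t) + z) t)⁻¹) *
          (((n : ℕ) : ∀ t, F t) + z) := by
        funext t
        rw [Pi.mul_apply, Pi.one_apply]
        refine (inv_mul_cancel₀ ?_).symm
        have h7 : ((n : ℕ) : ∀ t, F t) t = ((n : ℕ) : F t) := rfl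
        rw [Pi.add_apply, h7]
        by_cases h8 : ((n : ℕ) : F t) = 0
        · simp [z, h8]
        · simp [z, h8]
      rw [h6]
      exact Ideal.mul_mem_left _ _ (Ideal.add_mem _ hnM hz)
    -- the structure constants
    let E : Fin d → Fin d → (∀ t, F t) := fun i j t => e t i j
    let C : Fin d → Fin d → Fin d → (∀ t, F t) := fun i j l t => c t i j l
    have hAR : IsAlg E C := by
      constructor
      · intro i j l
        funext t
        have := (hA t).unit i j l
        simpa only [Finset.sum_apply, Pi.mul_apply, E, C] using this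
      · intro i j l s
        funext t
        have := (hA t).assoc i j l s
        have e1 : ∀ (P : Prop) [Decidable P], (if P then (1 : ∀ t, F t) else 0) t =
            if P then (1 : F t) else 0 := by
          intro P _
          split_ifs <;> rfl
        simp only [Finset.sum_apply, Pi.mul_apply, Pi.add_apply, e1, E, C]
        exact this
    have hAK := hAR.map (Ideal.Quotient.mk M)
    have side : ∀ (E' : Fin d → Fin d → (∀ t, F t)) (C' : Fin d → Fin d → Fin d → (∀ t, F t))
        (w : WithBot ℕ∞), (∀ (t : S) (n : ℕ), InjLE (fun i j l => C' i j l t) n (Option (Fin d))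
          (regL (fun i j => E' i j t) (fun i j l => C' i j l t)) ↔
            w < ((n + 1 : ℕ) : WithBot ℕ∞)) → ∀ n : ℕ,
        (InjLE (fun i j l => Ideal.Quotient.mk M (C' i j l)) n (Option (Fin d))
          (regL (fun i j => Ideal.Quotient.mk M (E' i j))
            (fun i j l => Ideal.Quotient.mk M (C' i j l))) ↔
            w < ((n + 1 : ℕ) : WithBot ℕ∞)) := by
      intro E' C' w hw n
      constructor
      · intro h3
        have h4 : InjLE (fun i j l => Ideal.Quotient.mk M (C' i j l)) n (Option (Fin d))
            (fun l => (regL E' C' l).map (Ideal.Quotient.mk M)) := by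
          simp only [regL_map]
          exact h3
        obtain ⟨t, ht⟩ := injLE_quot M hM.ne_top n _ C' (regL E' C') h4
        simp only [regL_map] at ht
        exact (hw t n).mp ht
      · intro h3
        have h4 : InjLE C' n (Option (Fin d)) (regL E' C') := by
          refine injLE_pi n _ C' (regL E' C') fun t => ?_
          simp only [regL_map]
          exact (hw t n).mpr h3
        have h5 := injLE_map (Ideal.Quotient.mk M) n _ C' _ h4
        simp only [regL_map] at h5
        exact h5
    obtain ⟨A, i1, i2, h3, h4, h5, h6⟩ := unpack hAK hx0.1 hx0.2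
      (side E C x fun t n => h1 t n)
      (side (fun i j => E j i) (fun i j l => C j i l) y fun t n => h2 t n)
    exact ⟨(∀ t, F t) ⧸ M, A, inferInstance, i1, i2, hcz, h3, h4, h5, h6⟩

end Pool.Agent.GSC
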