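import Pool.Agent.Lib_helper30.GSC.Class
import Pool.Agent.Lib_helper54.GSC.H7
import Pool.Agent.Lib_helper21.GSC.Bridge

set_option autoImplicit false

/-!
# The Betti class, with the resolutions of Mathlib
-/

namespace Pool.Agent.GSC

open CategoryTheory MulOpposite Pool.Agent.Lib_helper54.GSC

universe u

theorem h6Stmt : H6Stmt.{u} :=
  fun _ _ _ _ _ _ _ _ _ _ _ _ R hR Q i => Pool.Agent.Lib_helper54.GSC.H6 R hR Q i

lemma injDim_eq_top_iff {C : Type*} [Category C] [Abelian C] (X : C) :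
    injectiveDimension X = ⊤ ↔ ¬ ∃ p, HasInjectiveDimensionLT X p := by
  constructor
  · rintro h ⟨p, hp⟩
    exact (injectiveDimension_ne_top_iff X).mpr
      ⟨p, hasInjectiveDimensionLT_of_ge X p (p + 1) (Nat.le_succ p)⟩ h
  · intro h
    by_contra h'
    obtain ⟨n, hn⟩ := (injectiveDimension_ne_top_iff X).mp h'
    exact h ⟨n + 1, hn⟩

/-- The Betti numbers. -/
theorem betti_final (n c : ℕ) : ∃ m : ℕ, ∀ (k A : Type u) [Field k] [Ring A]
    [Algebra k A] [Module.Finite k A], Module.finrank k A = n →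
    ∀ (P : ProjectiveResolution (ModuleCat.of A (A ⧸ Ring.jacobson A))),
      (∀ i, Module.Finite A (P.complex.X i)) → ∀ i : ℕ, m ≤ i →
      Module.length A (P.complex.X i) ≤ c →
      (injectiveDimension (ModuleCat.of A A) = ⊤ ↔
        injectiveDimension (ModuleCat.of Aᵐᵒᵖ A) = ⊤) := by
  obtain ⟨m, hm⟩ := betti_both.{u} h6Stmt n (n * c)
  refine ⟨m, ?_⟩
  intro k A _ _ _ _ hA P hP i hi hc
  obtain ⟨Q, hQ⟩ := exists_projRes (k := k) P hP
  have h1 := (hQ i).2 c hc
  rw [hA] at h1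
  have h2 := hm k A hA Q i hi h1
  rw [injDim_eq_top_iff, injDim_eq_top_iff, h2]

end Pool.Agent.GSC
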