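import Pool.Agent.Lib_helper30.GSC.Total

set_option autoImplicit false

/-!
# Transfer between characteristics
-/

namespace Pool.Agent.GSC

open Matrix Module CategoryTheory

universe u

section

variable {ι : Type u} {F : ι → Type u} [∀ i, Field (F i)] {d : ℕ}

/-- Solutions over all factors give a solution over the product. -/
lemma injLE_pi : ∀ (n : ℕ) (m : Type) [Fintype m] [DecidableEq m]
    (c : Fin d → Fin d → Fin d → (∀ i, F i)) (ρ : Fin d → Matrix m m (∀ i, F i)),
    (∀ t : ι, InjLE (fun i j l => Pi.evalRingHom F t (c i j l)) n m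
      (fun l => (ρ l).map (Pi.evalRingHom F t))) → InjLE c n m ρ
  | 0, m, _, _, c, ρ, h => by
      choose H hH using h
      refine ⟨fun i => Matrix.of fun a b => fun t => H t i a b, fun l k => ?_⟩
      ext a b t
      have h1 := congrFun (congrFun (hH t l k) a) b
      have e1 : ((if k = l then (1 : Matrix m m (∀ i, F i)) else 0) a b : ∀ i, F i) t =
          (if k = l then (1 : Matrix m m (F t)) else 0) a b := by
        split_ifs
        · simp only [Matrix.one_apply]
          split_ifs <;> rfl
        · rfl
      rw [e1, ← h1]
      simp only [Matrix.add_apply, Matrix.sub_apply, Matrix.mul_apply, Matrix.sum_apply,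
        Matrix.smul_apply, Matrix.of_apply, Matrix.map_apply, smul_eq_mul, Pi.add_apply,
        Pi.sub_apply, Finset.sum_apply, Pi.mul_apply, Pi.evalRingHom_apply]
      congr 1
      split_ifs
      · simp only [Matrix.sum_apply, Matrix.mul_apply, Matrix.of_apply, Matrix.map_apply,
          Finset.sum_apply, Pi.mul_apply, Pi.evalRingHom_apply]
      · rfl
  | n + 1, m, _, _, c, ρ, h => by
      refine injLE_pi n (Fin d × m) c (co c ρ) fun t => ?_
      have h1 : (fun l => (co c ρ l).map (Pi.evalRingHom F t)) =
          co (fun i j k => Pi.evalRingHom F t (c i j k))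
            (fun i => (ρ i).map (Pi.evalRingHom F t)) :=
        funext fun l => (co_map (Pi.evalRingHom F t) c ρ l).symm
      rw [h1]
      exact h t

/-- Finitely many elements of a proper ideal of a product of fields have a common zero. -/
lemma common_zero (M : Ideal (∀ i, F i)) (hM : M ≠ ⊤) {κ : Type*} [Fintype κ]
    (v : κ → (∀ i, F i)) (hv : ∀ x, v x ∈ M) : ∃ t : ι, ∀ x, v x t = 0 := by
  classical
  by_contra hcon
  push Not at hcon
  choose x hx using hcon
  apply hM
  rw [Ideal.eq_top_iff_one]
  have h1 : (1 : ∀ i, F i) = ∑ y, (fun t => if x t = y then (v y t)⁻¹ else 0) * v y := by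
    funext t
    rw [Finset.sum_apply, Pi.one_apply]
    simp only [Pi.mul_apply, ite_mul, zero_mul, Finset.sum_ite_eq, Finset.mem_univ, if_true]
    exact (inv_mul_cancel₀ (hx t)).symm
  rw [h1]
  exact Ideal.sum_mem _ fun y _ => Ideal.mul_mem_left _ _ (hv y)

/-- A solution modulo a proper ideal gives a solution over one factor. -/
lemma injLE_quot (M : Ideal (∀ i, F i)) (hM : M ≠ ⊤) : ∀ (n : ℕ) (m : Type) [Fintype m]
    [DecidableEq m] (c : Fin d → Fin d → Fin d → (∀ i, F i)) (ρ : Fin d → Matrix m m (∀ i, F i)),
    InjLE (fun i j l => Ideal.Quotient.mk M (c i j l)) n m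
      (fun l => (ρ l).map (Ideal.Quotient.mk M)) →
    ∃ t : ι, InjLE (fun i j l => Pi.evalRingHom F t (c i j l)) n m
      (fun l => (ρ l).map (Pi.evalRingHom F t))
  | 0, m, _, _, c, ρ, ⟨h, hh⟩ => by
      have hs : ∀ i a b, ∃ y : ∀ i, F i, Ideal.Quotient.mk M y = h i a b := fun i a b =>
        Ideal.Quotient.mk_surjective _
      choose H hH using hs
      let H' : Fin d → Matrix m m (∀ i, F i) := fun i => Matrix.of fun a b => H i a b
      have hH' : ∀ i, (H' i).map (Ideal.Quotient.mk M) = h i := fun i => by
        ext a b
        exact hH i a b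
      let V : Fin d → Fin d → Matrix m m (∀ i, F i) := fun l k =>
        (ρ l * H' k - ∑ i, c i l k • H' i + (if k = l then ∑ i, H' i * ρ i else 0)) -
          (if k = l then 1 else 0)
      have key : ∀ {T : Type u} [CommRing T] (φ : (∀ i, F i) →+* T) (l k : Fin d),
          (V l k).map φ = ((ρ l).map φ * (H' k).map φ - ∑ i, φ (c i l k) • (H' i).map φ +
            (if k = l then ∑ i, (H' i).map φ * (ρ i).map φ else 0)) -
              (if k = l then 1 else 0) := by
        intro T _ φ l k
        have h0 : (V l k).map φ = φ.mapMatrix (V l k) := rfl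
        rw [h0, map_sub, map_add, map_sub, map_mul, map_sum]
        have h2 : φ.mapMatrix (if k = l then ∑ i, H' i * ρ i else 0) =
            if k = l then ∑ i, (H' i).map φ * (ρ i).map φ else 0 := by
          split_ifs
          · rw [map_sum]
            exact Finset.sum_congr rfl fun i _ => map_mul _ _ _
          · exact map_zero _
        have h3 : φ.mapMatrix (if k = l then (1 : Matrix m m (∀ i, F i)) else 0) =
            if k = l then (1 : Matrix m m T) else 0 := by
          split_ifs
          · exact map_one _
          · exact map_zero _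
        rw [h2, h3]
        congr 3
        refine Finset.sum_congr rfl fun i _ => ?_
        ext a b
        simp
      have hV : ∀ x : Fin d × Fin d × m × m, V x.1 x.2.1 x.2.2.1 x.2.2.2 ∈ M := by
        rintro ⟨l, k, a, b⟩
        rw [← Ideal.Quotient.eq_zero_iff_mem]
        have h1 := key (Ideal.Quotient.mk M) l k
        simp only [hH'] at h1
        rw [hh l k, sub_self] at h1
        exact congrFun (congrFun h1 a) b
      obtain ⟨t, ht⟩ := common_zero M hM _ hV
      refine ⟨t, fun i => (H' i).map (Pi.evalRingHom F t), fun l k => ?_⟩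
      have h1 := key (Pi.evalRingHom F t) l k
      have h2 : (V l k).map (Pi.evalRingHom F t) = 0 := by
        ext a b
        exact ht (l, k, a, b)
      rw [h2] at h1
      exact (sub_eq_zero.mp h1.symm)
  | n + 1, m, _, _, c, ρ, h => by
      have h1 : InjLE (fun i j l => Ideal.Quotient.mk M (c i j l)) n (Fin d × m)
          (fun l => (co c ρ l).map (Ideal.Quotient.mk M)) := by
        have : (fun l => (co c ρ l).map (Ideal.Quotient.mk M)) =
            co (fun i j k => Ideal.Quotient.mk M (c i j k))
              (fun i => (ρ i).map (Ideal.Quotient.mk M)) :=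
          funext fun l => (co_map (Ideal.Quotient.mk M) c ρ l).symm
        rw [this]
        exact h
      obtain ⟨t, ht⟩ := injLE_quot M hM n (Fin d × m) c (co c ρ) h1
      refine ⟨t, ?_⟩
      have : (fun l => (co c ρ l).map (Pi.evalRingHom F t)) =
          co (fun i j k => Pi.evalRingHom F t (c i j k))
            (fun i => (ρ i).map (Pi.evalRingHom F t)) :=
        funext fun l => (co_map (Pi.evalRingHom F t) c ρ l).symm
      rw [this] at ht
      exact ht

end

end Pool.Agent.GSC
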